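import Pool.Agent.KIN.St
import Pool.Agent.KSS.S5

/-!
# KIN / H2: homotopy invariance
-/

set_option autoImplicit false

noncomputable section

namespace Pool.Agent.KIN

open CategoryTheory AlgebraicGeometry TopologicalSpace Function Pool.Agent.KSS

/-! ### generalities on classes -/

theorem h2_ext {X : Scheme.{0}} {G : Type*} [AddCommGroup G] {φ ψ : K0 X →+ G}
    (h : ∀ (M : X.Modules) (hM : IsCoh M), φ (cl M hM) = ψ (cl M hM)) : φ = ψ := by
  refine AddMonoidHom.eq_of_eqOn_dense (cl_closure X) ?_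
  rintro _ ⟨M, hM, rfl⟩
  exact h M hM

/-- a morphism which is bijective on sections over affine opens does not change the class -/
theorem h2_cl_eq {X : Scheme.{0}} {M N : X.Modules} (φ : M ⟶ N) (hM : IsCoh M) (hN : IsCoh N)
    (h : ∀ U : X.Opens, IsAffineOpen U → Bijective (ap φ U)) : cl M hM = cl N hN := by
  obtain ⟨Z, hZ, hv⟩ := (thm_S5 thm_S1 thm_S2 X).2.2.2.2
  have h0 : cl Z hZ = 0 := (thm_S5 thm_S1 thm_S2 X).2.2.2.1 Z hZ hv
  have h1 := cl_add (ShortComplex.mk (0 : Z ⟶ M) φ (by simp)) ?_ hZ hM hN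
  · rw [h0, zero_add] at h1
    exact h1
  · refine (thm_S1 X).2.2.2.2 _ ?_ ?_ ?_
    · intro U hU s t _
      exact (hv U le_top hU s).trans (hv U le_top hU t).symm
    · intro U hU s hs
      refine ⟨0, ?_⟩
      rw [map_zero]
      have h2 : ap φ U s = ap φ U 0 := by rw [map_zero]; exact hs
      exact ((h U hU).1 h2).symm
    · intro U hU
      exact (h U hU).2

/-- functoriality of the pull-back -/
theorem h2_comp (hP2 : St_P2) {X Y Z : Scheme.{0}} [IsLocallyNoetherian X]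
    [IsLocallyNoetherian Y] [IsLocallyNoetherian Z] (g : Z ⟶ Y) (f : Y ⟶ X) [Flat g] [Flat f]
    (x : K0 X) : pullK (g ≫ f) x = pullK g (pullK f x) := by
  obtain ⟨-, hc, hcl, -⟩ := hP2
  have key : pullK (g ≫ f) = (pullK g).comp (pullK f) := by
    refine h2_ext fun M hM => ?_
    rw [AddMonoidHom.comp_apply, hcl _ _ (g ≫ f) M hM (hc _ _ _ M hM),
      hcl _ _ f M hM (hc _ _ _ M hM), hcl _ _ g _ (hc _ _ _ M hM) (hc _ _ _ _ (hc _ _ _ M hM))]
    exact (cl_iso ((Scheme.Modules.pullbackComp g f).app M) _ _).symm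
  rw [key]
  rfl

/-- base change for finite morphisms -/
theorem h2_bc (hP2 : St_P2) (hP4 : St_P4) {X' X Y' Y : Scheme.{0}} [IsLocallyNoetherian X']
    [IsLocallyNoetherian X] [IsLocallyNoetherian Y'] [IsLocallyNoetherian Y] (g' : X' ⟶ X)
    (f' : X' ⟶ Y') (f : X ⟶ Y) (g : Y' ⟶ Y) [IsFinite f] [IsFinite f'] [Flat g] [Flat g']
    (h : IsPullback g' f' f g) (x : K0 X) :
    pullK g (pushK f x) = pushK f' (pullK g' x) := by
  obtain ⟨-, hc, hcl, -⟩ := hP2
  have key : (pullK g).comp (pushK f) = (pushK f').comp (pullK g') := by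
    refine h2_ext fun M hM => ?_
    rw [AddMonoidHom.comp_apply, AddMonoidHom.comp_apply, pushK_cl,
      hcl _ _ g _ (coh_pf f M hM) (hc _ _ _ _ (coh_pf f M hM)),
      hcl _ _ g' M hM (hc _ _ _ M hM), pushK_cl]
    obtain ⟨e⟩ := hP4 X' X Y' Y g' f' f g h M hM.1
    exact cl_iso e _ _
  exact DFunLike.congr_fun key x

/-- restriction to an open subscheme is surjective -/
theorem h2_open (hE1 : St_E1) (hP2 : St_P2) {X U : Scheme.{0}} [IsNoetherian X] (j : U ⟶ X)
    [IsOpenImmersion j] : Surjective (pullK j) := by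
  have : IsLocallyNoetherian U := isLocallyNoetherian_of_isOpenImmersion j
  obtain ⟨-, hc, hcl, hes⟩ := hP2
  rw [← AddMonoidHom.range_eq_top, eq_top_iff, ← cl_closure U, AddSubgroup.closure_le]
  rintro _ ⟨M, hM, rfl⟩
  obtain ⟨F, u, hF, -, hu⟩ := hE1 X U j M hM
  refine ⟨cl F hF, ?_⟩
  rw [hcl _ _ j F hF (hc _ _ _ F hF)]
  let v : pb j F ⟶ M := ((Scheme.Modules.pullbackPushforwardAdjunction j).homEquiv F M).symm u
  have hv : eta j F ≫ (Scheme.Modules.pushforward j).map v = u := by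
    have h1 := (Scheme.Modules.pullbackPushforwardAdjunction j).homEquiv_unit (f := v)
    rw [← h1]
    exact Equiv.apply_symm_apply _ _
  refine h2_cl_eq v _ _ fun V hV => ?_
  have hV' : IsAffineOpen (j ''ᵁ V) := hV.image_of_isOpenImmersion j
  have hle : j ''ᵁ V ≤ j.opensRange := Scheme.Hom.image_le_opensRange j V
  have h2 := hes X U j F hF.1 (j ''ᵁ V) hV' hle
  have h3 := hu (j ''ᵁ V) hV' hle
  have h4 : ∀ m : Γ(F, j ''ᵁ V), ap v (j ⁻¹ᵁ (j ''ᵁ V)) (es j F (j ''ᵁ V) (j ⁻¹ᵁ (j ''ᵁ V)) le_rfl m) =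
      (show Γ(M, j ⁻¹ᵁ (j ''ᵁ V)) from ap u (j ''ᵁ V) m) := by
    intro m
    have h5 : es j F (j ''ᵁ V) (j ⁻¹ᵁ (j ''ᵁ V)) le_rfl m =
        (show Γ(pb j F, j ⁻¹ᵁ (j ''ᵁ V)) from ap (eta j F) (j ''ᵁ V) m) := rM_self _ _
    rw [h5, ← hv]
    rfl
  have h6 : Bijective (ap v (j ⁻¹ᵁ (j ''ᵁ V))) := by
    refine (Function.Bijective.of_comp_iff _ h2).1 ?_
    have h7 : (ap v (j ⁻¹ᵁ (j ''ᵁ V)) : _ → _) ∘
        (es j F (j ''ᵁ V) (j ⁻¹ᵁ (j ''ᵁ V)) le_rfl : _ → _) =
        fun m => (show Γ(M, j ⁻¹ᵁ (j ''ᵁ V)) from ap u (j ''ᵁ V) m) := funext h4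
    rw [h7]
    exact h3
  rwa [Scheme.Hom.preimage_image_eq] at h6

/-! ### geometry -/

/-- the cartesian square of polynomial rings -/
theorem h2_sq {R A : Type} [CommRing R] [CommRing A] (φ : R →+* A) :
    IsPullback (Spec.map (CommRingCat.ofHom (Polynomial.C : A →+* Polynomial A)))
      (Spec.map (CommRingCat.ofHom (Polynomial.mapRingHom φ))) (Spec.map (CommRingCat.ofHom φ))
      (Spec.map (CommRingCat.ofHom (Polynomial.C : R →+* Polynomial R))) := by
  algebraize [φ, Polynomial.mapRingHom φ]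
  exact isPullback_SpecMap_of_isPushout _ _ _ _
    (CommRingCat.isPushout_of_isPushout R A (Polynomial R) (Polynomial A))

theorem h2_flatC (R : Type) [CommRing R] :
    Flat (Spec.map (CommRingCat.ofHom (Polynomial.C : R →+* Polynomial R))) := by
  rw [Flat.SpecMap_iff]
  show (algebraMap R (Polynomial R)).Flat
  rw [RingHom.flat_algebraMap_iff]
  infer_instance

theorem h2_ftC (R : Type) [CommRing R] :
    LocallyOfFiniteType (Spec.map (CommRingCat.ofHom (Polynomial.C : R →+* Polynomial R))) := by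
  rw [HasRingHomProperty.Spec_iff (P := @LocallyOfFiniteType)]
  show (algebraMap R (Polynomial R)).FiniteType
  rw [RingHom.finiteType_algebraMap]
  infer_instance

theorem h2_noeth {X Y : Scheme.{0}} (f : Y ⟶ X) [IsNoetherian X] [LocallyOfFiniteType f]
    [QuasiCompact f] : IsNoetherian Y := by
  have h1 : IsLocallyNoetherian Y := LocallyOfFiniteType.isLocallyNoetherian f
  have h2 : CompactSpace Y := QuasiCompact.compactSpace_of_compactSpace f
  exact { }

theorem h2_base {X Y : Scheme.{0}} [IsNoetherian X] {R : Type} [CommRing R] {f : Y ⟶ X}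
    {g : Y ⟶ Spec (CommRingCat.of (Polynomial R))} {h : X ⟶ Spec (CommRingCat.of R)}
    (sq : IsPullback f g h (Spec.map (CommRingCat.ofHom (Polynomial.C : R →+* Polynomial R)))) :
    Flat f ∧ IsNoetherian Y := by
  have h1 := h2_flatC R
  have h2 := h2_ftC R
  have h3 : Flat f := MorphismProperty.of_isPullback (P := @Flat) sq.flip h1
  have h4 : LocallyOfFiniteType f :=
    MorphismProperty.of_isPullback (P := @LocallyOfFiniteType) sq.flip h2
  have h5 : QuasiCompact f :=
    MorphismProperty.of_isPullback (P := @QuasiCompact) sq.flip inferInstance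
  exact ⟨h3, h2_noeth f⟩

/-- the affine case -/
theorem h2_aff (hE1 : St_E1) (hP2 : St_P2) (hH1 : St_H1) {W Y : Scheme.{0}} [IsAffine W]
    [IsNoetherian W] {R : Type} [CommRing R] {f : Y ⟶ W}
    {g : Y ⟶ Spec (CommRingCat.of (Polynomial R))} {h : W ⟶ Spec (CommRingCat.of R)}
    (sq : IsPullback f g h (Spec.map (CommRingCat.ofHom (Polynomial.C : R →+* Polynomial R)))) :
    Surjective (pullK f) := by
  obtain ⟨hf, hY⟩ := h2_base sq
  let A : CommRingCat := Γ(W, ⊤)
  have hA : IsNoetherianRing A := by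
    show IsNoetherianRing Γ(W, ⊤)
    exact IsLocallyNoetherian.component_noetherian ⟨⊤, isAffineOpen_top W⟩
  let e : W ≅ Spec A := W.isoSpec
  let φ : R →+* A := (Spec.preimage (e.inv ≫ h)).hom
  have hφ : Spec.map (CommRingCat.ofHom φ) = e.inv ≫ h := by
    show Spec.map (Spec.preimage (e.inv ≫ h)) = _
    exact Spec.map_preimage _
  have hs := h2_sq φ
  let c : Spec (CommRingCat.of (Polynomial A)) ⟶ Spec A :=
    Spec.map (CommRingCat.ofHom (Polynomial.C : A →+* Polynomial A))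
  have hc := h2_flatC A
  have hs' : IsPullback (c ≫ e.inv) (Spec.map (CommRingCat.ofHom (Polynomial.mapRingHom φ))) h
      (Spec.map (CommRingCat.ofHom (Polynomial.C : R →+* Polynomial R))) := by
    refine IsPullback.of_iso hs (Iso.refl _) e.symm (Iso.refl _) (Iso.refl _) ?_ ?_ ?_ ?_
    · simp [c]
    · simp
    · rw [hφ]
      simp
    · simp
  let e' := sq.isoIsPullback _ _ hs'
  have he' : e'.hom ≫ c ≫ e.inv = f := sq.isoIsPullback_hom_fst _ _ hs'
  have hc' : Flat c := hc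
  have h1 : Surjective (pullK e'.hom) := h2_open hE1 hP2 e'.hom
  have h2 : Surjective (pullK e.inv) := h2_open hE1 hP2 e.inv
  have h3 : Surjective (pullK c) := hH1 A
  intro y
  obtain ⟨y1, rfl⟩ := h1 y
  obtain ⟨y2, rfl⟩ := h3 y1
  obtain ⟨y3, rfl⟩ := h2 y2
  refine ⟨y3, ?_⟩
  rw [← he', h2_comp hP2, h2_comp hP2]

/-- noetherian induction over the closed subschemes -/
theorem h2_ind (hE1 : St_E1) (hE2 : St_E2) (hD3 : St_D3) (hP2 : St_P2) (hP4 : St_P4)
    (hH1 : St_H1) {X : Scheme.{0}} [IsNoetherian X] {R : Type} [CommRing R]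
    (h : X ⟶ Spec (CommRingCat.of R)) (C : Closeds X) :
    ∀ (Z Y : Scheme.{0}) (i : Z ⟶ X) [IsClosedImmersion i], Set.range i = (C : Set X) →
      ∀ (f : Y ⟶ Z) (g : Y ⟶ Spec (CommRingCat.of (Polynomial R))),
      IsPullback f g (i ≫ h) (Spec.map (CommRingCat.ofHom (Polynomial.C : R →+* Polynomial R))) →
        Surjective (pullK f) := by
  induction C using WellFoundedLT.induction with
  | ind C ih =>
  intro Z Y i _ hC f g sq
  have hZ : IsNoetherian Z := h2_noeth i
  obtain ⟨hf, hY⟩ := h2_base sq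
  rcases isEmpty_or_nonempty Z with hem | ⟨⟨z⟩⟩
  · exact h2_aff hE1 hP2 hH1 sq
  obtain ⟨W, hW, hzW, -⟩ := exists_isAffineOpen_mem_and_subset (x := z) (U := ⊤) trivial
  -- the affine open subscheme
  have hWa : IsAffine W.toScheme := hW
  have hWn : IsNoetherian W.toScheme := { }
  let j : W.toScheme ⟶ Z := W.ι
  let jY : Limits.pullback f j ⟶ Y := Limits.pullback.fst f j
  let fW : Limits.pullback f j ⟶ W.toScheme := Limits.pullback.snd f j
  have sq1 : IsPullback jY fW f j := IsPullback.of_hasPullback f j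
  have sqW := (sq1.paste_horiz sq.flip).flip
  obtain ⟨hfW, hYW⟩ := h2_base sqW
  -- the closed complement
  let C0 : Closeds Z := ⟨(W : Set Z)ᶜ, W.isOpen.isClosed_compl⟩
  let I : Z.IdealSheafData := Scheme.IdealSheafData.vanishingIdeal C0
  let i' : I.subscheme ⟶ Z := I.subschemeι
  have hi' : Set.range i' = (W : Set Z)ᶜ := by
    show Set.range I.subschemeι = _
    rw [Scheme.IdealSheafData.range_subschemeι, Scheme.IdealSheafData.coe_support_vanishingIdeal]
    rfl
  have hZ' : IsNoetherian I.subscheme := h2_noeth i'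
  let iY : Limits.pullback f i' ⟶ Y := Limits.pullback.fst f i'
  let fY : Limits.pullback f i' ⟶ I.subscheme := Limits.pullback.snd f i'
  have sq2 : IsPullback iY fY f i' := IsPullback.of_hasPullback f i'
  have sqY := (sq2.paste_horiz sq.flip).flip
  obtain ⟨hfY, hY'⟩ := h2_base sqY
  -- the induction hypothesis
  let C' : Closeds X := ⟨Set.range (i' ≫ i), (i' ≫ i).isClosedEmbedding.isClosed_range⟩
  have hlt : C' < C := by
    refine lt_of_le_of_ne ?_ ?_
    · rintro _ ⟨x, rfl⟩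
      rw [Scheme.Hom.comp_apply]
      show i (i' x) ∈ (C : Set X)
      rw [← hC]
      exact ⟨_, rfl⟩
    · intro he
      have h1 : i z ∈ (C' : Set X) := by
        rw [he, ← hC]
        exact ⟨z, rfl⟩
      obtain ⟨x, hx⟩ := h1
      rw [Scheme.Hom.comp_apply] at hx
      have h2 := i.isClosedEmbedding.injective hx
      have h3 : z ∈ Set.range i' := ⟨x, h2⟩
      rw [hi'] at h3
      exact h3 hzW
  have ihY : Surjective (pullK fY) := by
    refine ih C' hlt I.subscheme _ (i' ≫ i) rfl fY (iY ≫ g) ?_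
    rw [Category.assoc]
    exact sqY
  have hsW : Surjective (pullK fW) := h2_aff hE1 hP2 hH1 sqW
  have hsj : Surjective (pullK j) := h2_open hE1 hP2 j
  intro y
  obtain ⟨w, hw⟩ := hsW (pullK jY y)
  obtain ⟨z0, hz0⟩ := hsj w
  have hrange : Set.range iY = ((jY.opensRange : Y.Opens) : Set Y)ᶜ := by
    rw [Scheme.Hom.coe_opensRange]
    show Set.range (Limits.pullback.fst f i') = (Set.range (Limits.pullback.fst f j))ᶜ
    rw [Scheme.Pullback.range_fst, Scheme.Pullback.range_fst, hi', ← Set.preimage_compl]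
    congr 1
    show (W : Set Z)ᶜ = (Set.range W.ι)ᶜ
    rw [Scheme.Opens.range_ι]
  have h0 : pullK jY (y - pullK f z0) = 0 := by
    rw [map_sub, ← h2_comp hP2 jY f, sq1.w, h2_comp hP2 fW j, hz0, hw, sub_self]
  have h1 := hE2 Y _ jY _ h0
  obtain ⟨z1, hz1⟩ := (hD3 _ Y iY jY.opensRange hrange).2.1 _ h1
  obtain ⟨z2, hz2⟩ := ihY z1
  refine ⟨z0 + pushK i' z2, ?_⟩
  rw [map_add, h2_bc hP2 hP4 fY iY i' f sq2.flip, hz2, hz1, add_sub_cancel]

theorem thm_H2 (hE1 : St_E1) (hE2 : St_E2) (hD3 : St_D3) (hP2 : St_P2) (hP4 : St_P4)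
    (hH1 : St_H1) : St_H2 := by
  intro X Y _ R _ f g h _ sq
  refine h2_ind hE1 hE2 hD3 hP2 hP4 hH1 h ⊤ X Y (𝟙 X) ?_ f g ?_
  · simp
  · rw [Category.id_comp]
    exact sq

end Pool.Agent.KIN
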