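import Pool.Agent.KIN.St
import Pool.Agent.KSS.All

/-!
# KIN, module D1: closed immersions
-/

set_option autoImplicit false

noncomputable section

namespace Pool.Agent.KIN

open CategoryTheory AlgebraicGeometry TopologicalSpace Function Pool.Agent.KSS

section

variable {Z X : Scheme.{0}} (i : Z ⟶ X)

/-- the unit on sections is the map `es` -/
theorem d1_es (F : X.Modules) (U : X.Opens) (s : Γ(F, U)) :
    es i F U (i ⁻¹ᵁ U) le_rfl s = (show Γ(pb i F, i ⁻¹ᵁ U) from ap (eta i F) U s) :=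
  rM_self le_rfl _

theorem d1_one (hA : St_A0) (hP : St_P1) [IsClosedImmersion i] (F : X.Modules)
    (hF : F.IsQuasicoherent) (U : X.Opens) (hU : IsAffineOpen U) :
    Surjective (ap (eta i F) U) ∧
    ∀ s, ap (eta i F) U s = 0 ↔
      s ∈ RingHom.ker (i.app U).hom • (⊤ : Submodule Γ(X, U) Γ(F, U)) := by
  obtain ⟨-, -, -, -, -, h6, -⟩ := hA
  have hV : IsAffineOpen (i ⁻¹ᵁ U) := hU.preimage i
  have h1 := (hP X Z i F hF).2 U (i ⁻¹ᵁ U) le_rfl hU hV
  have h2 : (i.appLE U (i ⁻¹ᵁ U) le_rfl).hom = (i.app U).hom := by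
    rw [Scheme.Hom.appLE_eq_app]
  rw [h2] at h1
  obtain ⟨h3, h4⟩ := h6 _ _ _ _ _ _ h1 (i.app_surjective U hU)
  have h5 : ∀ s, es i F U (i ⁻¹ᵁ U) le_rfl s =
      (show Γ(pb i F, i ⁻¹ᵁ U) from ap (eta i F) U s) := d1_es i F U
  constructor
  · intro t
    obtain ⟨s, hs⟩ := h3 t
    refine ⟨s, ?_⟩
    rw [h5] at hs
    exact hs
  · intro s
    rw [← h4 s, h5]
    exact Iff.rfl

theorem d1_qc (hP : St_P1) [IsClosedImmersion i] (F : X.Modules) (hF : F.IsQuasicoherent) :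
    (pf i (pb i F)).IsQuasicoherent :=
  (all_S6 X Z i).1 _ (hP X Z i F hF).1

theorem d1_aff (X : Scheme.{0}) (x : X) : ∃ V : X.Opens, IsAffineOpen V ∧ x ∈ V := by
  obtain ⟨V, hV, hx, -⟩ := exists_isAffineOpen_mem_and_subset (U := (⊤ : X.Opens)) (x := x)
    trivial
  exact ⟨V, hV, hx⟩

theorem d1_two (hA : St_A0) (hL : St_L0) (hP : St_P1) [IsClosedImmersion i] (F : X.Modules)
    (hF : F.IsQuasicoherent)
    (h : ∀ U : X.Opens, IsAffineOpen U → ∀ r ∈ RingHom.ker (i.app U).hom,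
      ∀ s : Γ(F, U), r • s = 0) :
    (∀ U : X.Opens, IsAffineOpen U → Bijective (ap (eta i F) U)) ∧ IsIso (eta i F) := by
  have hb : ∀ U : X.Opens, IsAffineOpen U → Bijective (ap (eta i F) U) := by
    intro U hU
    obtain ⟨h1, h2⟩ := d1_one i hA hP F hF U hU
    refine ⟨?_, h1⟩
    rw [injective_iff_map_eq_zero]
    intro s hs
    rw [h2] at hs
    have h3 : RingHom.ker (i.app U).hom • (⊤ : Submodule Γ(X, U) Γ(F, U)) ≤ ⊥ := by
      rw [Submodule.smul_le]
      intro r hr n _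
      rw [h U hU r hr n]
      exact zero_mem _
    exact (Submodule.mem_bot _).1 (h3 hs)
  refine ⟨hb, ?_⟩
  refine (hL X).2.1 F _ (eta i F) hF (d1_qc i hP F hF) fun x => ?_
  obtain ⟨V, hV, hx⟩ := d1_aff X x
  exact ⟨V, hV, hx, hb V hV⟩

theorem d1_three (hA : St_A0) (hL : St_L0) (hP : St_P1) [IsClosedImmersion i] (N : Z.Modules)
    (hN : N.IsQuasicoherent) : Nonempty (pb i (pf i N) ≅ N) := by
  have hq : (pf i N).IsQuasicoherent := (all_S6 X Z i).1 _ hN
  have hk : ∀ U : X.Opens, IsAffineOpen U → ∀ r ∈ RingHom.ker (i.app U).hom,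
      ∀ s : Γ(pf i N, U), r • s = 0 := by
    intro U _ r hr s
    have h1 : r • s = (show Γ(pf i N, U) from
      ((i.app U).hom r) • (show Γ(N, i ⁻¹ᵁ U) from s)) := rfl
    rw [h1, RingHom.mem_ker.1 hr, zero_smul]
    rfl
  obtain ⟨hb, -⟩ := d1_two i hA hL hP (pf i N) hq hk
  let ε : pb i (pf i N) ⟶ N := (Scheme.Modules.pullbackPushforwardAdjunction i).counit.app N
  have htri : eta i (pf i N) ≫ (Scheme.Modules.pushforward i).map ε = 𝟙 (pf i N) :=
    (Scheme.Modules.pullbackPushforwardAdjunction i).right_triangle_components N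
  have hε : ∀ U : X.Opens, IsAffineOpen U → Bijective (ap ε (i ⁻¹ᵁ U)) := by
    intro U hU
    have h1 : ∀ s : Γ(pf i N, U), ap ε (i ⁻¹ᵁ U)
        (show Γ(pb i (pf i N), i ⁻¹ᵁ U) from ap (eta i (pf i N)) U s) =
          (show Γ(N, i ⁻¹ᵁ U) from s) := by
      intro s
      have h2 : ap (eta i (pf i N) ≫ (Scheme.Modules.pushforward i).map ε) U s = s := by
        rw [htri, ap_id]
      exact h2
    constructor
    · intro a b hab
      obtain ⟨s, hs⟩ := (hb U hU).2 a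
      obtain ⟨t, ht⟩ := (hb U hU).2 b
      have h2 := h1 s
      have h3 := h1 t
      have hs' : (show Γ(pb i (pf i N), i ⁻¹ᵁ U) from ap (eta i (pf i N)) U s) = a := hs
      have ht' : (show Γ(pb i (pf i N), i ⁻¹ᵁ U) from ap (eta i (pf i N)) U t) = b := ht
      rw [hs'] at h2
      rw [ht'] at h3
      have h4 : s = t := by
        have h5 := h2.symm.trans (hab.trans h3)
        exact h5
      rw [← hs', ← ht', h4]
    · intro c
      exact ⟨_, h1 c⟩
  have hI : IsIso ε := by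
    refine (hL Z).2.1 _ _ ε (hP X Z i _ hq).1 hN fun z => ?_
    obtain ⟨V, hV, hx⟩ := d1_aff X (i z)
    exact ⟨i ⁻¹ᵁ V, hV.preimage i, hx, hε V hV⟩
  exact ⟨asIso ε⟩

end

/-- the module -/
theorem thm_D1 (hA : St_A0) (hL : St_L0) (hP : St_P1) : St_D1 := by
  intro Z X _ i _
  refine ⟨fun F hF U hU => d1_one i hA hP F hF.1 U hU,
    fun F hF h => (d1_two i hA hL hP F hF.1 h).2, fun N hN => d1_three i hA hL hP N hN.1, ?_⟩
  intro F hF
  obtain ⟨K, I, ι, π, κ, w, hK, hI, hS, hπκ, hκ, hπ, hι, hker⟩ :=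
    (all_S4 X).1 F (pf i (pb i F)) (eta i F) hF (d1_qc i hP F hF.1)
  have hw : ι ≫ eta i F = 0 := by
    rw [← hπκ, ← Category.assoc, w, Limits.zero_comp]
  refine ⟨K, ι, hw, hK, ?_, hι, ?_⟩
  · refine (thm_S1 X).2.2.2.2 _ (fun U _ => hι U) (fun U _ s hs => (hker U s).1 hs)
      fun U hU => (d1_one i hA hP F hF.1 U hU).1
  · intro U hU s
    rw [← hker U s]
    exact (d1_one i hA hP F hF.1 U hU).2 s

end Pool.Agent.KIN
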