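import Pool.Agent.KIN.St

/-!
# KIN, module D2: coherent sheaves supported on a closed subscheme are killed by a power of the
ideal
-/

set_option autoImplicit false

noncomputable section

namespace Pool.Agent.KIN

open CategoryTheory AlgebraicGeometry TopologicalSpace Function Pool.Agent.KSS

/-- a finitely generated ideal which acts nilpotently on a finitely generated module -/
private theorem d2_alg {R M : Type} [CommRing R] [AddCommGroup M] [Module R M]
    [IsNoetherianRing R] [Module.Finite R M] (I : Ideal R)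
    (h : ∀ r ∈ I, ∀ m : M, ∃ n : ℕ, r ^ n • m = 0) :
    ∃ n : ℕ, ∀ r ∈ I ^ n, ∀ m : M, r • m = 0 := by
  classical
  have h1 : I ≤ (Module.annihilator R M).radical := by
    intro r hr
    obtain ⟨S, hS⟩ := (inferInstance : Module.Finite R M).fg_top
    choose n hn using h r hr
    refine ⟨∑ m ∈ S, n m, ?_⟩
    rw [Module.mem_annihilator]
    intro m
    have hm : m ∈ Submodule.span R (S : Set M) := by
      rw [hS]
      trivial
    induction hm using Submodule.span_induction with
    | mem y hy =>
      have h2 : ∑ m ∈ S, n m = ∑ m ∈ S.erase y, n m + n y :=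
        (Finset.sum_erase_add S n hy).symm
      rw [h2, pow_add, mul_smul, hn, smul_zero]
    | zero => exact smul_zero _
    | add y z _ _ hy hz => rw [smul_add, hy, hz, add_zero]
    | smul a y _ hy => rw [smul_comm, hy, smul_zero]
  obtain ⟨n, hn⟩ := Ideal.exists_pow_le_of_le_radical_of_fg h1
    ((isNoetherianRing_iff_ideal_fg R).1 inferInstance I)
  exact ⟨n, fun r hr => Module.mem_annihilator.1 (hn hr)⟩

/-- a finite affine cover -/
private theorem d2_cover (X : Scheme.{0}) [CompactSpace X] :
    ∃ (ι : Type) (_ : Fintype ι) (U : ι → X.affineOpens), (⨆ i, (U i : X.Opens)) = ⊤ := by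
  let 𝒰 := X.affineCover.finiteSubcover
  refine ⟨𝒰.I₀, inferInstance, fun i => ⟨(𝒰.f i).opensRange, isAffineOpen_opensRange _⟩, ?_⟩
  exact 𝒰.iSup_opensRange

/-- functions in the kernel vanish on the closed subscheme -/
private theorem d2_open {Z X : Scheme.{0}} (i : Z ⟶ X) (O : X.Opens)
    (hO : (O : Set X)ᶜ ⊆ Set.range i) (U : X.Opens) (r : Γ(X, U))
    (hr : r ∈ RingHom.ker (i.app U).hom) : X.basicOpen r ≤ O := by
  intro x hx
  by_contra hxO
  obtain ⟨z, rfl⟩ := hO hxO
  have h1 : z ∈ i ⁻¹ᵁ X.basicOpen r := hx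
  rw [Scheme.preimage_basicOpen] at h1
  have h2 : (i.app U).hom r = 0 := hr
  have h3 : Z.basicOpen ((i.app U).hom r) = ⊥ := by
    rw [h2, Scheme.basicOpen_zero]
  have h4 : z ∈ Z.basicOpen ((i.app U).hom r) := h1
  rw [h3] at h4
  exact h4

/-- powers of an ideal sheaf localize -/
private theorem d2_map {X : Scheme.{0}} (J : X.IdealSheafData) (W : X.affineOpens)
    (f : Γ(X, W.1)) (n : ℕ) :
    ((J.ideal W) ^ n).map (X.presheaf.map (homOfLE (X.basicOpen_le f)).op).hom =
      (show Ideal Γ(X, X.basicOpen f) from (J.ideal (X.affineBasicOpen f))) ^ n := by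
  rw [Ideal.map_pow]
  exact congrArg (fun I : Ideal Γ(X, X.basicOpen f) => I ^ n) (J.map_ideal_basicOpen W f)

theorem thm_D2 : St_D2 := by
  intro Z X _ i _
  obtain ⟨ι, _, V, hV⟩ := d2_cover X
  refine ⟨?_, ?_⟩
  · intro O hO F hF hvan
    have hq : QLoc F := (thm_S2 X F).1 hF.1
    have h1 : ∀ a, ∃ n : ℕ, ∀ r ∈ (i.ker.ideal (V a)) ^ n, ∀ s : Γ(F, (V a).1), r • s = 0 := by
      intro a
      have : Module.Finite Γ(X, (V a).1) Γ(F, (V a).1) := hF.2 _ (V a).2
      have : IsNoetherianRing Γ(X, (V a).1) := IsLocallyNoetherian.component_noetherian (V a)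
      refine d2_alg _ fun r hr m => ?_
      rw [Scheme.Hom.ker_apply] at hr
      refine (hq (V a).1 (V a).2 r).2 m ?_
      exact hvan _ (d2_open i O hO.symm.subset _ r hr) ((V a).2.basicOpen r) _
    choose n hn using h1
    refine ⟨∑ a, n a, fun U hU => ?_⟩
    have key := of_affine_open_cover (P := fun U : X.affineOpens =>
      ∀ r ∈ (i.ker.ideal U) ^ (∑ a, n a), ∀ s : Γ(F, U.1), r • s = 0) V hV ⟨U, hU⟩ ?_ ?_ ?_
    · intro r hr s
      refine key r ?_ s
      rw [Scheme.Hom.ker_apply]
      exact hr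
    · intro W f hW
      show ∀ r ∈ (show Ideal Γ(X, X.basicOpen f) from
        (i.ker.ideal (X.affineBasicOpen f))) ^ (∑ a, n a), ∀ s : Γ(F, X.basicOpen f), r • s = 0
      intro r hr s
      rw [← d2_map i.ker W f] at hr
      obtain ⟨N, t, ht⟩ := (hq W.1 W.2 f).1 s
      have hunit : IsUnit (rO (X.basicOpen_le f) f) := by
        have := RingedSpace.isUnit_res_basicOpen X.toRingedSpace f
        exact this
      have h2 : ∀ r ∈ (i.ker.ideal W ^ (∑ a, n a)).map
          (X.presheaf.map (homOfLE (X.basicOpen_le f)).op).hom,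
          r • (rO (X.basicOpen_le f) f ^ N • s) = 0 := by
        intro r hr
        refine Submodule.span_induction (p := fun r _ =>
          r • (rO (X.basicOpen_le f) f ^ N • s) = 0) ?_ ?_ ?_ ?_ hr
        · rintro _ ⟨r', hr', rfl⟩
          have h3 : rM F (X.basicOpen_le f) (r' • t) = 0 := by
            rw [hW r' hr' t, map_zero]
          rw [rM_smul, ht] at h3
          exact h3
        · exact zero_smul _ _
        · intro x y _ _ hx hy
          rw [add_smul, hx, hy, add_zero]
        · intro c x _ hx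
          rw [smul_eq_mul, mul_smul, hx, smul_zero]
      have h3 := h2 r hr
      rw [smul_comm] at h3
      exact (hunit.pow N).smul_eq_zero.1 h3
    · intro W S hS hW r hr s
      have h2 : r • s ∈ (⊥ : Submodule Γ(X, W.1) Γ(F, W.1)) := by
        refine Submodule.mem_of_span_eq_top_of_smul_pow_mem _ (S : Set Γ(X, W.1)) hS _ fun f => ?_
        have h3 : rM F (X.basicOpen_le f.1) (r • s) = 0 := by
          rw [rM_smul]
          refine hW f _ ?_ _
          show _ ∈ (show Ideal Γ(X, X.basicOpen f.1) from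
            (i.ker.ideal (X.affineBasicOpen f.1))) ^ (∑ a, n a)
          rw [← d2_map i.ker W f.1]
          exact Ideal.mem_map_of_mem _ hr
        exact (hq W.1 W.2 f.1).2 _ h3
      exact h2
    · intro a r hr s
      refine hn a r ?_ s
      exact Ideal.pow_le_pow_right (Finset.single_le_sum (fun _ _ => Nat.zero_le _)
        (Finset.mem_univ a)) hr
  · intro hsurj
    have h1 : ∀ a, ∃ n : ℕ, (i.ker.ideal (V a)) ^ n = ⊥ := by
      intro a
      have : IsNoetherianRing Γ(X, (V a).1) := IsLocallyNoetherian.component_noetherian (V a)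
      refine (Ideal.FG.isNilpotent_iff_le_nilradical
        ((isNoetherianRing_iff_ideal_fg _).1 inferInstance _)).2 fun r hr => ?_
      rw [Scheme.Hom.ker_apply] at hr
      rw [mem_nilradical, Scheme.isNilpotent_iff_basicOpen_eq_bot_of_isCompact (V a).2.isCompact,
        eq_bot_iff]
      exact d2_open i ⊥ (fun x _ => hsurj x) _ r hr
    choose n hn using h1
    refine ⟨∑ a, n a, fun U hU => ?_⟩
    have key := of_affine_open_cover (P := fun U : X.affineOpens =>
      (i.ker.ideal U) ^ (∑ a, n a) = ⊥) V hV ⟨U, hU⟩ ?_ ?_ ?_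
    · rw [Scheme.Hom.ker_apply] at key
      exact key
    · intro W f hW
      show (show Ideal Γ(X, X.basicOpen f) from
        (i.ker.ideal (X.affineBasicOpen f))) ^ (∑ a, n a) = ⊥
      rw [← d2_map i.ker W f, hW, Ideal.map_bot]
    · intro W S hS hW
      rw [eq_bot_iff]
      intro r hr
      refine Submodule.mem_of_span_eq_top_of_smul_pow_mem _ (S : Set Γ(X, W.1)) hS _ fun f => ?_
      have h3 : rO (X.basicOpen_le f.1) r = 0 := by
        have h4 := Ideal.mem_map_of_mem (X.presheaf.map (homOfLE (X.basicOpen_le f.1)).op).hom hr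
        rw [d2_map i.ker W f.1] at h4
        have h5 : (show Ideal Γ(X, X.basicOpen f.1) from
          (i.ker.ideal (X.affineBasicOpen f.1))) ^ (∑ a, n a) = ⊥ := hW f
        rw [h5] at h4
        exact h4
      obtain ⟨m, hm⟩ := exists_pow_mul_eq_zero_of_res_basicOpen_eq_zero_of_isCompact X
        W.2.isCompact r f.1 h3
      exact ⟨m, hm⟩
    · intro a
      rw [eq_bot_iff, ← hn a]
      exact Ideal.pow_le_pow_right (Finset.single_le_sum (fun _ _ => Nat.zero_le _)
        (Finset.mem_univ a))

end Pool.Agent.KIN
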