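import Pool.Agent.KIN.St

/-!
# KIN, module D3: `SO O` is the image of `K'₀(Z)`
-/

set_option autoImplicit false

noncomputable section

namespace Pool.Agent.KIN

open CategoryTheory AlgebraicGeometry TopologicalSpace Function Pool.Agent.KSS
open Pool.Agent.Helper11

theorem d3_pre {Z X : Scheme.{0}} (i : Z ⟶ X) (O : X.Opens)
    (hO : Set.range i = (O : Set X)ᶜ) : i ⁻¹ᵁ O = ⊥ := by
  ext z
  constructor
  · intro hz
    have h1 : i z ∈ Set.range i := ⟨z, rfl⟩
    rw [hO] at h1
    exact absurd hz h1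
  · intro hz
    exact absurd hz (by simp)

/-- the induction -/
theorem d3_ind (h1 : St_P2) (h2 : St_D1) {Z X : Scheme.{0}} [IsNoetherian X]
    (i : Z ⟶ X) [IsClosedImmersion i] (n : ℕ) :
    ∀ (F : X.Modules) (hF : IsCoh F), (∀ U : X.Opens, IsAffineOpen U →
      ∀ r ∈ RingHom.ker (i.app U).hom ^ n, ∀ s : Γ(F, U), r • s = 0) →
      cl F hF ∈ (pushK i).range := by
  have : IsLocallyNoetherian Z := LocallyOfFiniteType.isLocallyNoetherian i
  induction n with
  | zero =>
    intro F hF h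
    have h3 : cl F hF = 0 := by
      refine (thm_S5 thm_S1 thm_S2 X).2.2.2.1 F hF ?_
      intro W _ hW s
      have h6 : (1 : Γ(X, W)) ∈ RingHom.ker (i.app W).hom ^ 0 := by
        rw [pow_zero, Ideal.one_eq_top]
        trivial
      have h7 := h W hW 1 h6 s
      rwa [one_smul] at h7
    rw [h3]
    exact zero_mem _
  | succ n ih =>
    intro F hF h
    obtain ⟨K, ι, w, hK, hS, hinj, him⟩ := (h2 Z X i).2.2.2 F hF
    have hc : IsCoh (pb i F) := h1.2.1 X Z i F hF
    have h4 := cl_add (ShortComplex.mk ι (eta i F) w) hS hK hF (coh_pf i _ hc)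
    have h5 : cl F hF = cl K hK + pushK i (cl (pb i F) hc) := by
      rw [pushK_cl]
      exact h4
    rw [h5]
    refine add_mem (ih K hK ?_) ⟨_, rfl⟩
    intro U hU r hr t
    apply hinj U
    rw [map_smul, map_zero]
    have h6 : ap ι U t ∈ RingHom.ker (i.app U).hom • (⊤ : Submodule Γ(X, U) Γ(F, U)) :=
      (him U hU _).1 ⟨t, rfl⟩
    refine Submodule.smul_induction_on h6 ?_ ?_
    · intro a ha m _
      rw [smul_smul]
      refine h U hU _ ?_ m
      rw [pow_succ]
      exact Ideal.mul_mem_mul hr ha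
    · intro x y hx hy
      rw [smul_add, hx, hy, add_zero]

theorem thm_D3 (h0 : St_L0) (h1 : St_P2) (h2 : St_D1) (h3 : St_D2) : St_D3 := by
  intro Z X _ i _ O hO
  have : IsLocallyNoetherian Z := LocallyOfFiniteType.isLocallyNoetherian i
  refine ⟨?_, ?_, ?_⟩
  · intro z
    refine pushK_SO i O z ?_
    rw [d3_pre i O hO, SO_bot (thm_S5 thm_S1 thm_S2 Z).2.2.1]
    exact AddSubgroup.mem_top z
  · have h4 : SO O ≤ (pushK i).range := by
      unfold SO
      rw [AddSubgroup.closure_le]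
      rintro x ⟨M, hM, hv, rfl⟩
      obtain ⟨n, hn⟩ := (h3 Z X i).1 O hO M hM hv
      exact d3_ind h1 h2 i n M hM hn
    intro x hx
    exact h4 hx
  · intro U j _ hj
    have : IsLocallyNoetherian U := isLocallyNoetherian_of_isOpenImmersion j
    have h4 : SO O ≤ (pullK j).ker := by
      unfold SO
      rw [AddSubgroup.closure_le]
      rintro x ⟨M, hM, hv, rfl⟩
      have hc : IsCoh (pb j M) := h1.2.1 X U j M hM
      show pullK j (cl M hM) = 0
      rw [h1.2.2.1 X U j M hM hc]
      refine (thm_S5 thm_S1 thm_S2 U).2.2.2.1 _ hc ?_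
      refine (h0 U).2.2.1 (pb j M) ⊤ hc.1 ?_
      intro y _
      have hy : j y ∈ O := by
        rw [← hj]
        exact ⟨y, rfl⟩
      obtain ⟨_, ⟨W, hW, rfl⟩, hyW, hWO⟩ :=
        X.isBasis_affineOpens.exists_subset_of_mem_open hy O.isOpen
      have hWj : W ≤ j.opensRange := by rw [hj]; exact hWO
      refine ⟨j ⁻¹ᵁ W, ?_, hyW, ?_⟩
      · exact IsAffineOpen.preimage_of_isOpenImmersion hW j hWj
      · intro s
        obtain ⟨m, hm⟩ := (h1.2.2.2 X U j M hM.1 W hW hWj).2 s
        rw [← hm, hv W hWO hW m, map_zero]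
    intro x hx
    exact h4 hx

end Pool.Agent.KIN
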