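import Pool.Agent.KIN.St
import Pool.Agent.KSS.S4

/-!
# KIN, module D4: devissage, injectivity of the push-forward along a surjective closed immersion
(helper57)
-/

set_option autoImplicit false

noncomputable section

namespace Pool.Agent.KIN

open CategoryTheory AlgebraicGeometry TopologicalSpace Function Pool.Agent.KSS

/-! ### short exact sequences -/

section chase

variable {X : Scheme.{0}}

/-- lifting to the kernel -/
theorem d4_lift {A B C G : X.Modules} {f : A ⟶ B} {g : B ⟶ C} {w : f ≫ g = 0}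
    (hS : (ShortComplex.mk f g w).ShortExact) (k : G ⟶ B) (hk : k ≫ g = 0) :
    ∃ l : G ⟶ A, l ≫ f = k := by
  have : Mono (ShortComplex.mk f g w).f := hS.mono_f
  exact ⟨hS.exact.lift k hk, hS.exact.lift_f k hk⟩

/-- factoring through the cokernel -/
theorem d4_desc {A B C G : X.Modules} {f : A ⟶ B} {g : B ⟶ C} {w : f ≫ g = 0}
    (hS : (ShortComplex.mk f g w).ShortExact) (k : B ⟶ G) (hk : f ≫ k = 0) :
    ∃ l : C ⟶ G, g ≫ l = k := by
  have : Epi (ShortComplex.mk f g w).g := hS.epi_g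
  exact ⟨hS.exact.desc k hk, hS.exact.g_desc k hk⟩

/-- the sections of a short exact sequence -/
theorem d4_sec {A B C : X.Modules} {f : A ⟶ B} {g : B ⟶ C} {w : f ≫ g = 0}
    (hS : (ShortComplex.mk f g w).ShortExact) (hA : A.IsQuasicoherent) (hB : B.IsQuasicoherent)
    (U : X.Opens) (hU : IsAffineOpen U) :
    Injective (ap f U) ∧ (∀ s, ap g U s = 0 ↔ ∃ t, ap f U t = s) ∧ Surjective (ap g U) := by
  refine ⟨(thm_S1 X).1 _ _ f hS.mono_f U,
    fun s => ⟨(thm_S1 X).2.1 _ hS.exact hS.mono_f U s, ?_⟩,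
    (thm_S3 thm_S1 thm_S2 X _ hS hA hB).2 U hU⟩
  rintro ⟨t, rfl⟩
  rw [← ap_comp, w, ap_zero]

/-- the constructions in the proof of additivity -/
theorem d4_chase [IsLocallyNoetherian X] {F₁ F₂ F₃ K₁ K₂ K₃ T₁ T₂ T₃ : X.Modules}
    {f : F₁ ⟶ F₂} {g : F₂ ⟶ F₃} {w : f ≫ g = 0} (hS : (ShortComplex.mk f g w).ShortExact)
    {ι₁ : K₁ ⟶ F₁} {η₁ : F₁ ⟶ T₁} {w₁ : ι₁ ≫ η₁ = 0}
    (h₁ : (ShortComplex.mk ι₁ η₁ w₁).ShortExact)
    {ι₂ : K₂ ⟶ F₂} {η₂ : F₂ ⟶ T₂} {w₂ : ι₂ ≫ η₂ = 0}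
    (h₂ : (ShortComplex.mk ι₂ η₂ w₂).ShortExact)
    {ι₃ : K₃ ⟶ F₃} {η₃ : F₃ ⟶ T₃} {w₃ : ι₃ ≫ η₃ = 0}
    (h₃ : (ShortComplex.mk ι₃ η₃ w₃).ShortExact)
    {p : T₁ ⟶ T₂} {q : T₂ ⟶ T₃} (hp : η₁ ≫ p = f ≫ η₂) (hq : η₂ ≫ q = g ≫ η₃)
    (cF₁ : IsCoh F₁) (cF₂ : IsCoh F₂) (cF₃ : IsCoh F₃) (cK₁ : IsCoh K₁) (cK₂ : IsCoh K₂)
    (cK₃ : IsCoh K₃)
    (hsur : ∀ U : X.Opens, IsAffineOpen U → ∀ s : Γ(K₃, U), ∃ t : Γ(K₂, U),
      ap g U (ap ι₂ U t) = ap ι₃ U s) :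
    ∃ (G R Q : X.Modules) (γ : G ⟶ K₂) (a : K₂ ⟶ K₃) (wA : γ ≫ a = 0) (d : K₁ ⟶ G)
      (σ : G ⟶ R) (wB : d ≫ σ = 0) (e : R ⟶ T₁) (h : T₁ ⟶ Q) (wC : e ≫ h = 0) (k : Q ⟶ T₂)
      (wD : k ≫ q = 0), IsCoh G ∧ IsCoh R ∧ IsCoh Q ∧
      (ShortComplex.mk γ a wA).ShortExact ∧ (ShortComplex.mk d σ wB).ShortExact ∧
      (ShortComplex.mk e h wC).ShortExact ∧ (ShortComplex.mk k q wD).ShortExact := by
  obtain ⟨hker, hcok, -⟩ := thm_S4 thm_S1 thm_S2 (thm_S3 thm_S1 thm_S2) X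
  obtain ⟨hinj, hex, -, -, hrec⟩ := thm_S1 X
  have m0 : Mono f := hS.mono_f
  have m1 : Mono ι₁ := h₁.mono_f
  have m2 : Mono ι₂ := h₂.mono_f
  have m3 : Mono ι₃ := h₃.mono_f
  -- the maps of the kernels
  obtain ⟨a, ha⟩ := d4_lift h₃ (ι₂ ≫ g)
    (by rw [Category.assoc, ← hq, ← Category.assoc, w₂, Limits.zero_comp])
  obtain ⟨b, hb⟩ := d4_lift h₂ (ι₁ ≫ f)
    (by rw [Category.assoc, ← hp, ← Category.assoc, w₁, Limits.zero_comp])
  -- the kernel of `a`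
  obtain ⟨G, -, γ, -, -, -, cG, -, -, -, -, -, hγ, hγa⟩ := hker K₂ K₃ a cK₂ cK₃.1
  have hasur : ∀ U : X.Opens, IsAffineOpen U → Surjective (ap a U) := by
    intro U hU s
    obtain ⟨t, ht⟩ := hsur U hU s
    refine ⟨t, hinj _ _ ι₃ m3 U ?_⟩
    rw [← ap_comp, ha, ap_comp, ht]
  have wA : γ ≫ a = 0 := hom_ext_ap fun U s => by
    rw [ap_comp, ap_zero]
    exact (hγa U _).2 ⟨s, rfl⟩
  have hA : (ShortComplex.mk γ a wA).ShortExact :=
    hrec _ (fun U _ => hγ U) (fun U _ s hs => (hγa U s).1 hs) hasur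
  -- the map to `F₁` and its cokernel
  obtain ⟨c, hc⟩ := d4_lift hS (γ ≫ ι₂)
    (by rw [Category.assoc, ← ha, ← Category.assoc, wA, Limits.zero_comp])
  have hcinj : ∀ U : X.Opens, Injective (ap c U) := by
    intro U s s' hs
    apply hγ U
    apply hinj _ _ ι₂ m2 U
    rw [← ap_comp, ← ap_comp, ← hc, ap_comp, ap_comp, hs]
  obtain ⟨Q, ρ, wρ, cQ, hρ, hρs, hρc⟩ := hcok G F₁ c cG cF₁ hcinj
  have e1 : Epi ρ := hρ.epi_g
  -- the map from `K₁` and its cokernel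
  obtain ⟨d, hd⟩ := d4_lift hA b (by
    rw [← cancel_mono ι₃, Category.assoc, ha, ← Category.assoc, hb, Category.assoc, w,
      Limits.comp_zero, Limits.zero_comp])
  have hdc : d ≫ c = ι₁ := by
    rw [← cancel_mono f, Category.assoc, hc, ← Category.assoc, hd, hb]
  have hdinj : ∀ U : X.Opens, Injective (ap d U) := by
    intro U s s' hs
    apply hinj _ _ ι₁ m1 U
    rw [← hdc, ap_comp, ap_comp, hs]
  obtain ⟨R, σ, wσ, cR, hσ, hσs, hσc⟩ := hcok K₁ G d cK₁ cG hdinj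
  have e2 : Epi σ := hσ.epi_g
  -- the remaining maps
  obtain ⟨e, he⟩ := d4_desc hσ (c ≫ η₁) (by rw [← Category.assoc, hdc, w₁])
  obtain ⟨h, hh⟩ := d4_desc h₁ ρ (by rw [← hdc, Category.assoc, wρ, Limits.comp_zero])
  obtain ⟨k, hk⟩ := d4_desc hρ (f ≫ η₂)
    (by rw [← Category.assoc, hc, Category.assoc, w₂, Limits.comp_zero])
  have wC : e ≫ h = 0 := by
    rw [← cancel_epi σ, ← Category.assoc, he, Category.assoc, hh, wρ, Limits.comp_zero]
  have wD : k ≫ q = 0 := by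
    rw [← cancel_epi ρ, ← Category.assoc, hk, Category.assoc, hq, ← Category.assoc, w,
      Limits.zero_comp, Limits.comp_zero]
  have he' : ∀ (U : X.Opens) (s : Γ(G, U)), ap e U (ap σ U s) = ap η₁ U (ap c U s) := by
    intro U s
    rw [← ap_comp, he, ap_comp]
  have hh' : ∀ (U : X.Opens) (s : Γ(F₁, U)), ap h U (ap η₁ U s) = ap ρ U s := by
    intro U s
    rw [← ap_comp, hh]
  have hk' : ∀ (U : X.Opens) (s : Γ(F₁, U)), ap k U (ap ρ U s) = ap η₂ U (ap f U s) := by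
    intro U s
    rw [← ap_comp, hk, ap_comp]
  have hq' : ∀ (U : X.Opens) (s : Γ(F₂, U)), ap q U (ap η₂ U s) = ap η₃ U (ap g U s) := by
    intro U s
    rw [← ap_comp, hq, ap_comp]
  have hc' : ∀ (U : X.Opens) (s : Γ(G, U)), ap f U (ap c U s) = ap ι₂ U (ap γ U s) := by
    intro U s
    rw [← ap_comp, hc, ap_comp]
  have ha' : ∀ (U : X.Opens) (s : Γ(K₂, U)), ap ι₃ U (ap a U s) = ap g U (ap ι₂ U s) := by
    intro U s
    rw [← ap_comp, ha, ap_comp]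
  have hdc' : ∀ (U : X.Opens) (s : Γ(K₁, U)), ap c U (ap d U s) = ap ι₁ U s := by
    intro U s
    rw [← ap_comp, hdc]
  refine ⟨G, R, Q, γ, a, wA, d, σ, wσ, e, h, wC, k, wD, cG, cR, cQ, hA, hσ, ?_, ?_⟩
  · refine hrec _ (fun U hU => ?_) (fun U hU s hs => ?_) (fun U hU s => ?_)
    · obtain ⟨-, x1, -⟩ := d4_sec h₁ cK₁.1 cF₁.1 U hU
      refine (injective_iff_map_eq_zero _).2 fun r hr => ?_
      obtain ⟨g0, rfl⟩ := hσs U hU r
      have h0 : ap η₁ U (ap c U g0) = 0 := by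
        rw [← he']
        exact hr
      obtain ⟨k0, hk0⟩ := (x1 _).1 h0
      exact (hσc U g0).2 ⟨k0, hcinj U (by rw [hdc', hk0])⟩
    · obtain ⟨-, -, x1⟩ := d4_sec h₁ cK₁.1 cF₁.1 U hU
      obtain ⟨x, rfl⟩ := x1 s
      have h0 : ap ρ U x = 0 := by
        rw [← hh']
        exact hs
      obtain ⟨g0, rfl⟩ := (hρc U x).1 h0
      exact ⟨ap σ U g0, he' U g0⟩
    · obtain ⟨x, rfl⟩ := hρs U hU s
      exact ⟨ap η₁ U x, hh' U x⟩
  · refine hrec _ (fun U hU => ?_) (fun U hU s hs => ?_) (fun U hU s => ?_)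
    · obtain ⟨-, x2, -⟩ := d4_sec h₂ cK₂.1 cF₂.1 U hU
      refine (injective_iff_map_eq_zero _).2 fun r hr => ?_
      obtain ⟨x, rfl⟩ := hρs U hU r
      have h0 : ap η₂ U (ap f U x) = 0 := by
        rw [← hk']
        exact hr
      obtain ⟨y, hy⟩ := (x2 _).1 h0
      have h1 : ap a U y = 0 := by
        apply hinj _ _ ι₃ m3 U
        rw [ha', hy, map_zero, ← ap_comp, w, ap_zero]
      obtain ⟨z, rfl⟩ := (hγa U y).1 h1
      refine (hρc U x).2 ⟨z, hinj _ _ f m0 U ?_⟩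
      rw [hc', hy]
    · obtain ⟨-, -, x2⟩ := d4_sec h₂ cK₂.1 cF₂.1 U hU
      obtain ⟨-, x3, -⟩ := d4_sec h₃ cK₃.1 cF₃.1 U hU
      obtain ⟨-, x0, -⟩ := d4_sec hS cF₁.1 cF₂.1 U hU
      obtain ⟨-, x2', -⟩ := d4_sec h₂ cK₂.1 cF₂.1 U hU
      obtain ⟨y, rfl⟩ := x2 s
      have h0 : ap η₃ U (ap g U y) = 0 := by
        rw [← hq']
        exact hs
      obtain ⟨z, hz⟩ := (x3 _).1 h0
      obtain ⟨v, rfl⟩ := hasur U hU z
      have h1 : ap g U (y - ap ι₂ U v) = 0 := by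
        rw [map_sub, ← hz, ha', sub_self]
      obtain ⟨x, hx⟩ := (x0 _).1 h1
      refine ⟨ap ρ U x, ?_⟩
      show ap k U (ap ρ U x) = ap η₂ U y
      have h2 : ap η₂ U (ap ι₂ U v) = 0 := (x2' _).2 ⟨v, rfl⟩
      rw [hk', hx, map_sub, h2, sub_zero]
    · obtain ⟨-, -, x3⟩ := d4_sec h₃ cK₃.1 cF₃.1 U hU
      obtain ⟨-, -, x0⟩ := d4_sec hS cF₁.1 cF₂.1 U hU
      obtain ⟨z, rfl⟩ := x3 s
      obtain ⟨y, rfl⟩ := x0 z
      exact ⟨ap η₂ U y, hq' U y⟩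

end chase

/-! ### sheaves killed by a power of the ideal -/

section killed

variable {Z X : Scheme.{0}} (i : Z ⟶ X)

/-- the sheaf is killed by the `m`-th power of the ideal of the closed subscheme -/
def d4_C (m : ℕ) (F : X.Modules) : Prop :=
  ∀ U : X.Opens, IsAffineOpen U → ∀ r ∈ RingHom.ker (i.app U).hom ^ m, ∀ s : Γ(F, U), r • s = 0

theorem d4_C_mono {m n : ℕ} (h : m ≤ n) {F : X.Modules} (hF : d4_C i m F) : d4_C i n F :=
  fun U hU r hr s => hF U hU r (Ideal.pow_le_pow_right h hr) s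

theorem d4_C_sub {m : ℕ} {A B : X.Modules} {f : A ⟶ B} (hf : Mono f) (hB : d4_C i m B) :
    d4_C i m A := by
  intro U hU r hr s
  apply (thm_S1 X).1 _ _ f hf U
  rw [map_smul, hB U hU r hr, map_zero]

theorem d4_C_quot {m : ℕ} {B C : X.Modules} {g : B ⟶ C}
    (hg : ∀ U : X.Opens, IsAffineOpen U → Surjective (ap g U)) (hB : d4_C i m B) :
    d4_C i m C := by
  intro U hU r hr s
  obtain ⟨t, rfl⟩ := hg U hU s
  rw [← map_smul, hB U hU r hr, map_zero]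

/-- push-forwards are killed by the ideal -/
theorem d4_C_pf (N : Z.Modules) : d4_C i 1 (pf i N) := by
  intro U hU r hr s
  rw [pow_one] at hr
  have h1 : r • s = (show Γ(pf i N, U) from
      ((i.app U).hom r • (show Γ(N, i ⁻¹ᵁ U) from s) : Γ(N, i ⁻¹ᵁ U))) := rfl
  rw [h1, (RingHom.mem_ker).1 hr, zero_smul]
  rfl

/-- the subsheaf `I F` is killed by `I ^ m` if `F` is killed by `I ^ (m + 1)` -/
theorem d4_C_K {m : ℕ} {K F : X.Modules} {ι : K ⟶ F} (hι : ∀ U : X.Opens, Injective (ap ι U))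
    (hI : ∀ U : X.Opens, IsAffineOpen U → ∀ s : Γ(F, U),
      (∃ t, ap ι U t = s) ↔ s ∈ RingHom.ker (i.app U).hom • (⊤ : Submodule Γ(X, U) Γ(F, U)))
    (hF : d4_C i (m + 1) F) : d4_C i m K := by
  intro U hU r hr s
  apply hι U
  rw [map_smul, map_zero]
  have h1 := (hI U hU (ap ι U s)).1 ⟨s, rfl⟩
  generalize ap ι U s = x at h1
  induction h1 using Submodule.smul_induction_on' with
  | smul a ha y hy =>
    rw [smul_smul]
    exact hF U hU _ (by rw [pow_succ]; exact Ideal.mul_mem_mul hr ha) y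
  | add y hy z hz h1 h2 => rw [smul_add, h1, h2, add_zero]

end killed

/-! ### sheaves killed by the ideal -/

section base

variable {Z X : Scheme.{0}} (i : Z ⟶ X)

/-- naturality of the unit, on sections -/
theorem d4_nat {M N : X.Modules} (φ : M ⟶ N) (U : X.Opens) (s : Γ(M, U)) :
    ap ((Scheme.Modules.pushforward i).map ((Scheme.Modules.pullback i).map φ)) U
      (ap (eta i M) U s) = ap (eta i N) U (ap φ U s) := by
  have h1 : φ ≫ eta i N = eta i M ≫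
      (Scheme.Modules.pushforward i).map ((Scheme.Modules.pullback i).map φ) :=
    (Scheme.Modules.pullbackPushforwardAdjunction i).unit.naturality φ
  rw [← ap_comp, ← ap_comp, h1]

/-- isomorphisms are bijective on sections -/
theorem d4_iso {M N : X.Modules} (φ : M ⟶ N) (h : IsIso φ) (U : X.Opens) :
    Bijective (ap φ U) := by
  have h1 : ∀ s, ap (inv φ) U (ap φ U s) = s := fun s => by
    rw [← ap_comp, IsIso.hom_inv_id, ap_id]
  have h2 : ∀ s, ap φ U (ap (inv φ) U s) = s := fun s => by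
    rw [← ap_comp, IsIso.inv_hom_id, ap_id]
  exact ⟨fun s t hst => by rw [← h1 s, hst, h1], fun s => ⟨_, h2 s⟩⟩

/-- the pull-back to the closed subscheme is exact on sheaves killed by the ideal -/
theorem d4_exact (hL0 : St_L0) (hP2 : St_P2) (hD1 : St_D1) [IsNoetherian X] [IsClosedImmersion i]
    (S : ShortComplex X.Modules) (h₁ : IsCoh S.X₁) (h₂ : IsCoh S.X₂) (h₃ : IsCoh S.X₃)
    (hS : S.ShortExact) (hC : d4_C i 1 S.X₂) :
    (S.map (Scheme.Modules.pullback i)).ShortExact := by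
  have hZ : IsLocallyNoetherian Z := LocallyOfFiniteType.isLocallyNoetherian i
  obtain ⟨-, hiso, -, -⟩ := hD1 Z X i
  have hsec := d4_sec (f := S.f) (g := S.g) (w := S.zero) hS h₁.1 h₂.1
  have hC₁ : d4_C i 1 S.X₁ := d4_C_sub i hS.mono_f hC
  have hC₃ : d4_C i 1 S.X₃ := d4_C_quot i (fun U hU => (hsec U hU).2.2) hC
  have hη : ∀ F : X.Modules, IsCoh F → d4_C i 1 F → ∀ U, Bijective (ap (eta i F) U) :=
    fun F hF hCF U => d4_iso _ (hiso F hF fun U hU r hr s =>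
      hCF U hU r (by rw [pow_one]; exact hr) s) U
  have b₁ := hη _ h₁ hC₁
  have b₂ := hη _ h₂ hC
  have b₃ := hη _ h₃ hC₃
  refine (hL0 Z).1 _ (hP2.2.1 _ _ i _ h₁).1 (hP2.2.1 _ _ i _ h₂).1 (hP2.2.1 _ _ i _ h₃).1
    fun z => ?_
  obtain ⟨U, hU, hz, -⟩ := exists_isAffineOpen_mem_and_subset
    (x := i z) (U := (⊤ : X.Opens)) trivial
  obtain ⟨e1, e2, e3⟩ := hsec U hU
  refine ⟨i ⁻¹ᵁ U, hU.preimage i, hz, ?_, ?_, ?_⟩
  · show Injective (ap ((Scheme.Modules.pushforward i).map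
      ((Scheme.Modules.pullback i).map S.f)) U)
    intro x y hxy
    obtain ⟨x, rfl⟩ := (b₁ U).2 x
    obtain ⟨y, rfl⟩ := (b₁ U).2 y
    rw [d4_nat, d4_nat] at hxy
    rw [e1 ((b₂ U).1 hxy)]
  · show ∀ s : Γ(pf i (pb i S.X₂), U), ap ((Scheme.Modules.pushforward i).map
      ((Scheme.Modules.pullback i).map S.g)) U s = 0 ↔
      ∃ t : Γ(pf i (pb i S.X₁), U), ap ((Scheme.Modules.pushforward i).map
      ((Scheme.Modules.pullback i).map S.f)) U t = s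
    intro s
    obtain ⟨s, rfl⟩ := (b₂ U).2 s
    rw [d4_nat]
    constructor
    · intro h0
      have h1 : ap S.g U s = 0 := (b₃ U).1 (by rw [h0, map_zero])
      obtain ⟨t, rfl⟩ := (e2 s).1 h1
      exact ⟨ap (eta i S.X₁) U t, d4_nat i S.f U t⟩
    · rintro ⟨t, ht⟩
      obtain ⟨t, rfl⟩ := (b₁ U).2 t
      rw [d4_nat] at ht
      rw [← (b₂ U).1 ht, (e2 _).2 ⟨t, rfl⟩, map_zero]
  · show Surjective (ap ((Scheme.Modules.pushforward i).map
      ((Scheme.Modules.pullback i).map S.g)) U)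
    intro s
    obtain ⟨s, rfl⟩ := (b₃ U).2 s
    obtain ⟨t, rfl⟩ := e3 s
    exact ⟨ap (eta i S.X₂) U t, d4_nat i S.g U t⟩

end base

/-! ### the devissage function -/

section dev

variable {Z X : Scheme.{0}} (i : Z ⟶ X)

/-- a function which is additive on the sheaves killed by `I ^ m`, and is the class of the pull-back
on the sheaves killed by `I` -/
structure d4_Good (m : ℕ) (χ : ∀ F : X.Modules, IsCoh F → K0 Z) : Prop where
  add : ∀ (S : ShortComplex X.Modules) (h₁ : IsCoh S.X₁) (h₂ : IsCoh S.X₂) (h₃ : IsCoh S.X₃),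
    S.ShortExact → d4_C i m S.X₂ → χ S.X₂ h₂ = χ S.X₁ h₁ + χ S.X₃ h₃
  nrm : ∀ (F : X.Modules) (hF : IsCoh F) (hF' : IsCoh (pb i F)), d4_C i 1 F →
    χ F hF = cl (pb i F) hF'

theorem d4_base (hL0 : St_L0) (hP2 : St_P2) (hD1 : St_D1) [IsNoetherian X] [IsClosedImmersion i]
    (hpb : ∀ F : X.Modules, IsCoh F → IsCoh (pb i F)) :
    d4_Good i 1 fun F hF => cl (pb i F) (hpb F hF) where
  add S h₁ h₂ h₃ hS hC := cl_add (S.map (Scheme.Modules.pullback i))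
    (d4_exact i hL0 hP2 hD1 S h₁ h₂ h₃ hS hC) (hpb _ h₁) (hpb _ h₂) (hpb _ h₃)
  nrm _ _ _ _ := rfl

theorem d4_zero {m : ℕ} {χ : ∀ F : X.Modules, IsCoh F → K0 Z} (hχ : d4_Good i m χ)
    (K : X.Modules) (hK : IsCoh K) (h0 : ∀ U : X.Opens, IsAffineOpen U → ∀ s : Γ(K, U), s = 0) :
    χ K hK = 0 := by
  have h1 : (ShortComplex.mk (0 : K ⟶ K) (0 : K ⟶ K) (by simp)).ShortExact := by
    refine (thm_S1 X).2.2.2.2 _ ?_ ?_ ?_
    · intro U hU s t _
      exact (h0 U hU s).trans (h0 U hU t).symm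
    · intro U hU s _
      exact ⟨0, (h0 U hU _).trans (h0 U hU _).symm⟩
    · intro U hU s
      exact ⟨0, (h0 U hU _).trans (h0 U hU _).symm⟩
  have h2 := hχ.add _ hK hK hK h1 fun U hU r _ s => h0 U hU _
  have h3 : χ K hK = χ K hK + χ K hK := h2
  exact (left_eq_add.1 h3)

/-- the next devissage function -/
theorem d4_step (hL0 : St_L0) (hP2 : St_P2) (hD1 : St_D1) [IsNoetherian X] [IsClosedImmersion i]
    (hpb : ∀ F : X.Modules, IsCoh F → IsCoh (pb i F)) {m : ℕ}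
    {χ : ∀ F : X.Modules, IsCoh F → K0 Z} (hχ : d4_Good i m χ) :
    ∃ χ' : ∀ F : X.Modules, IsCoh F → K0 Z, d4_Good i (m + 1) χ' := by
  have hZ : IsLocallyNoetherian Z := LocallyOfFiniteType.isLocallyNoetherian i
  obtain ⟨-, -, hunit, hker⟩ := hD1 Z X i
  choose K ι w hK hse hinj hI using hker
  have hb := d4_base i hL0 hP2 hD1 hpb
  have hT : ∀ F : X.Modules, IsCoh F → IsCoh (pf i (pb i F)) := fun F hF =>
    coh_pf i _ (hpb F hF)
  have hTT : ∀ (F : X.Modules) (hF : IsCoh F) (h : IsCoh (pb i (pf i (pb i F)))),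
      cl (pb i (pf i (pb i F))) h = cl (pb i F) (hpb F hF) := by
    intro F hF h
    obtain ⟨e⟩ := hunit (pb i F) (hpb F hF)
    exact cl_iso e _ _
  refine ⟨fun F hF => cl (pb i F) (hpb F hF) + χ (K F hF) (hK F hF), ?_, ?_⟩
  · intro S h₁ h₂ h₃ hS hC
    have hS' : (ShortComplex.mk S.f S.g S.zero).ShortExact := hS
    have hnat : ∀ {M N : X.Modules} (φ : M ⟶ N), eta i M ≫
        (Scheme.Modules.pushforward i).map ((Scheme.Modules.pullback i).map φ) =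
          φ ≫ eta i N := fun φ =>
      ((Scheme.Modules.pullbackPushforwardAdjunction i).unit.naturality φ).symm
    obtain ⟨G, R, Q, γ, a, wA, d, σ, wB, e, h, wC, k, wD, cG, cR, cQ, sA, sB, sC, sD⟩ :=
      d4_chase hS' (hse S.X₁ h₁) (hse S.X₂ h₂) (hse S.X₃ h₃) (hnat S.f) (hnat S.g) h₁ h₂ h₃
        (hK _ h₁) (hK _ h₂) (hK _ h₃) (by
          intro U hU s
          have h1 := (hI S.X₃ h₃ U hU _).1 ⟨s, rfl⟩
          have h2 : (⊤ : Submodule Γ(X, U) Γ(S.X₃, U)) =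
              Submodule.map (ap S.g U) (⊤ : Submodule Γ(X, U) Γ(S.X₂, U)) := by
            rw [Submodule.map_top]
            exact (LinearMap.range_eq_top.2 (d4_sec hS' h₁.1 h₂.1 U hU).2.2).symm
          rw [h2, ← Submodule.map_smul''] at h1
          obtain ⟨x, hx, hx'⟩ := h1
          obtain ⟨t, rfl⟩ := (hI S.X₂ h₂ U hU x).2 hx
          exact ⟨t, hx'⟩)
    have cKm : d4_C i m (K S.X₂ h₂) := d4_C_K i (hinj S.X₂ h₂) (hI S.X₂ h₂) hC
    have cGm : d4_C i m G := d4_C_sub i sA.mono_f cKm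
    have cT1 : d4_C i 1 (pf i (pb i S.X₁)) := d4_C_pf i _
    have cT2 : d4_C i 1 (pf i (pb i S.X₂)) := d4_C_pf i _
    have cR1 : d4_C i 1 R := d4_C_sub i sC.mono_f cT1
    have eA := hχ.add _ cG (hK _ h₂) (hK _ h₃) sA cKm
    have eB := hχ.add _ (hK _ h₁) cG cR sB cGm
    have eR := hχ.nrm R cR (hpb _ cR) cR1
    have eC := hb.add _ cR (hT _ h₁) cQ sC cT1
    have eD := hb.add _ cQ (hT _ h₂) (hT _ h₃) sD cT2
    have eC' : cl (pb i S.X₁) (hpb _ h₁) = cl (pb i R) (hpb _ cR) + cl (pb i Q) (hpb _ cQ) := by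
      rw [← hTT S.X₁ h₁ (hpb _ (hT _ h₁))]
      exact eC
    have eD' : cl (pb i S.X₂) (hpb _ h₂) =
        cl (pb i Q) (hpb _ cQ) + cl (pb i S.X₃) (hpb _ h₃) := by
      rw [← hTT S.X₂ h₂ (hpb _ (hT _ h₂)), ← hTT S.X₃ h₃ (hpb _ (hT _ h₃))]
      exact eD
    have eA' : χ (K S.X₂ h₂) (hK _ h₂) = χ G cG + χ (K S.X₃ h₃) (hK _ h₃) := eA
    have eB' : χ G cG = χ (K S.X₁ h₁) (hK _ h₁) + cl (pb i R) (hpb _ cR) := by
      rw [← eR]
      exact eB
    show cl (pb i S.X₂) (hpb _ h₂) + χ (K S.X₂ h₂) (hK _ h₂) =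
      cl (pb i S.X₁) (hpb _ h₁) + χ (K S.X₁ h₁) (hK _ h₁) +
        (cl (pb i S.X₃) (hpb _ h₃) + χ (K S.X₃ h₃) (hK _ h₃))
    rw [eC', eD', eA', eB']
    abel
  · intro F hF hF' hC
    have h0 : χ (K F hF) (hK F hF) = 0 := by
      refine d4_zero i hχ _ _ fun U hU s => hinj F hF U ?_
      have h1 := (hI F hF U hU _).1 ⟨s, rfl⟩
      rw [map_zero]
      generalize ap (ι F hF) U s = x at h1
      induction h1 using Submodule.smul_induction_on' with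
      | smul a ha y hy => exact hC U hU a (by rw [pow_one]; exact ha) y
      | add y hy z hz h1 h2 => rw [h1, h2, add_zero]
    show cl (pb i F) (hpb F hF) + χ (K F hF) (hK F hF) = cl (pb i F) hF'
    rw [h0, add_zero]

/-- devissage functions exist for all powers -/
theorem d4_all (hL0 : St_L0) (hP2 : St_P2) (hD1 : St_D1) [IsNoetherian X] [IsClosedImmersion i]
    (hpb : ∀ F : X.Modules, IsCoh F → IsCoh (pb i F)) (m : ℕ) :
    ∃ χ : ∀ F : X.Modules, IsCoh F → K0 Z, d4_Good i (m + 1) χ := by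
  induction m with
  | zero => exact ⟨_, d4_base i hL0 hP2 hD1 hpb⟩
  | succ m ih =>
    obtain ⟨χ, hχ⟩ := ih
    exact d4_step i hL0 hP2 hD1 hpb hχ

end dev

theorem thm_D4 (hL0 : St_L0) (hP2 : St_P2) (hD1 : St_D1) (hD2 : St_D2) : St_D4 := by
  intro Z X _ i _ hi
  have hZ : IsLocallyNoetherian Z := LocallyOfFiniteType.isLocallyNoetherian i
  have hpb : ∀ F : X.Modules, IsCoh F → IsCoh (pb i F) := fun F hF => hP2.2.1 _ _ i F hF
  obtain ⟨n, hn⟩ := (hD2 Z X i).2 hi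
  obtain ⟨χ, hχ⟩ := d4_all i hL0 hP2 hD1 hpb n
  have hall : ∀ F : X.Modules, d4_C i (n + 1) F := by
    intro F U hU r hr s
    rw [pow_succ, hn U hU, Ideal.bot_mul] at hr
    rw [(Submodule.mem_bot _).1 hr, zero_smul]
  let ρ : K0 X →+ K0 Z := K0lift χ fun S h₁ h₂ h₃ hS => hχ.add S h₁ h₂ h₃ hS (hall _)
  have hρ : ∀ z : K0 Z, ρ (pushK i z) = z := by
    intro z
    have hz : z ∈ AddSubgroup.closure {x : K0 Z | ∃ (M : Z.Modules) (h : IsCoh M), x = cl M h} := by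
      rw [cl_closure]
      exact AddSubgroup.mem_top z
    induction hz using AddSubgroup.closure_induction with
    | mem x hx =>
      obtain ⟨N, hN, rfl⟩ := hx
      rw [pushK_cl]
      show K0lift χ _ _ = _
      rw [K0lift_cl, hχ.nrm _ _ (hpb _ (coh_pf i N hN)) (d4_C_pf i N)]
      obtain ⟨e⟩ := (hD1 Z X i).2.2.1 N hN
      exact cl_iso e _ _
    | zero => rw [map_zero, map_zero]
    | add x y _ _ hx hy => rw [map_add, map_add, hx, hy]
    | neg x _ hx => rw [map_neg, map_neg, hx]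
  intro z z' h
  rw [← hρ z, ← hρ z', h]

end Pool.Agent.KIN
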