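import Pool.Agent.KIN.St

/-!
# KIN [E0]: the push-forward along an open immersion is quasi-coherent
-/

set_option autoImplicit false

noncomputable section

namespace Pool.Agent.KIN

open CategoryTheory AlgebraicGeometry TopologicalSpace Function Pool.Agent.KSS

section qcqs

variable {X : Scheme.{0}}

theorem e0_basic {V W : X.Opens} (h : V ≤ W) (f : Γ(X, W)) :
    X.basicOpen (rO h f) = V ⊓ X.basicOpen f :=
  X.basicOpen_res f (homOfLE h).op

/-- a compact open set is covered by finitely many affine open sets -/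
theorem e0_cover (W : X.Opens) (hW : IsCompact (W : Set X)) :
    ∃ (ι : Type) (_ : Finite ι) (V : ι → X.Opens), (∀ i, IsAffineOpen (V i)) ∧
      (∀ i, V i ≤ W) ∧ W ≤ iSup V := by
  have h1 : ∀ x ∈ (W : Set X), ∃ V : X.Opens, IsAffineOpen V ∧ x ∈ V ∧ V ≤ W := by
    intro x hx
    obtain ⟨V, hV, hxV, hVW⟩ := exists_isAffineOpen_mem_and_subset hx
    exact ⟨V, hV, hxV, hVW⟩
  choose V hV hxV hVW using h1
  obtain ⟨t, ht⟩ := hW.elim_nhds_subcover' (fun x hx => (V x hx : Set X))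
    (fun x hx => (V x hx).isOpen.mem_nhds (hxV x hx))
  refine ⟨t, inferInstance, fun x => V x.1.1 x.1.2, fun x => hV _ _, fun x => hVW _ _, ?_⟩
  intro x hx
  obtain ⟨y, hy, hxy⟩ := Set.mem_iUnion₂.1 (ht hx)
  exact Opens.mem_iSup.2 ⟨⟨y, hy⟩, hxy⟩

theorem e0_sep (M : X.Modules) {ι : Type} (W : X.Opens) (V : ι → X.Opens) (hle : ∀ i, V i ≤ W)
    (hc : W ≤ iSup V) (s t : Γ(M, W)) (h : ∀ i, rM M (hle i) s = rM M (hle i) t) : s = t :=
  TopCat.Sheaf.eq_of_locally_eq' (⟨M.presheaf, M.isSheaf⟩ : TopCat.Sheaf Ab X) V W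
    (fun i => homOfLE (hle i)) hc s t h

theorem e0_glue (M : X.Modules) {ι : Type} (W : X.Opens) (V : ι → X.Opens) (hle : ∀ i, V i ≤ W)
    (hc : W ≤ iSup V) (s : ∀ i, Γ(M, V i))
    (h : ∀ i j, rM M (inf_le_left : V i ⊓ V j ≤ V i) (s i) =
      rM M (inf_le_right : V i ⊓ V j ≤ V j) (s j)) :
    ∃ t : Γ(M, W), ∀ i, rM M (hle i) t = s i :=
  (TopCat.Sheaf.existsUnique_gluing' (⟨M.presheaf, M.isSheaf⟩ : TopCat.Sheaf Ab X) V W
    (fun i => homOfLE (hle i)) hc s h).exists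

/-- sections which vanish on `D(f)` are killed by a power of `f` -/
theorem e0_ann (M : X.Modules) (hM : QLoc M) (W : X.Opens) (hW : IsCompact (W : Set X))
    (f : Γ(X, W)) (t : Γ(M, W)) (ht : rM M (X.basicOpen_le f) t = 0) :
    ∃ n : ℕ, f ^ n • t = 0 := by
  obtain ⟨ι, hι, V, hV, hle, hc⟩ := e0_cover W hW
  have h1 : ∀ i, ∃ n : ℕ, rO (hle i) f ^ n • rM M (hle i) t = 0 := by
    intro i
    refine (hM (V i) (hV i) (rO (hle i) f)).2 (rM M (hle i) t) ?_
    have h2 : X.basicOpen (rO (hle i) f) ≤ X.basicOpen f := by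
      rw [e0_basic]
      exact inf_le_right
    rw [rM_rM, ← rM_rM (X.basicOpen_le f) h2, ht, map_zero]
  choose n hn using h1
  have := Fintype.ofFinite ι
  refine ⟨∑ i, n i, e0_sep M W V hle hc _ _ fun i => ?_⟩
  have h3 : n i ≤ ∑ i, n i := Finset.single_le_sum (fun _ _ => Nat.zero_le _) (Finset.mem_univ i)
  rw [rM_smul, map_pow, map_zero, ← Nat.sub_add_cancel h3, pow_add, mul_smul, hn i, smul_zero]

/-- sections over `D(f)` extend after multiplication with a power of `f` -/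
theorem e0_num (M : X.Modules) (hM : QLoc M) (W : X.Opens)
    (hW : ∀ V : X.Opens, V ≤ W → IsCompact (V : Set X))
    (f : Γ(X, W)) (s : Γ(M, X.basicOpen f)) :
    ∃ (n : ℕ) (t : Γ(M, W)), rM M (X.basicOpen_le f) t = rO (X.basicOpen_le f) f ^ n • s := by
  obtain ⟨ι, hι, V, hV, hle, hc⟩ := e0_cover W (hW W le_rfl)
  have := Fintype.ofFinite ι
  have hb : ∀ i, X.basicOpen (rO (hle i) f) ≤ X.basicOpen f := by
    intro i
    rw [e0_basic]
    exact inf_le_right
  have h1 : ∀ i, ∃ (n : ℕ) (t : Γ(M, V i)), rM M (X.basicOpen_le (rO (hle i) f)) t =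
      rO ((X.basicOpen_le (rO (hle i) f)).trans (hle i)) f ^ n • rM M (hb i) s := by
    intro i
    obtain ⟨n, t, h2⟩ := (hM (V i) (hV i) (rO (hle i) f)).1 (rM M (hb i) s)
    refine ⟨n, t, ?_⟩
    rw [h2, rO_rO]
  choose n t ht using h1
  -- a common exponent
  set N := ∑ i, n i with hN
  have hNi : ∀ i, n i ≤ N := fun i =>
    Finset.single_le_sum (fun _ _ => Nat.zero_le _) (Finset.mem_univ i)
  set t' : ∀ i, Γ(M, V i) := fun i => rO (hle i) f ^ (N - n i) • t i with ht'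
  have h2 : ∀ i, rM M (X.basicOpen_le (rO (hle i) f)) (t' i) =
      rO ((X.basicOpen_le (rO (hle i) f)).trans (hle i)) f ^ N • rM M (hb i) s := by
    intro i
    rw [ht', rM_smul, ht i, map_pow, rO_rO, smul_smul, ← pow_add, Nat.sub_add_cancel (hNi i)]
  clear_value t'
  -- on the intersections
  have h3 : ∀ p : ι × ι, ∃ m : ℕ, rO (inf_le_left.trans (hle p.1) : V p.1 ⊓ V p.2 ≤ W) f ^ m •
      (rM M (inf_le_left : V p.1 ⊓ V p.2 ≤ V p.1) (t' p.1) -
        rM M (inf_le_right : V p.1 ⊓ V p.2 ≤ V p.2) (t' p.2)) = 0 := by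
    rintro ⟨i, j⟩
    refine e0_ann M hM (V i ⊓ V j) (hW _ (inf_le_left.trans (hle i))) _ _ ?_
    have h4 : X.basicOpen (rO (inf_le_left.trans (hle i) : V i ⊓ V j ≤ W) f) ≤
        X.basicOpen (rO (hle i) f) := by
      rw [e0_basic, e0_basic]
      exact inf_le_inf_right _ inf_le_left
    have h5 : X.basicOpen (rO (inf_le_left.trans (hle i) : V i ⊓ V j ≤ W) f) ≤
        X.basicOpen (rO (hle j) f) := by
      rw [e0_basic, e0_basic]
      exact inf_le_inf_right _ inf_le_right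
    rw [map_sub, rM_rM, rM_rM, ← rM_rM (X.basicOpen_le (rO (hle i) f)) h4,
      ← rM_rM (X.basicOpen_le (rO (hle j) f)) h5, h2, h2, rM_smul, rM_smul, rM_rM, rM_rM,
      map_pow, map_pow, rO_rO, rO_rO, sub_self]
  choose m hm using h3
  set K := ∑ p, m p with hK
  have hKp : ∀ p, m p ≤ K := fun p =>
    Finset.single_le_sum (fun _ _ => Nat.zero_le _) (Finset.mem_univ p)
  obtain ⟨u, hu⟩ := e0_glue M W V hle hc (fun i => rO (hle i) f ^ K • t' i) (by
    intro i j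
    have h6 : rO (inf_le_left.trans (hle i) : V i ⊓ V j ≤ W) f ^ K •
      (rM M (inf_le_left : V i ⊓ V j ≤ V i) (t' i) -
        rM M (inf_le_right : V i ⊓ V j ≤ V j) (t' j)) = 0 := by
      rw [← Nat.sub_add_cancel (hKp (i, j)), pow_add, mul_smul]
      have h7 := hm (i, j)
      simp only at h7
      rw [h7, smul_zero]
    rw [smul_sub, sub_eq_zero] at h6
    rw [rM_smul, rM_smul, map_pow, map_pow, rO_rO, rO_rO]
    exact h6)
  refine ⟨K + N, u, ?_⟩
  refine e0_sep M (X.basicOpen f) (fun i => X.basicOpen (rO (hle i) f)) hb ?_ _ _ fun i => ?_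
  · intro x hx
    obtain ⟨i, hi⟩ := Opens.mem_iSup.1 (hc (X.basicOpen_le f hx))
    refine Opens.mem_iSup.2 ⟨i, ?_⟩
    rw [e0_basic]
    exact ⟨hi, hx⟩
  · rw [rM_rM, ← rM_rM (hle i) (X.basicOpen_le (rO (hle i) f)), hu i, rM_smul, h2, rM_smul,
      map_pow, map_pow, rO_rO, rO_rO, smul_smul, ← pow_add]

end qcqs

/-- the open sets over an affine open set of a locally noetherian scheme are compact -/
theorem e0_compact {X U : Scheme.{0}} [IsLocallyNoetherian X] (j : U ⟶ X) [IsOpenImmersion j]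
    (W : X.Opens) (hW : IsAffineOpen W) (V : U.Opens) (hV : V ≤ j ⁻¹ᵁ W) :
    IsCompact (V : Set U) := by
  have h1 : IsNoetherianRing Γ(X, W) := IsLocallyNoetherian.component_noetherian ⟨W, hW⟩
  have h2 := noetherianSpace_of_isAffineOpen W hW
  rw [j.isOpenEmbedding.isInducing.isCompact_iff]
  have h3 : j '' (V : Set U) ⊆ (W : Set X) := by
    rintro _ ⟨x, hx, rfl⟩
    exact hV hx
  have h4 := @NoetherianSpace.isCompact _ _ h2 ((Subtype.val : W → X) ⁻¹' (j '' (V : Set U)))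
  have h5 := h4.image continuous_subtype_val
  rwa [Set.image_preimage_eq_of_subset] at h5
  intro x hx
  exact ⟨⟨x, h3 hx⟩, rfl⟩

theorem e0_annD {X : Scheme.{0}} (M : X.Modules) (hM : QLoc M) (W : X.Opens)
    (hW : IsCompact (W : Set X)) (f : Γ(X, W)) (D : X.Opens) (hD : D = X.basicOpen f)
    (hle : D ≤ W) (t : Γ(M, W)) (ht : rM M hle t = 0) : ∃ n : ℕ, f ^ n • t = 0 := by
  subst hD
  exact e0_ann M hM W hW f t ht

theorem e0_numD {X : Scheme.{0}} (M : X.Modules) (hM : QLoc M) (W : X.Opens)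
    (hW : ∀ V : X.Opens, V ≤ W → IsCompact (V : Set X)) (f : Γ(X, W)) (D : X.Opens)
    (hD : D = X.basicOpen f) (hle : D ≤ W) (s : Γ(M, D)) :
    ∃ (n : ℕ) (t : Γ(M, W)), rM M hle t = rO hle f ^ n • s := by
  subst hD
  exact e0_num M hM W hW f s

theorem thm_E0 : St_E0 := by
  intro X U _ j _ M hM
  have hQ : QLoc M := (thm_S2 U M).1 hM
  refine (thm_S2 X (pf j M)).2 fun W hW f => ?_
  have hb : j ⁻¹ᵁ (X.basicOpen f) = U.basicOpen ((j.app W).hom f) := j.preimage_basicOpen f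
  have hle : j ⁻¹ᵁ (X.basicOpen f) ≤ j ⁻¹ᵁ W := fun x hx => X.basicOpen_le f hx
  have hc := e0_compact j W hW
  have hn : (j.app (X.basicOpen f)).hom (rO (X.basicOpen_le f) f) = rO hle ((j.app W).hom f) :=
    congr($(j.naturality (homOfLE (X.basicOpen_le f)).op) f)
  constructor
  · intro s
    obtain ⟨n, t, h⟩ := e0_numD M hQ (j ⁻¹ᵁ W) hc ((j.app W).hom f) _ hb hle
      (show Γ(M, j ⁻¹ᵁ (X.basicOpen f)) from s)
    refine ⟨n, t, ?_⟩
    rw [← hn, ← map_pow] at h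
    exact h
  · intro t ht
    obtain ⟨n, h⟩ := e0_annD M hQ (j ⁻¹ᵁ W) (hc _ le_rfl) ((j.app W).hom f) _ hb hle
      (show Γ(M, j ⁻¹ᵁ W) from t) ht
    refine ⟨n, ?_⟩
    rw [← map_pow] at h
    exact h

end Pool.Agent.KIN
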