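import Pool.Agent.KIN.St
import Pool.Agent.KSS.All

/-!
# KIN [E1]: coherent sheaves extend from open subschemes
-/

set_option autoImplicit false

noncomputable section

namespace Pool.Agent.KIN

open CategoryTheory AlgebraicGeometry TopologicalSpace Function Pool.Agent.KSS
open Pool.Agent.Helper11

/-! ### the sheaf `j_* (tilde N)` of a module over an affine open subset -/

section spec

variable {R : CommRingCat.{0}} (N : ModuleCat.{0} R)

/-- the map `N → Γ(tilde N, V)` -/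
def e1_tau (V : (Spec R).Opens) : N →+ Γ(tilde N, V) :=
  (tilde.toOpen N V).hom.toAddMonoidHom

theorem e1_tau_smul (V : (Spec R).Opens) (r : R) (n : N) :
    e1_tau N V (r • n) = r • e1_tau N V n := (tilde.toOpen N V).hom.map_smul r n

theorem e1_tau_res {V V' : (Spec R).Opens} (h : V' ≤ V) (n : N) :
    rM (tilde N) h (e1_tau N V n) = e1_tau N V' n := rfl

theorem e1_tau_top : Bijective (e1_tau N ⊤) :=
  ConcreteCategory.bijective_of_isIso (tilde.toOpen N ⊤)

theorem e1_tau_bij {V : (Spec R).Opens} (h : V = ⊤) : Bijective (e1_tau N V) := by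
  subst h
  exact e1_tau_top N

theorem e1_fromT (M : (Spec R).Modules) (V : (Spec R).Opens) (x : Γ(M, ⊤)) :
    ap M.fromTildeΓ V (e1_tau ((modulesSpecToSheaf.obj M).presheaf.obj (.op ⊤)) V x) =
      rM M (le_top : V ≤ ⊤) x :=
  congr($(Scheme.Modules.toOpen_fromTildeΓ_app M V) x)

theorem e1_mapT {N' : ModuleCat.{0} R} (f : N' ⟶ N) (V : (Spec R).Opens) (x : N') :
    ap (tilde.map f) V (e1_tau N' V x) = e1_tau N V (f x) :=
  congr($(tilde.toOpen_map_app f V) x)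

/-- the localization of `N` at `r` -/
theorem e1_tau_loc (r : R) (hr : ∀ n : N, ∃ k : ℕ, r ^ k • n = 0)
    (s : Γ(tilde N, S2_D r)) : s = 0 := by
  obtain ⟨n, t, ht⟩ := ((S2_loc (tilde N)).1 (isLocalizing_tilde N) r).1 s
  obtain ⟨m, rfl⟩ := (e1_tau_top N).2 t
  obtain ⟨k, hk⟩ := hr m
  rw [e1_tau_res] at ht
  have h1 : r ^ k • r ^ n • s = 0 := by
    rw [← ht, ← e1_tau_smul, hk, map_zero]
  have hreg := (tilde N).isSMulRegular_of_le_basicOpen (f := r) (U := S2_D r) le_rfl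
  exact (hreg.pow n).right_eq_zero_of_smul ((hreg.pow k).right_eq_zero_of_smul h1)

/-- vanishing on an open subset of the spectrum -/
theorem e1_tau_van (V : (Spec R).Opens)
    (hV : ∀ r : R, S2_D r ≤ V → ∀ n : N, ∃ k : ℕ, r ^ k • n = 0) (s : Γ(tilde N, V)) : s = 0 := by
  refine TopCat.Sheaf.eq_of_locally_eq' ⟨_, (tilde N).isSheaf⟩
    (fun r : {r : R // S2_D r ≤ V} => S2_D r.1) V (fun r => homOfLE r.2) ?_ _ _ ?_
  · intro x hx
    obtain ⟨_, ⟨_, ⟨r, rfl⟩, rfl⟩, hxr, hrV⟩ :=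
      PrimeSpectrum.isBasis_basic_opens.exists_subset_of_mem_open hx V.2
    exact Opens.mem_iSup.2 ⟨⟨r, hrV⟩, hxr⟩
  · intro r
    have h1 := e1_tau_loc N r.1 (hV r.1 r.2)
    rw [map_zero]
    exact h1 _

end spec

section main

variable {X : Scheme.{0}} {U : X.Opens} (hU : IsAffineOpen U) (N : ModuleCat.{0} Γ(X, U))

/-- the sheaf `j_* (tilde N)` -/
def e1_EE : X.Modules := (Scheme.Modules.pushforward hU.fromSpec).obj (tilde N)

/-- the map `N → Γ(E, U)` -/
def e1_eta : N →ₗ[Γ(X, U)] Γ(e1_EE hU N, U) where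
  toFun n := e1_tau N (hU.fromSpec ⁻¹ᵁ U) n
  map_add' x y := map_add _ x y
  map_smul' r x := by
    rw [e1_tau_smul, RingHom.id_apply]
    have h1 : (Spec Γ(X, U)).presheaf.map (homOfLE (le_top : hU.fromSpec ⁻¹ᵁ U ≤ ⊤)).op
        ((Scheme.ΓSpecIso Γ(X, U)).inv r) = hU.fromSpec.app U r := by
      rw [hU.fromSpec_app_self]
      rfl
    rw [Scheme.Modules.smul_Spec_def]
    change _ = (hU.fromSpec.app U r) • (e1_tau N (hU.fromSpec ⁻¹ᵁ U) x)
    rw [← h1]
    rfl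

theorem e1_eta_bij : Bijective (e1_eta hU N) := e1_tau_bij N hU.fromSpec_preimage_self

/-- the morphism to `E` given by a linear map -/
theorem e1_exists_hom (F : X.Modules) (hF : F.IsQuasicoherent) (h : Γ(F, U) →ₗ[Γ(X, U)] N) :
    ∃ u : F ⟶ e1_EE hU N, ∀ s, ap u U s = e1_eta hU N (h s) := by
  have hq : (F.restrict hU.fromSpec).IsQuasicoherent :=
    Scheme.Modules.isQuasicoherent_restrictFunctor hU.fromSpec F
  let G : (Spec Γ(X, U)).Modules := F.restrict hU.fromSpec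
  have hi : IsIso G.fromTildeΓ := Scheme.Modules.isIso_fromTildeΓ_of_isQuasicoherent G
  let hl : Γ(G, ⊤) →ₗ[Γ(X, U)] N :=
    { toFun := fun x => h (S2_e F hU (S2_top hU) x)
      map_add' := fun x y => by
        have := map_add (S2_e F hU (S2_top hU)) x y
        exact (congrArg h this).trans (map_add h _ _)
      map_smul' := fun r x => by
        have h1 := S2_e_smul F hU (S2_top hU) le_rfl r x
        rw [rO_self] at h1
        exact (congrArg h h1).trans (map_smul h r _) }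
  let h₁ : ModuleCat.of Γ(X, U) Γ(G, ⊤) ⟶ ModuleCat.of Γ(X, U) N := ModuleCat.ofHom hl
  let h' : (modulesSpecToSheaf.obj G).presheaf.obj (.op ⊤) ⟶ N := h₁
  let v : G ⟶ tilde N := inv G.fromTildeΓ ≫ tilde.map h'
  refine ⟨(Scheme.Modules.restrictAdjunction hU.fromSpec).unit.app F ≫
    (Scheme.Modules.pushforward hU.fromSpec).map v, fun s => ?_⟩
  let x : Γ(G, ⊤) := S2_f F hU (S2_top hU) s
  have h1 : ap ((Scheme.Modules.restrictAdjunction hU.fromSpec).unit.app F ≫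
      (Scheme.Modules.pushforward hU.fromSpec).map v) U s =
      ap v (hU.fromSpec ⁻¹ᵁ U) (rM G (le_top : hU.fromSpec ⁻¹ᵁ U ≤ ⊤) x) := by
    have h2 : rM G (le_top : hU.fromSpec ⁻¹ᵁ U ≤ ⊤) x =
        rM F (hU.fromSpec.image_preimage_le U) s :=
      rM_rM (M := F) (S2_top hU).le (Scheme.Hom.image_mono hU.fromSpec le_top) s
    rw [h2]
    rfl
  refine h1.trans ?_
  have h4 : ap v (hU.fromSpec ⁻¹ᵁ U) (rM G (le_top : hU.fromSpec ⁻¹ᵁ U ≤ ⊤) x) =
      ap (tilde.map h') (hU.fromSpec ⁻¹ᵁ U) (e1_tau _ (hU.fromSpec ⁻¹ᵁ U) x) := by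
    rw [← e1_fromT G, ← ap_comp, IsIso.hom_inv_id_assoc]
  refine h4.trans ((e1_mapT N h' (hU.fromSpec ⁻¹ᵁ U) x).trans ?_)
  change e1_tau N (hU.fromSpec ⁻¹ᵁ U) (h (S2_e F hU (S2_top hU) (S2_f F hU (S2_top hU) s))) = _
  rw [S2_ef]
  rfl

end main

/-- `St_S7` without separatedness, for locally noetherian schemes -/
theorem e1_S7 (h0 : St_E0) (X : Scheme.{0}) [IsLocallyNoetherian X] (U : X.Opens)
    (hU : IsAffineOpen U) (N : Type) [AddCommGroup N] [Module Γ(X, U) N] :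
    ∃ (E : X.Modules) (ε : Γ(E, U) ≃ₗ[Γ(X, U)] N), E.IsQuasicoherent ∧
      (∀ F : X.Modules, F.IsQuasicoherent → ∀ h : Γ(F, U) →ₗ[Γ(X, U)] N,
        ∃ u : F ⟶ E, ∀ s, ε (ap u U s) = h s) ∧
      (∀ O : X.Opens, (∀ r : Γ(X, U), X.basicOpen r ≤ O → ∀ n : N, ∃ k : ℕ, r ^ k • n = 0) →
        Van O E) := by
  let N' : ModuleCat.{0} Γ(X, U) := ModuleCat.of Γ(X, U) N
  refine ⟨e1_EE hU N', (LinearEquiv.ofBijective (e1_eta hU N') (e1_eta_bij hU N')).symm,
    ?_, ?_, ?_⟩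
  · exact h0 _ _ hU.fromSpec (tilde N') inferInstance
  · intro F hF h
    obtain ⟨u, hu⟩ := e1_exists_hom hU N' F hF h
    refine ⟨u, fun s => ?_⟩
    rw [LinearEquiv.symm_apply_eq]
    exact hu s
  · intro O hO W hWO hW s
    refine e1_tau_van N' (hU.fromSpec ⁻¹ᵁ W) (fun r hr n => hO r ?_ n) s
    refine le_trans ?_ hWO
    rw [← hU.fromSpec_image_basicOpen]
    exact (Scheme.Hom.image_mono hU.fromSpec hr).trans (hU.fromSpec.image_preimage_le W)

/-! ### the algebra -/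

/-- the function `g` is invertible on `D(g)` -/
theorem e1_unit {X : Scheme.{0}} {U : X.Opens} (g : Γ(X, U)) :
    IsUnit (rO (X.basicOpen_le g) g) :=
  RingedSpace.isUnit_res_basicOpen X.toRingedSpace g

/-- finiteness on basic open subsets -/
theorem e1_fin_basic {X : Scheme.{0}} (F : X.Modules) (hF : QLoc F) {U : X.Opens}
    (hU : IsAffineOpen U) (g : Γ(X, U)) (hf : Module.Finite Γ(X, U) Γ(F, U)) :
    Module.Finite Γ(X, X.basicOpen g) Γ(F, X.basicOpen g) := by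
  obtain ⟨h1, -⟩ := hF U hU g
  obtain ⟨S, hS⟩ := hf.fg_top
  classical
  refine ⟨⟨S.image (rM F (X.basicOpen_le g)), ?_⟩⟩
  rw [eq_top_iff]
  rintro s -
  obtain ⟨n, t, ht⟩ := h1 s
  have h2 : ∀ t ∈ Submodule.span Γ(X, U) (S : Set Γ(F, U)), rM F (X.basicOpen_le g) t ∈
      Submodule.span Γ(X, X.basicOpen g) (S.image (rM F (X.basicOpen_le g)) :
        Set Γ(F, X.basicOpen g)) := by
    intro t ht
    induction ht using Submodule.span_induction with
    | mem x hx =>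
      refine Submodule.subset_span ?_
      rw [Finset.coe_image]
      exact ⟨x, hx, rfl⟩
    | zero => rw [map_zero]; exact zero_mem _
    | add x y _ _ hx hy => rw [map_add]; exact add_mem hx hy
    | smul a x _ hx => rw [rM_smul]; exact Submodule.smul_mem _ _ hx
  have h3 := h2 t (by rw [hS]; trivial)
  rw [ht] at h3
  have h4 : IsUnit (rO (X.basicOpen_le g) g ^ n) := (e1_unit g).pow n
  obtain ⟨c, hc⟩ := h4
  have h5 := Submodule.smul_mem _ (↑c⁻¹ : Γ(X, X.basicOpen g)) h3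
  rw [← hc, smul_smul, Units.inv_mul, one_smul] at h5
  exact h5

/-- functions on `D(g)` -/
theorem e1_fun {X : Scheme.{0}} {U : X.Opens} (hU : IsAffineOpen U) (g : Γ(X, U))
    (c : Γ(X, X.basicOpen g)) : ∃ (m : ℕ) (b : Γ(X, U)),
      rO (X.basicOpen_le g) b = rO (X.basicOpen_le g) g ^ m * c := by
  have h := hU.isLocalization_basicOpen g
  obtain ⟨n, a, ha⟩ := IsLocalization.Away.surj g c
  refine ⟨n, a, ?_⟩
  rw [mul_comm]
  exact ha.symm

/-- a finitely generated submodule which is everything over `D(g)` -/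
theorem e1_sub {X : Scheme.{0}} (F : X.Modules) (hF : QLoc F) {U : X.Opens}
    (hU : IsAffineOpen U) (g : Γ(X, U))
    (hf : Module.Finite Γ(X, X.basicOpen g) Γ(F, X.basicOpen g)) :
    ∃ N : Submodule Γ(X, U) Γ(F, U), N.FG ∧ ∀ n : Γ(F, U), ∃ k : ℕ, g ^ k • n ∈ N := by
  classical
  obtain ⟨h1, h2⟩ := hF U hU g
  obtain ⟨S, hS⟩ := hf.fg_top
  choose e t ht using h1
  refine ⟨Submodule.span Γ(X, U) (S.image t), ⟨S.image t, rfl⟩, fun n => ?_⟩
  have key : ∀ s ∈ Submodule.span Γ(X, X.basicOpen g) (S : Set Γ(F, X.basicOpen g)),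
      ∃ k : ℕ, ∃ y ∈ Submodule.span Γ(X, U) (S.image t : Set Γ(F, U)),
        rM F (X.basicOpen_le g) y = rO (X.basicOpen_le g) g ^ k • s := by
    intro s hs
    induction hs using Submodule.span_induction with
    | mem x hx =>
      refine ⟨e x, t x, Submodule.subset_span ?_, ht x⟩
      rw [Finset.coe_image]
      exact ⟨x, hx, rfl⟩
    | zero => exact ⟨0, 0, zero_mem _, by rw [map_zero, smul_zero]⟩
    | add x y _ _ hx hy =>
      obtain ⟨k, a, ha, hax⟩ := hx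
      obtain ⟨l, b, hb, hby⟩ := hy
      refine ⟨k + l, g ^ l • a + g ^ k • b, add_mem (Submodule.smul_mem _ _ ha)
        (Submodule.smul_mem _ _ hb), ?_⟩
      rw [map_add, rM_smul, rM_smul, hax, hby, map_pow, map_pow, smul_smul, smul_smul,
        smul_add, pow_add]
      rw [mul_comm (rO (X.basicOpen_le g) g ^ l)]
    | smul c x _ hx =>
      obtain ⟨k, a, ha, hax⟩ := hx
      obtain ⟨m, b, hb⟩ := e1_fun hU g c
      refine ⟨m + k, b • a, Submodule.smul_mem _ _ ha, ?_⟩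
      rw [rM_smul, hb, hax, smul_smul, smul_smul, pow_add]
      congr 1
      ring
  obtain ⟨k, y, hy, hyn⟩ := key (rM F (X.basicOpen_le g) n) (by rw [hS]; trivial)
  rw [← map_pow, ← rM_smul, ← sub_eq_zero, ← map_sub] at hyn
  obtain ⟨j, hj⟩ := h2 _ hyn
  refine ⟨j + k, ?_⟩
  rw [smul_sub, sub_eq_zero, smul_smul, ← pow_add] at hj
  rw [← hj]
  exact Submodule.smul_mem _ _ hy

/-- radicals on affine open subsets -/
theorem e1_rad {X : Scheme.{0}} {V : X.Opens} (hV : IsAffineOpen V) (O : X.Opens)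
    (G : Set Γ(X, V)) (hG : ∀ x ∈ V, x ∈ O → ∃ g ∈ G, x ∈ X.basicOpen g) (r : Γ(X, V))
    (hr : X.basicOpen r ≤ O) : r ∈ (Ideal.span G).radical := by
  rw [Ideal.radical_eq_sInf, Ideal.mem_sInf]
  rintro p ⟨hp, hpp⟩
  by_contra hrp
  let q : PrimeSpectrum Γ(X, V) := ⟨p, hpp⟩
  have hq : ∀ a : Γ(X, V), hV.fromSpec q ∈ X.basicOpen a ↔ a ∉ p := by
    intro a
    have h1 := hV.fromSpec_preimage_basicOpen a
    have h2 : q ∈ hV.fromSpec ⁻¹ᵁ X.basicOpen a ↔ q ∈ PrimeSpectrum.basicOpen a := by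
      rw [h1]
      exact Iff.rfl
    exact h2
  have hx : hV.fromSpec q ∈ X.basicOpen r := (hq r).2 hrp
  obtain ⟨g, hg, hxg⟩ := hG _ (X.basicOpen_le r hx) (hr hx)
  exact (hq g).1 hxg (hp (Ideal.subset_span hg))

/-- the submodule for the step of the induction -/
theorem e1_alg {A N : Type} [CommRing A] [IsNoetherianRing A] [AddCommGroup N] [Module A N]
    (G : Set A) (hG : ∀ g ∈ G, ∃ M : Submodule A N, M.FG ∧ ∀ n : N, ∃ k : ℕ, g ^ k • n ∈ M) :
    ∃ M : Submodule A N, M.FG ∧ ∀ r ∈ (Ideal.span G).radical, ∀ n : N, ∃ k : ℕ,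
      r ^ k • n ∈ M := by
  classical
  have hfg : (Ideal.span G).FG := IsNoetherian.noetherian _
  obtain ⟨T, hTG, hT⟩ := Submodule.fg_span_iff_fg_span_finset_subset G |>.1 hfg
  choose! M hMfg hM using hG
  refine ⟨⨆ g ∈ T, M g, Submodule.fg_biSup T _ fun g hg => hMfg g (hTG hg), fun r hr n => ?_⟩
  let I : Ideal A := ((⨆ g ∈ T, M g).comap (LinearMap.toSpanSingleton A N n))
  have h1 : Ideal.span G ≤ I.radical := by
    have h2 : Ideal.span G = Ideal.span (T : Set A) := hT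
    rw [h2, Ideal.span_le]
    intro g hg
    obtain ⟨k, hk⟩ := hM g (hTG hg) n
    refine ⟨k, ?_⟩
    show g ^ k • n ∈ ⨆ g ∈ T, M g
    exact (le_biSup M hg) hk
  obtain ⟨k, hk⟩ := (Ideal.radical_le_radical_iff.2 h1) hr
  exact ⟨k, hk⟩

/-! ### the induction -/

/-- the statement of the induction: there is a subsheaf of `E`, equal to `E` on `R` and
locally finitely generated on `O` -/
def e1_P {X : Scheme.{0}} (E : X.Modules) (R O : X.Opens) : Prop :=
  ∃ (F : X.Modules) (u : F ⟶ E), F.IsQuasicoherent ∧ (∀ W : X.Opens, Injective (ap u W)) ∧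
    (∀ W : X.Opens, IsAffineOpen W → W ≤ R → Bijective (ap u W)) ∧
    ∀ y ∈ O, ∃ W : X.Opens, IsAffineOpen W ∧ y ∈ W ∧ W ≤ O ∧ Module.Finite Γ(X, W) Γ(F, W)

theorem e1_step (h0 : St_E0) {X : Scheme.{0}} [IsLocallyNoetherian X] (E : X.Modules)
    (R O V : X.Opens) (hRO : R ≤ O) (hP : e1_P E R O) (hV : IsAffineOpen V) :
    e1_P E R (O ⊔ V) := by
  obtain ⟨F, u, hF, hinj, hbij, hfin⟩ := hP
  have hFL : QLoc F := (thm_S2 X F).1 hF
  have : IsNoetherianRing Γ(X, V) := IsLocallyNoetherian.component_noetherian ⟨V, hV⟩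
  let G : Set Γ(X, V) := {g | X.basicOpen g ≤ O ∧
    Module.Finite Γ(X, X.basicOpen g) Γ(F, X.basicOpen g)}
  have hG1 : ∀ x ∈ V, x ∈ O → ∃ g ∈ G, x ∈ X.basicOpen g := by
    intro x hxV hxO
    obtain ⟨W, hW, hxW, hWO, hWf⟩ := hfin x hxO
    obtain ⟨f, g, hfg, hxf⟩ := exists_basicOpen_le_affine_inter hV hW x ⟨hxV, hxW⟩
    refine ⟨f, ⟨?_, ?_⟩, hxf⟩
    · rw [hfg]
      exact (X.basicOpen_le g).trans hWO
    · rw [hfg]
      exact e1_fin_basic F hFL hW g hWf
  have hG2 : ∀ g ∈ G, ∃ M : Submodule Γ(X, V) Γ(F, V), M.FG ∧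
      ∀ n : Γ(F, V), ∃ k : ℕ, g ^ k • n ∈ M := fun g hg => e1_sub F hFL hV g hg.2
  obtain ⟨N₀, hN₀, hN⟩ := e1_alg G hG2
  obtain ⟨Q, ε, hQ, hext, hvan⟩ := e1_S7 h0 X V hV (Γ(F, V) ⧸ N₀)
  obtain ⟨w, hw⟩ := hext F hF N₀.mkQ
  have hvO : Van O Q := by
    refine hvan O fun r hr n => ?_
    obtain ⟨n, rfl⟩ := N₀.mkQ_surjective n
    obtain ⟨k, hk⟩ := hN r (e1_rad hV O G hG1 r hr) n
    refine ⟨k, ?_⟩
    rw [← map_smul]
    exact (Submodule.Quotient.mk_eq_zero N₀).2 hk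
  have hι : ∀ W : X.Opens, Injective (ap (Limits.kernel.ι w) W) :=
    (thm_S1 X).1 _ _ _ inferInstance
  have hker : ∀ (W : X.Opens) (s : Γ(F, W)), ap w W s = 0 →
      ∃ t, ap (Limits.kernel.ι w) W t = s := by
    intro W s hs
    have he : (ShortComplex.mk (Limits.kernel.ι w) w (Limits.kernel.condition w)).Exact :=
      ShortComplex.exact_of_f_is_kernel _ (Limits.kernelIsKernel w)
    exact (thm_S1 X).2.1 _ he inferInstance W s hs
  have hz : ∀ (W : X.Opens) (t), ap w W (ap (Limits.kernel.ι w) W t) = 0 := by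
    intro W t
    rw [← ap_comp, Limits.kernel.condition, ap_zero]
  have hO : ∀ W : X.Opens, W ≤ O → Bijective (ap (Limits.kernel.ι w) W) := fun W hW =>
    ⟨hι W, fun s => hker W s ((thm_S1 X).2.2.2.1 Q O hvO W hW _)⟩
  refine ⟨Limits.kernel w, Limits.kernel.ι w ≫ u,
    (thm_S2 X _).2 (S4.qloc_ker thm_S1 w hFL ((thm_S2 X Q).1 hQ)), fun W a b hab => ?_,
    fun W hW hWR => ?_, fun y hy => ?_⟩
  · exact hι W (hinj W hab)
  · exact (hbij W hW hWR).comp (hO W (hWR.trans hRO))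
  · by_cases hyO : y ∈ O
    · obtain ⟨W, hW, hyW, hWO, hWf⟩ := hfin y hyO
      exact ⟨W, hW, hyW, hWO.trans le_sup_left, Module.Finite.equiv
        (LinearEquiv.ofBijective (ap (Limits.kernel.ι w) W) (hO W hWO)).symm⟩
    · have hyV : y ∈ V := by
        rcases hy with hy | hy
        · exact absurd hy hyO
        · exact hy
      refine ⟨V, hV, hyV, le_sup_right, ?_⟩
      have : Module.Finite Γ(X, V) N₀ := Module.Finite.iff_fg.2 hN₀
      let l : Γ(Limits.kernel w, V) →ₗ[Γ(X, V)] N₀ :=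
        (ap (Limits.kernel.ι w) V).codRestrict N₀ fun t => by
          have h1 : ε (ap w V (ap (Limits.kernel.ι w) V t)) = 0 := by rw [hz, map_zero]
          rw [hw] at h1
          exact (Submodule.Quotient.mk_eq_zero N₀).1 h1
      refine Module.Finite.of_injective l fun a b hab => hι V ?_
      exact congrArg Subtype.val hab

theorem e1_base (h0 : St_E0) {X U : Scheme.{0}} [IsLocallyNoetherian X] (j : U ⟶ X)
    [IsOpenImmersion j] (M : U.Modules) (hM : IsCoh M) : e1_P (pf j M) j.opensRange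
      j.opensRange := by
  refine ⟨pf j M, 𝟙 _, h0 X U j M hM.1, fun W => ?_, fun W _ _ => ?_, fun y hy => ?_⟩
  · exact fun a b hab => hab
  · exact ⟨fun a b hab => hab, fun s => ⟨s, rfl⟩⟩
  · obtain ⟨W, hW, hyW, hWj⟩ := exists_isAffineOpen_mem_and_subset hy
    refine ⟨W, hW, hyW, hWj, ?_⟩
    have hW' : IsAffineOpen (j ⁻¹ᵁ W) := hW.preimage_of_isOpenImmersion j hWj
    refine S6_fin j M W ?_ (hM.2 _ hW')
    refine RingHom.Finite.of_surjective _ ?_
    have : IsIso (j.app W) := j.isIso_app W hWj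
    exact (ConcreteCategory.bijective_of_isIso (j.app W)).2

/-- Coherent sheaves extend from open subschemes. -/
theorem thm_E1 (hL : St_L0) (h0 : St_E0) : St_E1 := by
  intro X U _ j _ M hM
  have key : ∀ S : X.Opens, IsCompact (S : Set X) → e1_P (pf j M) j.opensRange
      (j.opensRange ⊔ S) := by
    intro S hS
    refine compact_open_induction_on (P := fun S => e1_P (pf j M) j.opensRange
      (j.opensRange ⊔ S)) S hS ?_ ?_
    · rw [sup_bot_eq]
      exact e1_base h0 j M hM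
    · intro S _ V hP
      have h1 := e1_step h0 (pf j M) _ _ V.1 le_sup_left hP V.2
      rw [sup_assoc] at h1
      exact h1
  obtain ⟨F, u, hF, hinj, hbij, hfin⟩ := key ⊤ isCompact_univ
  refine ⟨F, u, (hL X).2.2.2 F hF fun y => ?_, hinj, hbij⟩
  obtain ⟨V, hV, hyV, -, hVf⟩ := hfin y (Or.inr trivial)
  exact ⟨V, hV, hyV, hVf⟩

end Pool.Agent.KIN
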