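import Pool.Agent.KIN.St
import Pool.Agent.KSS.All

/-!
# KIN, module E2: the kernel of the restriction to an open subscheme
-/

set_option autoImplicit false

noncomputable section

namespace Pool.Agent.KIN

open CategoryTheory AlgebraicGeometry TopologicalSpace Function Pool.Agent.KSS

/-- a morphism of coherent sheaves which is bijective over the affine opens contained in `O`
has kernel and cokernel vanishing on `O` -/
theorem e2_bij {X : Scheme.{0}} [IsLocallyNoetherian X] (O : X.Opens) (P F : X.Modules)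
    (hP : IsCoh P) (hF : IsCoh F) (u : P ⟶ F)
    (hu : ∀ W : X.Opens, IsAffineOpen W → W ≤ O → Bijective (ap u W)) :
    cl P hP - cl F hF ∈ SO O := by
  obtain ⟨K, I, ι, π, κ, w, hK, hI, hS, hπκ, hκ, hπ, hι, hker⟩ := (all_S4 X).1 P F u hP hF.1
  obtain ⟨C, ρ, w', hC, hS', hρ, hker'⟩ := (all_S4 X).2.1 I F κ hI hF hκ
  have e1 : cl P hP = cl K hK + cl I hI := cl_add _ hS hK hP hI
  have e2 : cl F hF = cl I hI + cl C hC := cl_add _ hS' hI hF hC
  have hKO : Van O K := by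
    intro W hW ha s
    refine hι W ((hu W ha hW).1 ?_)
    rw [(hker W _).2 ⟨s, rfl⟩, map_zero, map_zero]
  have hCO : Van O C := by
    intro W hW ha s
    obtain ⟨t, rfl⟩ := hρ W ha s
    obtain ⟨r, rfl⟩ := (hu W ha hW).2 t
    refine (hker' W _).2 ⟨ap π W r, ?_⟩
    rw [← ap_comp, hπκ]
  have hKS : cl K hK ∈ SO O := AddSubgroup.subset_closure ⟨K, hK, hKO, rfl⟩
  have hCS : cl C hC ∈ SO O := AddSubgroup.subset_closure ⟨C, hC, hCO, rfl⟩
  have e3 : cl P hP - cl F hF = cl K hK - cl C hC := by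
    rw [e1, e2]
    abel
  rw [e3]
  exact sub_mem hKS hCS

/-- `F` is an extension to `X` of the sheaf `M` on the open subscheme `U` -/
def e2_Ext {X U : Scheme.{0}} (j : U ⟶ X) [IsOpenImmersion j] (M : U.Modules)
    (F : X.Modules) : Prop :=
  ∃ u : F ⟶ pf j M, ∀ W : X.Opens, IsAffineOpen W → W ≤ j.opensRange → Bijective (ap u W)

/-- the class of an extension is well defined -/
theorem e2_wd (h0 : St_E0) {X U : Scheme.{0}} [IsNoetherian X] (j : U ⟶ X) [IsOpenImmersion j]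
    (M : U.Modules) (hM : IsCoh M) (F F' : X.Modules) (hF : IsCoh F) (hF' : IsCoh F')
    (hE : e2_Ext j M F) (hE' : e2_Ext j M F') : cl F hF - cl F' hF' ∈ SO j.opensRange := by
  obtain ⟨u, hu⟩ := hE
  obtain ⟨u', hu'⟩ := hE'
  obtain ⟨P, a, b, hP, hab, hinj, hsurj⟩ :=
    (all_S4 X).2.2 F F' (pf j M) u u' hF hF' (h0 X U j M hM.1)
  have huab : ∀ (W : X.Opens) (s : Γ(P, W)), ap u W (ap a W s) = ap u' W (ap b W s) := by
    intro W s
    rw [← ap_comp, ← ap_comp, hab]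
  have e1 := e2_bij j.opensRange P F hP hF a (fun W ha hW => by
    constructor
    · intro s t hst
      refine hinj W s t hst ((hu' W ha hW).1 ?_)
      rw [← huab, ← huab, hst]
    · intro s
      obtain ⟨s', hs'⟩ := (hu' W ha hW).2 (ap u W s)
      obtain ⟨t, ht, -⟩ := hsurj W s s' hs'.symm
      exact ⟨t, ht⟩)
  have e2 := e2_bij j.opensRange P F' hP hF' b (fun W ha hW => by
    constructor
    · intro s t hst
      refine hinj W s t ((hu W ha hW).1 ?_) hst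
      rw [huab, huab, hst]
    · intro s
      obtain ⟨s', hs'⟩ := (hu W ha hW).2 (ap u' W s)
      obtain ⟨t, -, ht⟩ := hsurj W s' s hs'
      exact ⟨t, ht⟩)
  have e3 : cl F hF - cl F' hF' = (cl P hP - cl F' hF') - (cl P hP - cl F hF) := by abel
  rw [e3]
  exact sub_mem e2 e1

/-- extensions of short exact sequences -/
theorem e2_add (h0 : St_E0) {X U : Scheme.{0}} [IsNoetherian X] (j : U ⟶ X) [IsOpenImmersion j]
    (S : ShortComplex U.Modules) (hS : S.ShortExact) (h₁ : IsCoh S.X₁) (h₂ : IsCoh S.X₂)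
    (h₃ : IsCoh S.X₃) (F : X.Modules) (hF : IsCoh F) (hE : e2_Ext j S.X₂ F) :
    ∃ (K I : X.Modules) (hK : IsCoh K) (hI : IsCoh I), e2_Ext j S.X₁ K ∧ e2_Ext j S.X₃ I ∧
      cl F hF = cl K hK + cl I hI := by
  obtain ⟨u, hu⟩ := hE
  have hgm : ∀ (W : X.Opens) (s : Γ(S.X₂, j ⁻¹ᵁ W)),
      ap ((Scheme.Modules.pushforward j).map S.g) W s = ap S.g (j ⁻¹ᵁ W) s := fun _ _ => rfl
  have hfm : ∀ (W : X.Opens) (s : Γ(S.X₁, j ⁻¹ᵁ W)),
      ap ((Scheme.Modules.pushforward j).map S.f) W s = ap S.f (j ⁻¹ᵁ W) s := fun _ _ => rfl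
  obtain ⟨K, I, ι, π, κ, w, hK, hI, hex, hπκ, hκ, hπ, hι, hker⟩ :=
    (all_S4 X).1 F (pf j S.X₃) (u ≫ (Scheme.Modules.pushforward j).map S.g) hF
      (h0 X U j S.X₃ h₃.1)
  have hmono : Mono S.f := hS.mono_f
  have hsf := fun W => (thm_S1 U).1 _ _ S.f hS.mono_f W
  have hex' : (S.map (Scheme.Modules.pushforward j)).Exact :=
    hS.exact.map_of_mono_of_preservesKernel (Scheme.Modules.pushforward j) hS.mono_f inferInstance
  have hmono' : Mono (S.map (Scheme.Modules.pushforward j)).f := by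
    show Mono ((Scheme.Modules.pushforward j).map S.f)
    infer_instance
  have hz : (ι ≫ u) ≫ (S.map (Scheme.Modules.pushforward j)).g = 0 := by
    refine hom_ext_ap fun W s => ?_
    exact (hker W _).2 ⟨s, rfl⟩
  obtain ⟨k, hk⟩ : ∃ k : K ⟶ pf j S.X₁, k ≫ (Scheme.Modules.pushforward j).map S.f = ι ≫ u :=
    ⟨hex'.lift (ι ≫ u) hz, hex'.lift_f (ι ≫ u) hz⟩
  have hk' : ∀ (W : X.Opens) (s : Γ(K, W)),
      ap ((Scheme.Modules.pushforward j).map S.f) W (ap k W s) = ap u W (ap ι W s) := by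
    intro W s
    rw [← ap_comp, ← ap_comp, hk]
  refine ⟨K, I, hK, hI, ⟨k, fun W ha hW => ⟨fun s t hst => ?_, fun t => ?_⟩⟩,
    ⟨κ, fun W ha hW => ⟨hκ W, fun s => ?_⟩⟩, cl_add (ShortComplex.mk ι π w) hex hK hF hI⟩
  · refine hι W ((hu W ha hW).1 ?_)
    rw [← hk', ← hk', hst]
  · obtain ⟨r, hr⟩ := (hu W ha hW).2 (ap ((Scheme.Modules.pushforward j).map S.f) W t)
    have hr0 : ap (u ≫ (Scheme.Modules.pushforward j).map S.g) W r = 0 := by
      rw [ap_comp, hr, ← ap_comp, ← Functor.map_comp, S.zero, Functor.map_zero]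
      rfl
    obtain ⟨s, hs⟩ := (hker W r).1 hr0
    refine ⟨s, hsf (j ⁻¹ᵁ W) ?_⟩
    rw [← hfm, ← hfm]
    exact (hk' W s).trans ((congrArg (ap u W) hs).trans hr)
  · have haff : IsAffineOpen (j ⁻¹ᵁ W) := ha.preimage_of_isOpenImmersion j hW
    obtain ⟨t, ht⟩ := (all_S3 U S hS h₁.1 h₂.1).2 (j ⁻¹ᵁ W) haff s
    obtain ⟨r, hr⟩ := (hu W ha hW).2 t
    refine ⟨ap π W r, ?_⟩
    rw [← ap_comp, hπκ, ap_comp, hr]
    exact ht

/-- the homomorphism to the quotient -/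
theorem e2_psi (h0 : St_E0) (h1 : St_E1) {X U : Scheme.{0}} [IsNoetherian X] (j : U ⟶ X)
    [IsOpenImmersion j] : ∃ ψ : K0 U →+ K0 X ⧸ SO j.opensRange, ∀ (M : U.Modules) (hM : IsCoh M)
      (F : X.Modules) (hF : IsCoh F), e2_Ext j M F →
        ψ (cl M hM) = QuotientAddGroup.mk (cl F hF) := by
  have hex : ∀ (M : U.Modules) (_ : IsCoh M), ∃ F : X.Modules, IsCoh F ∧ e2_Ext j M F := by
    intro M hM
    obtain ⟨F, u, hF, -, hu⟩ := h1 X U j M hM
    exact ⟨F, hF, u, hu⟩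
  choose F hF hE using hex
  have hwd : ∀ (M : U.Modules) (hM : IsCoh M) (F' : X.Modules) (hF' : IsCoh F'), e2_Ext j M F' →
      (QuotientAddGroup.mk (cl (F M hM) (hF M hM)) : K0 X ⧸ SO j.opensRange) =
        QuotientAddGroup.mk (cl F' hF') := by
    intro M hM F' hF' hE'
    have h := e2_wd h0 j M hM F' (F M hM) hF' (hF M hM) hE' (hE M hM)
    rw [QuotientAddGroup.eq]
    have h5 : -cl (F M hM) (hF M hM) + cl F' hF' = cl F' hF' - cl (F M hM) (hF M hM) := by abel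
    rw [h5]
    exact h
  refine ⟨K0lift (fun M hM => QuotientAddGroup.mk (cl (F M hM) (hF M hM))) ?_,
    fun M hM F' hF' hE' => ?_⟩
  · intro S h₁ h₂ h₃ hS
    obtain ⟨K, I, hK, hI, hEK, hEI, hadd⟩ :=
      e2_add h0 j S hS h₁ h₂ h₃ (F S.X₂ h₂) (hF S.X₂ h₂) (hE S.X₂ h₂)
    show (QuotientAddGroup.mk (cl (F S.X₂ h₂) (hF S.X₂ h₂)) : K0 X ⧸ SO j.opensRange) = _
    rw [hadd, QuotientAddGroup.mk_add, ← hwd S.X₁ h₁ K hK hEK, ← hwd S.X₃ h₃ I hI hEI]
  · rw [K0lift_cl]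
    exact hwd M hM F' hF' hE'

/-- a coherent sheaf extends its restriction -/
theorem e2_self (h2 : St_P2) {X U : Scheme.{0}} (j : U ⟶ X) [IsOpenImmersion j]
    (G : X.Modules) (hG : IsCoh G) : e2_Ext j (pb j G) G := by
  refine ⟨eta j G, fun W ha hW => ?_⟩
  have h := h2.2.2.2 X U j G hG.1 W ha hW
  have he : ∀ s : Γ(G, W), es j G W (j ⁻¹ᵁ W) le_rfl s = ap (eta j G) W s := fun s =>
    rM_self _ _
  constructor
  · intro s t hst
    apply h.1
    rw [he, he]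
    exact hst
  · intro t
    obtain ⟨s, hs⟩ := h.2 t
    exact ⟨s, (he s).symm.trans hs⟩

/-- **E2** -/
theorem thm_E2 (h0 : St_E0) (h1 : St_E1) (h2 : St_P2) : St_E2 := by
  intro X U _ j _ x hx
  obtain ⟨ψ, hψ⟩ := e2_psi h0 h1 j
  have : IsLocallyNoetherian U := isLocallyNoetherian_of_isOpenImmersion j
  have key : ψ.comp (pullK j) = QuotientAddGroup.mk' (SO j.opensRange) := by
    refine AddMonoidHom.eq_of_eqOn_dense (cl_closure X) ?_
    rintro _ ⟨G, hG, rfl⟩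
    have hG' : IsCoh (pb j G) := h2.2.1 X U j G hG
    show ψ (pullK j (cl G hG)) = _
    rw [h2.2.2.1 X U j G hG hG', hψ (pb j G) hG' G hG (e2_self h2 j G hG)]
    rfl
  have h3 : (QuotientAddGroup.mk x : K0 X ⧸ SO j.opensRange) = 0 := by
    have h4 := DFunLike.congr_fun key x
    have h5 : ψ (pullK j x) = QuotientAddGroup.mk x := h4
    rw [← h5, hx, map_zero]
  exact (QuotientAddGroup.eq_zero_iff x).1 h3

end Pool.Agent.KIN
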