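import Pool.Agent.KIN.St

/-!
# KIN: the group of coherent sheaves is a theory (helper52)
-/

set_option autoImplicit false

noncomputable section

namespace Pool.Agent.KIN

open CategoryTheory AlgebraicGeometry TopologicalSpace Function Pool.Agent.KSS

/-- two homomorphisms which agree on classes agree -/
theorem fin_ext {X : Scheme.{0}} {G : Type*} [AddCommGroup G] (a b : K0 X →+ G)
    (h : ∀ (M : X.Modules) (hM : IsCoh M), a (cl M hM) = b (cl M hM)) (x : K0 X) : a x = b x := by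
  have h1 : (⊤ : AddSubgroup (K0 X)) ≤ a.eqLocus b := by
    rw [← cl_closure X, AddSubgroup.closure_le]
    rintro _ ⟨M, hM, rfl⟩
    exact h M hM
  exact h1 (AddSubgroup.mem_top x)

theorem fin_pull_id (hP2 : St_P2) (X : Scheme.{0}) [IsNoetherian X] (x : K0 X) :
    pullK (𝟙 X) x = x := by
  refine fin_ext (pullK (𝟙 X)) (AddMonoidHom.id (K0 X)) (fun M hM => ?_) x
  have h1 : IsCoh (pb (𝟙 X) M) := hP2.2.1 X X (𝟙 X) M hM
  rw [hP2.2.2.1 X X (𝟙 X) M hM h1]
  exact cl_iso ((Scheme.Modules.pullbackId X).app M) h1 hM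

theorem fin_pull_comp (hP2 : St_P2) {X Y Z : Scheme.{0}} [IsNoetherian X] [IsNoetherian Y]
    [IsNoetherian Z] (f : X ⟶ Y) (g : Y ⟶ Z) [Flat f] [Flat g] (x : K0 Z) :
    pullK (f ≫ g) x = pullK f (pullK g x) := by
  refine fin_ext (pullK (f ≫ g)) ((pullK f).comp (pullK g)) (fun M hM => ?_) x
  have h1 : IsCoh (pb (f ≫ g) M) := hP2.2.1 Z X (f ≫ g) M hM
  have h2 : IsCoh (pb g M) := hP2.2.1 Z Y g M hM
  have h3 : IsCoh (pb f (pb g M)) := hP2.2.1 Y X f _ h2
  rw [hP2.2.2.1 Z X (f ≫ g) M hM h1, AddMonoidHom.comp_apply, hP2.2.2.1 Z Y g M hM h2,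
    hP2.2.2.1 Y X f _ h2 h3]
  exact (cl_iso ((Scheme.Modules.pullbackComp f g).app M) h3 h1).symm

theorem fin_push_id (X : Scheme.{0}) (x : K0 X) : pushK (𝟙 X) x = x := by
  refine fin_ext (pushK (𝟙 X)) (AddMonoidHom.id (K0 X)) (fun M hM => ?_) x
  rw [pushK_cl]
  exact cl_iso ((Scheme.Modules.pushforwardId X).app M) _ hM

theorem fin_push_comp {X Y Z : Scheme.{0}} (f : X ⟶ Y) (g : Y ⟶ Z) [IsFinite f] [IsFinite g]
    (x : K0 X) : pushK (f ≫ g) x = pushK g (pushK f x) := by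
  refine fin_ext (pushK (f ≫ g)) ((pushK g).comp (pushK f)) (fun M hM => ?_) x
  rw [AddMonoidHom.comp_apply, pushK_cl, pushK_cl, pushK_cl]
  exact (cl_iso ((Scheme.Modules.pushforwardComp f g).app M) _ _).symm

theorem fin_bc (hP2 : St_P2) (hP4 : St_P4) {X' X Y' Y : Scheme.{0}} [IsNoetherian Y]
    [IsNoetherian Y'] (g' : X' ⟶ X) (f' : X' ⟶ Y') (f : X ⟶ Y) (g : Y' ⟶ Y) [Flat g]
    [IsFinite f] [Flat g'] [IsFinite f'] (h : IsPullback g' f' f g) (x : K0 X) :
    pullK g (pushK f x) = pushK f' (pullK g' x) := by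
  have : IsLocallyNoetherian X := LocallyOfFiniteType.isLocallyNoetherian f
  have : IsLocallyNoetherian X' := LocallyOfFiniteType.isLocallyNoetherian f'
  refine fin_ext ((pullK g).comp (pushK f)) ((pushK f').comp (pullK g')) (fun M hM => ?_) x
  have h1 : IsCoh (pb g' M) := hP2.2.1 X X' g' M hM
  have h2 : IsCoh (pb g (pf f M)) := hP2.2.1 Y Y' g _ (coh_pf f M hM)
  rw [AddMonoidHom.comp_apply, AddMonoidHom.comp_apply, pushK_cl, hP2.2.2.1 X X' g' M hM h1,
    hP2.2.2.1 Y Y' g _ _ h2, pushK_cl]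
  obtain ⟨e⟩ := hP4 X' X Y' Y g' f' f g h M hM.1
  exact cl_iso e _ _

theorem thm_Fin (hP2 : St_P2) (hP4 : St_P4) (hP5 : St_P5) (hE2 : St_E2) (hD3 : St_D3)
    (hD4 : St_D4) (hH2 : St_H2) : St_Fin := by
  let T : Pool.Agent.KTH.Thy.{1} :=
    { T := K0
      grp := inferInstance
      pull := fun f _ => pullK f
      push := fun f _ => pushK f
      pull_id := fun X _ x => fin_pull_id hP2 X x
      pull_comp := fun f g _ _ x => fin_pull_comp hP2 f g x
      push_id := fun X _ x => fin_push_id X x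
      push_comp := fun f g _ _ x => fin_push_comp f g x
      bc := fun g' f' f g _ _ _ _ h x => fin_bc hP2 hP4 g' f' f g h x
      ex := by
        intro Z X U _ i j _ _ hij x hx
        exact (hD3 Z X i j.opensRange hij).2.1 x (hE2 X U j x hx)
      ex0 := by
        intro Z X U _ i j _ _ hij z
        exact (hD3 Z X i j.opensRange hij).2.2 U j rfl _ ((hD3 Z X i j.opensRange hij).1 z)
      dev := by
        intro Z X _ i _ hi
        exact hD4 Z X i hi
      hom := by
        intro X Y _ R _ f g h _ hp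
        exact hH2 X Y R f g h hp
      free := by
        intro X Y _ R R' _ _ _ d b f g h _ _ hp x
        exact hP5 X Y R R' d b f g h hp x }
  exact ⟨T, fun X => AddEquiv.refl (K0 X), fun X Y f _ x => rfl, fun X Y f _ x => rfl⟩

end Pool.Agent.KIN
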