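import Pool.Agent.KIN.St
import Pool.Agent.KSS.S4
import Pool.Agent.KSS.S7
import Pool.Agent.Helper83.Bass.Gen

/-!
# KIN, module H1: homotopy invariance, the affine case
-/

set_option autoImplicit false
set_option linter.style.haveILetI false
set_option linter.unusedSectionVars false

noncomputable section

namespace Pool.Agent.KIN

open CategoryTheory AlgebraicGeometry TopologicalSpace Function Pool.Agent.KSS
open Pool.Agent.Helper11 Pool.Agent.Helper83.Bass TensorProduct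

theorem h1_S4 : St_S4 := thm_S4 thm_S1 thm_S2 (thm_S3 thm_S1 thm_S2)

theorem h1_S7 : St_S7 := thm_S7 thm_S1 thm_S2 (thm_S6 thm_S1 thm_S2 (thm_S3 thm_S1 thm_S2))

section aff

variable (hL : St_L0) (X : Scheme.{0}) [X.IsSeparated] (hX : IsAffineOpen (⊤ : X.Opens))

include hL hX

/-- morphisms which are bijective on global sections -/
theorem h1_isIso {M M' : X.Modules} (hM : M.IsQuasicoherent) (hM' : M'.IsQuasicoherent)
    (φ : M ⟶ M') (h : Bijective (ap φ ⊤)) : IsIso φ :=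
  (hL X).2.1 M M' φ hM hM' fun _ => ⟨⊤, hX, trivial, h⟩

/-- linear maps between the global sections come from morphisms -/
theorem h1_lift {M M' : X.Modules} (hM : M.IsQuasicoherent) (hM' : M'.IsQuasicoherent)
    (h : Γ(M, ⊤) →ₗ[Γ(X, ⊤)] Γ(M', ⊤)) : ∃ φ : M ⟶ M', ∀ s, ap φ ⊤ s = h s := by
  obtain ⟨E, ε, hE, -, hl, -⟩ := h1_S7 X ⊤ hX Γ(M', ⊤)
  obtain ⟨u, hu⟩ := hl M hM h
  obtain ⟨u', hu'⟩ := hl M' hM' LinearMap.id
  have hb : Bijective (ap u' ⊤) := by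
    have h1 : (fun s => ε (ap u' ⊤ s)) = id := funext fun s => hu' s
    have h2 : Bijective (ε ∘ ap u' ⊤) := by
      have h3 : ε ∘ ap u' ⊤ = id := h1
      rw [h3]
      exact bijective_id
    exact (Bijective.of_comp_iff' ε.bijective _).mp h2
  haveI := h1_isIso hL X hX hM' hE u' hb
  refine ⟨u ≫ inv u', fun s => ?_⟩
  apply hb.1
  rw [ap_comp]
  have h1 : ap u' ⊤ (ap (inv u') ⊤ (ap u ⊤ s)) = ap u ⊤ s := by
    rw [← ap_comp, IsIso.inv_hom_id, ap_id]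
  rw [h1]
  apply ε.injective
  rw [hu, hu' (h s)]
  rfl

/-- sheaves with isomorphic modules of global sections are isomorphic -/
theorem h1_iso {M M' : X.Modules} (hM : M.IsQuasicoherent) (hM' : M'.IsQuasicoherent)
    (e : Γ(M, ⊤) ≃ₗ[Γ(X, ⊤)] Γ(M', ⊤)) : Nonempty (M ≅ M') := by
  obtain ⟨φ, hφ⟩ := h1_lift hL X hX hM hM' e.toLinearMap
  have hb : Bijective (ap φ ⊤) := by
    have h1 : (ap φ ⊤ : Γ(M, ⊤) → Γ(M', ⊤)) = e := funext hφ
    rw [h1]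
    exact e.bijective
  haveI := h1_isIso hL X hX hM hM' φ hb
  exact ⟨asIso φ⟩

/-- existence of coherent sheaves with given global sections -/
theorem h1_ex (N : Type) [AddCommGroup N] [Module Γ(X, ⊤) N] [Module.Finite Γ(X, ⊤) N] :
    ∃ E : X.Modules, IsCoh E ∧ Nonempty (Γ(E, ⊤) ≃ₗ[Γ(X, ⊤)] N) := by
  obtain ⟨E, ε, hE, -, -, -⟩ := h1_S7 X ⊤ hX N
  exact ⟨E, (hL X).2.2.2 E hE fun _ => ⟨⊤, hX, trivial, Module.Finite.equiv ε.symm⟩, ⟨ε⟩⟩

/-- additivity -/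
theorem h1_add [IsLocallyNoetherian X] {M' M M'' : X.Modules} (hM' : IsCoh M') (hM : IsCoh M)
    (hM'' : IsCoh M'') (f : Γ(M', ⊤) →ₗ[Γ(X, ⊤)] Γ(M, ⊤)) (g : Γ(M, ⊤) →ₗ[Γ(X, ⊤)] Γ(M'', ⊤))
    (hf : Injective f) (hg : Surjective g) (hfg : Function.Exact f g) :
    cl M hM = cl M' hM' + cl M'' hM'' := by
  obtain ⟨φ, hφ⟩ := h1_lift hL X hX hM.1 hM''.1 g
  obtain ⟨K, I, ι, π, κ, w, hK, hI, hS, hπκ, hκ, hπ, hι, hker⟩ := (h1_S4 X).1 M M'' φ hM hM''.1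
  have h1 := cl_add (ShortComplex.mk ι π w) hS hK hM hI
  have hκb : Bijective (ap κ ⊤) := by
    refine ⟨hκ ⊤, fun s => ?_⟩
    obtain ⟨t, rfl⟩ := hg s
    refine ⟨ap π ⊤ t, ?_⟩
    rw [← ap_comp, hπκ, hφ]
  haveI := h1_isIso hL X hX hI.1 hM''.1 κ hκb
  have h2 : cl I hI = cl M'' hM'' := cl_iso (asIso κ) hI hM''
  have hr : LinearMap.range (ap ι ⊤) = LinearMap.range f := by
    ext s
    rw [LinearMap.mem_range, LinearMap.mem_range, ← hker ⊤ s, hφ]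
    exact hfg s
  obtain ⟨e⟩ := h1_iso hL X hX hK.1 hM'.1
    ((LinearEquiv.ofInjective (ap ι ⊤) (hι ⊤)).trans
      ((LinearEquiv.ofEq _ _ hr).trans (LinearEquiv.ofInjective f hf).symm))
  rw [← h2, ← cl_iso e hK hM']
  exact h1

end aff

/-- the ring of global functions of the affine line over `Spec A` -/
theorem h1_gen (A : Type) [CommRing A] [IsNoetherianRing A]
    (φ : Γ(Spec (CommRingCat.of A), ⊤) →+* Γ(Spec (CommRingCat.of (Polynomial A)), ⊤))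
    (hφ : ∀ r, (Scheme.ΓSpecIso (CommRingCat.of (Polynomial A))).hom (φ r) =
      Polynomial.C ((Scheme.ΓSpecIso (CommRingCat.of A)).hom r)) :
    @Gen Γ(Spec (CommRingCat.of A), ⊤) Γ(Spec (CommRingCat.of (Polynomial A)), ⊤) _ _
      φ.toAlgebra := by
  letI := φ.toAlgebra
  let a : Γ(Spec (CommRingCat.of A), ⊤) ≃+* A :=
    (Scheme.ΓSpecIso (CommRingCat.of A)).commRingCatIsoToRingEquiv
  let b : Γ(Spec (CommRingCat.of (Polynomial A)), ⊤) ≃+* Polynomial A :=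
    (Scheme.ΓSpecIso (CommRingCat.of (Polynomial A))).commRingCatIsoToRingEquiv
  haveI : IsNoetherianRing Γ(Spec (CommRingCat.of A), ⊤) := isNoetherianRing_of_ringEquiv A a.symm
  let e : Polynomial Γ(Spec (CommRingCat.of A), ⊤) ≃+*
      Γ(Spec (CommRingCat.of (Polynomial A)), ⊤) := (Polynomial.mapEquiv a).trans b.symm
  refine Gen.congr (R := Γ(Spec (CommRingCat.of A), ⊤)) (AlgEquiv.ofRingEquiv (f := e) fun r => ?_)
    (gen_polynomial _)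
  have h1 : e (algebraMap _ _ r) = b.symm (Polynomial.C (a r)) := by
    show b.symm (Polynomial.mapEquiv a (Polynomial.C r)) = _
    congr 1
    exact Polynomial.map_C _
  rw [h1]
  apply b.injective
  rw [b.apply_symm_apply]
  exact (hφ r).symm

theorem thm_H1 (hL : St_L0) (hP1 : St_P1) (hP2 : St_P2) : St_H1 := by
  intro A _ _
  let X : Scheme.{0} := Spec (CommRingCat.of A)
  let Y : Scheme.{0} := Spec (CommRingCat.of (Polynomial A))
  let f : Y ⟶ X := Spec.map (CommRingCat.ofHom (Polynomial.C : A →+* Polynomial A))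
  haveI : IsNoetherian X := inferInstanceAs (IsNoetherian (Spec (CommRingCat.of A)))
  haveI : IsNoetherian Y := inferInstanceAs (IsNoetherian (Spec (CommRingCat.of (Polynomial A))))
  haveI : Flat f := by
    rw [Flat.SpecMap_iff]
    exact (RingHom.flat_algebraMap_iff (R := A) (S := Polynomial A)).mpr inferInstance
  have hX : IsAffineOpen (⊤ : X.Opens) := isAffineOpen_top X
  have hY : IsAffineOpen (⊤ : Y.Opens) := isAffineOpen_top Y
  have hle : (⊤ : Y.Opens) ≤ f ⁻¹ᵁ ⊤ := le_rfl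
  let φ : Γ(X, ⊤) →+* Γ(Y, ⊤) := (f.appLE ⊤ ⊤ hle).hom
  have hgen := h1_gen A φ (fun r => by
    have h1 : f.appLE ⊤ ⊤ hle = f.appTop := f.appLE_eq_app
    have h2 := Scheme.ΓSpecIso_naturality
      (CommRingCat.ofHom (Polynomial.C : A →+* Polynomial A))
    have h3 : φ r = f.appTop.hom r := by
      show (f.appLE ⊤ ⊤ hle).hom r = _
      rw [h1]
    rw [h3]
    exact congr($h2 r))
  letI := φ.toAlgebra
  show Surjective (pullK f)
  rw [← AddMonoidHom.range_eq_top, eq_top_iff, ← cl_closure Y, AddSubgroup.closure_le]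
  rintro _ ⟨M, hM, rfl⟩
  let P : FGMod Γ(Y, ⊤) → Prop := fun N => ∀ (M : Y.Modules) (hM : IsCoh M),
    Nonempty (Γ(M, ⊤) ≃ₗ[Γ(Y, ⊤)] N) → cl M hM ∈ (pullK f).range
  have key : ∀ (N' N N'' : FGMod Γ(Y, ⊤)) (a : N' →ₗ[Γ(Y, ⊤)] N) (b : N →ₗ[Γ(Y, ⊤)] N''),
      Injective a → Surjective b → Function.Exact a b → ∀ (M' M M'' : Y.Modules)
      (hM' : IsCoh M') (hM : IsCoh M) (hM'' : IsCoh M''), (Γ(M', ⊤) ≃ₗ[Γ(Y, ⊤)] N') →
      (Γ(M, ⊤) ≃ₗ[Γ(Y, ⊤)] N) → (Γ(M'', ⊤) ≃ₗ[Γ(Y, ⊤)] N'') →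
      cl M hM = cl M' hM' + cl M'' hM'' := by
    intro N' N N'' a b ha hb hab M' M M'' hM' hM hM'' e' e e''
    refine h1_add hL Y hY hM' hM hM'' (e.symm.toLinearMap ∘ₗ a ∘ₗ e'.toLinearMap)
      (e''.symm.toLinearMap ∘ₗ b ∘ₗ e.toLinearMap) ?_ ?_ ?_
    · exact e.symm.injective.comp (ha.comp e'.injective)
    · exact e''.symm.surjective.comp (hb.comp e.surjective)
    · intro s
      show e''.symm (b (e s)) = 0 ↔ ∃ t, e.symm (a (e' t)) = s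
      rw [LinearEquiv.map_eq_zero_iff, hab (e s)]
      constructor
      · rintro ⟨y, hy⟩
        refine ⟨e'.symm y, ?_⟩
        rw [e'.apply_symm_apply, hy, e.symm_apply_apply]
      · rintro ⟨t, ht⟩
        refine ⟨e' t, ?_⟩
        rw [← ht, e.apply_symm_apply]
  have hP : ResClass P := by
    refine ⟨?_, ?_, ?_⟩
    · rintro N N₁ e h M hM ⟨e₁⟩
      exact h M hM ⟨e₁.trans e.symm⟩
    · rintro N' N N'' a b ha hb hab h' h'' M hM ⟨e⟩
      obtain ⟨M', hM', ⟨e'⟩⟩ := h1_ex hL Y hY N'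
      obtain ⟨M'', hM'', ⟨e''⟩⟩ := h1_ex hL Y hY N''
      rw [key N' N N'' a b ha hb hab M' M M'' hM' hM hM'' e' e e'']
      exact add_mem (h' M' hM' ⟨e'⟩) (h'' M'' hM'' ⟨e''⟩)
    · rintro N' N N'' a b ha hb hab h' h M'' hM'' ⟨e''⟩
      obtain ⟨M', hM', ⟨e'⟩⟩ := h1_ex hL Y hY N'
      obtain ⟨M, hM, ⟨e⟩⟩ := h1_ex hL Y hY N
      have h1 := key N' N N'' a b ha hb hab M' M M'' hM' hM hM'' e' e e''
      have h2 : cl M'' hM'' = cl M hM - cl M' hM' := by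
        rw [h1]
        abel
      rw [h2]
      exact sub_mem (h M hM ⟨e⟩) (h' M' hM' ⟨e'⟩)
  haveI : Module.Finite Γ(Y, ⊤) Γ(M, ⊤) := hM.2 ⊤ hY
  refine hgen P hP (fun N M hM hN => ?_) (FGMod.of Γ(Y, ⊤) Γ(M, ⊤)) M hM ⟨LinearEquiv.refl _ _⟩
  obtain ⟨e⟩ := hN
  obtain ⟨E, hE, ⟨ε⟩⟩ := h1_ex hL X hX N
  have hE' : IsCoh (pb f E) := hP2.2.1 X Y f E hE
  obtain ⟨d, -⟩ := (hP1 X Y f E hE.1).2 ⊤ ⊤ hle hX hY
  have e1 : Γ(M, ⊤) ≃ₗ[Γ(Y, ⊤)] Γ(pb f E, ⊤) :=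
    e.trans ((ε.symm.baseChange Γ(X, ⊤) Γ(Y, ⊤) N Γ(E, ⊤)).trans d)
  obtain ⟨i⟩ := h1_iso hL Y hY hM.1 hE'.1 e1
  refine ⟨cl E hE, ?_⟩
  rw [hP2.2.2.1 X Y f E hE hE']
  exact (cl_iso i hM hE').symm

end Pool.Agent.KIN
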