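import Pool.Agent.KIN.St

/-!
# KIN, module L0: local recognition for quasi-coherent sheaves
-/

set_option autoImplicit false

noncomputable section

namespace Pool.Agent.KIN

open CategoryTheory AlgebraicGeometry TopologicalSpace Function Pool.Agent.KSS
open Pool.Agent.Helper11

variable {X : Scheme.{0}}

/-- The affine communication lemma. -/
theorem l0_ind (P : X.Opens → Prop)
    (h1 : ∀ U : X.Opens, IsAffineOpen U → ∀ f : Γ(X, U), P U → P (X.basicOpen f))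
    (h2 : ∀ U : X.Opens, IsAffineOpen U → ∀ s : Set Γ(X, U), s.Finite → Ideal.span s = ⊤ →
      (∀ f ∈ s, P (X.basicOpen f)) → P U)
    (h3 : ∀ y : X, ∃ V : X.Opens, IsAffineOpen V ∧ y ∈ V ∧ P V) :
    ∀ W : X.Opens, IsAffineOpen W → P W := by
  intro W hW
  choose V hV hyV hPV using h3
  refine of_affine_open_cover (P := fun U : X.affineOpens => P U.1)
    (fun y : X => (⟨V y, hV y⟩ : X.affineOpens)) ?_ ⟨W, hW⟩ ?_ ?_ ?_
  · rw [eq_top_iff]
    intro y _
    exact Opens.mem_iSup.mpr ⟨y, hyV y⟩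
  · intro U f hU
    exact h1 U.1 U.2 f hU
  · intro U s hs h
    exact h2 U.1 U.2 (s : Set Γ(X, U)) s.finite_toSet hs fun f hf => h ⟨f, hf⟩
  · intro y
    exact hPV y

theorem l0_pow {U : X.Opens} (f : Γ(X, U)) (n : ℕ) (M : X.Modules)
    (s : Γ(M, X.basicOpen f)) : ∃ c : Γ(X, X.basicOpen f),
      c • (rO (X.basicOpen_le f) f ^ n • s) = s := by
  obtain ⟨u, hu⟩ := (s5_unit f).pow n
  refine ⟨(↑u⁻¹ : Γ(X, X.basicOpen f)), ?_⟩
  rw [← hu, smul_smul, Units.inv_mul, one_smul]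

theorem l0_cancel {U : X.Opens} (f : Γ(X, U)) (n : ℕ) (M : X.Modules)
    (s : Γ(M, X.basicOpen f)) (h : rO (X.basicOpen_le f) f ^ n • s = 0) : s = 0 := by
  obtain ⟨c, hc⟩ := l0_pow f n M s
  rw [← hc, h, smul_zero]

theorem l0_rMpow {U : X.Opens} (f : Γ(X, U)) (n : ℕ) (M : X.Modules) (s : Γ(M, U)) :
    rM M (X.basicOpen_le f) (f ^ n • s) =
      rO (X.basicOpen_le f) f ^ n • rM M (X.basicOpen_le f) s := by
  rw [rM_smul, map_pow]

/-- numerators -/
theorem l0_num {M : X.Modules} (hM : QLoc M) {U : X.Opens} (hU : IsAffineOpen U) (f : Γ(X, U))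
    (s : Γ(M, X.basicOpen f)) : ∃ (n : ℕ) (t : Γ(M, U)) (c : Γ(X, X.basicOpen f)),
      rM M (X.basicOpen_le f) t = rO (X.basicOpen_le f) f ^ n • s ∧
      s = c • rM M (X.basicOpen_le f) t := by
  obtain ⟨n, t, ht⟩ := (hM U hU f).1 s
  obtain ⟨c, hc⟩ := l0_pow f n M s
  exact ⟨n, t, c, ht, by rw [ht, hc]⟩

section

variable {M N K : X.Modules} (φ : M ⟶ N) (ψ : N ⟶ K)

theorem l0_inj1 (hM : QLoc M) (hN : QLoc N) {U : X.Opens} (hU : IsAffineOpen U) (f : Γ(X, U))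
    (h : Injective (ap φ U)) : Injective (ap φ (X.basicOpen f)) := by
  rw [injective_iff_map_eq_zero]
  intro s hs
  obtain ⟨n, t, c, ht, hc⟩ := l0_num hM hU f s
  have h1 : rM N (X.basicOpen_le f) (ap φ U t) = 0 := by
    rw [rM_ap, ht, map_smul, hs, smul_zero]
  obtain ⟨m, hm⟩ := (hN U hU f).2 _ h1
  have h2 : f ^ m • t = 0 := by
    apply h
    rw [map_smul, hm, map_zero]
  have h3 := congrArg (rM M (X.basicOpen_le f)) h2
  rw [map_zero, l0_rMpow] at h3
  rw [hc, l0_cancel f m M _ h3, smul_zero]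

theorem l0_inj2 (hM : QLoc M) {U : X.Opens} (hU : IsAffineOpen U) (S : Set Γ(X, U))
    (hS : Ideal.span S = ⊤) (h : ∀ f ∈ S, Injective (ap φ (X.basicOpen f))) :
    Injective (ap φ U) := by
  rw [injective_iff_map_eq_zero]
  intro s hs
  have h1 : s ∈ (⊥ : Submodule Γ(X, U) Γ(M, U)) := by
    refine Submodule.mem_of_span_eq_top_of_smul_pow_mem _ S hS s fun f => ?_
    have h2 : rM M (X.basicOpen_le f.1) s = 0 := by
      apply h f.1 f.2
      rw [← rM_ap, hs, map_zero, map_zero]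
    obtain ⟨m, hm⟩ := (hM U hU f.1).2 _ h2
    exact ⟨m, (Submodule.mem_bot _).mpr hm⟩
  exact (Submodule.mem_bot _).mp h1

/-- A section which is locally the value of `φ` is the value of `φ`, up to powers. -/
theorem l0_val (hM : QLoc M) (hN : QLoc N) {U : X.Opens} (hU : IsAffineOpen U) (f : Γ(X, U))
    (s : Γ(N, U)) (u : Γ(M, X.basicOpen f))
    (h : ap φ (X.basicOpen f) u = rM N (X.basicOpen_le f) s) :
    ∃ m : ℕ, f ^ m • s ∈ LinearMap.range (ap φ U) := by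
  obtain ⟨n, v, c, hv, -⟩ := l0_num hM hU f u
  have h1 : rM N (X.basicOpen_le f) (ap φ U v - f ^ n • s) = 0 := by
    rw [map_sub, rM_ap, hv, map_smul, h, l0_rMpow, sub_self]
  obtain ⟨m, hm⟩ := (hN U hU f).2 _ h1
  refine ⟨m + n, f ^ m • v, ?_⟩
  rw [smul_sub, sub_eq_zero] at hm
  rw [map_smul, hm, smul_smul, pow_add]

theorem l0_surj1 (hN : QLoc N) {U : X.Opens} (hU : IsAffineOpen U) (f : Γ(X, U))
    (h : Surjective (ap φ U)) : Surjective (ap φ (X.basicOpen f)) := by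
  intro s
  obtain ⟨n, t, c, -, hc⟩ := l0_num hN hU f s
  obtain ⟨u, rfl⟩ := h t
  refine ⟨c • rM M (X.basicOpen_le f) u, ?_⟩
  rw [map_smul, ← rM_ap, ← hc]

theorem l0_surj2 (hM : QLoc M) (hN : QLoc N) {U : X.Opens} (hU : IsAffineOpen U)
    (S : Set Γ(X, U)) (hS : Ideal.span S = ⊤) (h : ∀ f ∈ S, Surjective (ap φ (X.basicOpen f))) :
    Surjective (ap φ U) := by
  intro s
  have h1 : s ∈ LinearMap.range (ap φ U) := by
    refine Submodule.mem_of_span_eq_top_of_smul_pow_mem _ S hS s fun f => ?_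
    obtain ⟨u, hu⟩ := h f.1 f.2 (rM N (X.basicOpen_le f.1) s)
    exact l0_val φ hM hN hU f.1 s u hu
  exact h1

theorem l0_mid1 (hN : QLoc N) (hK : QLoc K) {U : X.Opens} (hU : IsAffineOpen U)
    (f : Γ(X, U)) (h : ∀ s, ap ψ U s = 0 → ∃ t, ap φ U t = s) :
    ∀ s, ap ψ (X.basicOpen f) s = 0 → ∃ t, ap φ (X.basicOpen f) t = s := by
  intro s hs
  obtain ⟨n, t, c, ht, hc⟩ := l0_num hN hU f s
  have h1 : rM K (X.basicOpen_le f) (ap ψ U t) = 0 := by
    rw [rM_ap, ht, map_smul, hs, smul_zero]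
  obtain ⟨m, hm⟩ := (hK U hU f).2 _ h1
  obtain ⟨u, hu⟩ := h (f ^ m • t) (by rw [map_smul, hm])
  obtain ⟨d, hd⟩ := l0_pow f m N (rM N (X.basicOpen_le f) t)
  refine ⟨c • d • rM M (X.basicOpen_le f) u, ?_⟩
  rw [map_smul, map_smul, ← rM_ap, hu, l0_rMpow, hd, ← hc]

theorem l0_mid2 (hM : QLoc M) (hN : QLoc N) {U : X.Opens} (hU : IsAffineOpen U)
    (S : Set Γ(X, U)) (hS : Ideal.span S = ⊤)
    (h : ∀ f ∈ S, ∀ s, ap ψ (X.basicOpen f) s = 0 → ∃ t, ap φ (X.basicOpen f) t = s) :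
    ∀ s, ap ψ U s = 0 → ∃ t, ap φ U t = s := by
  intro s hs
  have h1 : s ∈ LinearMap.range (ap φ U) := by
    refine Submodule.mem_of_span_eq_top_of_smul_pow_mem _ S hS s fun f => ?_
    obtain ⟨u, hu⟩ := h f.1 f.2 (rM N (X.basicOpen_le f.1) s) (by rw [← rM_ap, hs, map_zero])
    exact l0_val φ hM hN hU f.1 s u hu
  exact h1

end

/-- finite generation passes to basic open sets -/
theorem l0_fin1 {M : X.Modules} (hM : QLoc M) {U : X.Opens} (hU : IsAffineOpen U) (f : Γ(X, U))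
    (h : Module.Finite Γ(X, U) Γ(M, U)) :
    Module.Finite Γ(X, X.basicOpen f) Γ(M, X.basicOpen f) := by
  obtain ⟨S, hS⟩ := h.fg_top
  classical
  refine ⟨⟨S.image (rM M (X.basicOpen_le f)), ?_⟩⟩
  rw [eq_top_iff]
  intro s _
  obtain ⟨n, t, c, -, hc⟩ := l0_num hM hU f s
  rw [hc]
  clear hc
  refine Submodule.smul_mem _ _ ?_
  have ht : t ∈ Submodule.span Γ(X, U) (S : Set Γ(M, U)) := by rw [hS]; trivial
  induction ht using Submodule.span_induction with
  | mem x hx =>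
    refine Submodule.subset_span ?_
    rw [Finset.coe_image]
    exact ⟨x, hx, rfl⟩
  | zero => rw [map_zero]; exact Submodule.zero_mem _
  | add x y _ _ hx hy => rw [map_add]; exact Submodule.add_mem _ hx hy
  | smul a x _ hx => rw [rM_smul]; exact Submodule.smul_mem _ _ hx

/-- local finite generation -/
theorem l0_fin2 {M : X.Modules} (hM : QLoc M) {U : X.Opens} (hU : IsAffineOpen U)
    (S : Set Γ(X, U)) (hf : S.Finite) (hS : Ideal.span S = ⊤)
    (h : ∀ f ∈ S, Module.Finite Γ(X, X.basicOpen f) Γ(M, X.basicOpen f)) :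
    Module.Finite Γ(X, U) Γ(M, U) := by
  classical
  have key : ∀ f ∈ S, ∃ T : Finset Γ(M, U), ∀ s : Γ(M, U), ∃ n : ℕ,
      f ^ n • s ∈ Submodule.span Γ(X, U) (T : Set Γ(M, U)) := by
    intro f hfS
    obtain ⟨G, hG⟩ := (h f hfS).fg_top
    have hnum := fun s : Γ(M, X.basicOpen f) => (hM U hU f).1 s
    choose n t ht using hnum
    refine ⟨G.image t, fun s => ?_⟩
    have h1 : ∀ u : Γ(M, X.basicOpen f), ∃ (k : ℕ) (w : Γ(M, U)),
        w ∈ Submodule.span Γ(X, U) ((G.image t : Finset Γ(M, U)) : Set Γ(M, U)) ∧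
        rM M (X.basicOpen_le f) w = rO (X.basicOpen_le f) f ^ k • u := by
      intro u
      have hu : u ∈ Submodule.span Γ(X, X.basicOpen f) (G : Set Γ(M, X.basicOpen f)) := by
        rw [hG]; trivial
      induction hu using Submodule.span_induction with
      | mem x hx =>
        refine ⟨n x, t x, Submodule.subset_span ?_, ht x⟩
        rw [Finset.coe_image]
        exact ⟨x, hx, rfl⟩
      | zero => exact ⟨0, 0, Submodule.zero_mem _, by rw [map_zero, smul_zero]⟩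
      | add x y _ _ hx hy =>
        obtain ⟨k, w, hw, hk⟩ := hx
        obtain ⟨k', w', hw', hk'⟩ := hy
        refine ⟨k + k', f ^ k' • w + f ^ k • w', Submodule.add_mem _
          (Submodule.smul_mem _ _ hw) (Submodule.smul_mem _ _ hw'), ?_⟩
        rw [map_add, l0_rMpow, l0_rMpow, hk, hk', smul_add, smul_smul, smul_smul, ← pow_add,
          ← pow_add, add_comm k' k]
      | smul a x _ hx =>
        obtain ⟨k, w, hw, hk⟩ := hx
        have hloc := hU.isLocalization_basicOpen f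
        obtain ⟨⟨b, m⟩, hb⟩ := IsLocalization.surj (Submonoid.powers f) a
        obtain ⟨m, l, rfl⟩ := m
        have hb' : a * rO (X.basicOpen_le f) f ^ l = rO (X.basicOpen_le f) b := by
          rw [← map_pow]
          exact hb
        refine ⟨l + k, b • w, Submodule.smul_mem _ _ hw, ?_⟩
        rw [rM_smul, hk, ← hb', smul_smul, smul_smul]
        congr 1
        ring
    obtain ⟨k, w, hw, hk⟩ := h1 (rM M (X.basicOpen_le f) s)
    have h2 : rM M (X.basicOpen_le f) (w - f ^ k • s) = 0 := by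
      rw [map_sub, hk, l0_rMpow, sub_self]
    obtain ⟨m, hm⟩ := (hM U hU f).2 _ h2
    refine ⟨m + k, ?_⟩
    rw [smul_sub, sub_eq_zero] at hm
    rw [pow_add, ← smul_smul, ← hm]
    exact Submodule.smul_mem _ _ hw
  choose! T hT using key
  refine ⟨⟨hf.toFinset.biUnion T, ?_⟩⟩
  rw [eq_top_iff]
  intro s _
  refine Submodule.mem_of_span_eq_top_of_smul_pow_mem _ S hS s fun f => ?_
  obtain ⟨n, hn⟩ := hT f.1 f.2 s
  refine ⟨n, Submodule.span_mono ?_ hn⟩
  intro x hx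
  rw [Finset.mem_coe, Finset.mem_biUnion]
  exact ⟨f.1, hf.mem_toFinset.mpr f.2, hx⟩

/-- short exactness -/
theorem l0_exact (S : ShortComplex X.Modules) (h1 : S.X₁.IsQuasicoherent)
    (h2 : S.X₂.IsQuasicoherent) (h3 : S.X₃.IsQuasicoherent)
    (h : ∀ y : X, ∃ V : X.Opens, IsAffineOpen V ∧ y ∈ V ∧
      Injective (ap S.f V) ∧ (∀ s, ap S.g V s = 0 → ∃ t, ap S.f V t = s) ∧
      Surjective (ap S.g V)) : S.ShortExact := by
  have q1 := (thm_S2 X S.X₁).1 h1
  have q2 := (thm_S2 X S.X₂).1 h2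
  have q3 := (thm_S2 X S.X₃).1 h3
  have hall := l0_ind (fun V => Injective (ap S.f V) ∧
      (∀ s, ap S.g V s = 0 → ∃ t, ap S.f V t = s) ∧ Surjective (ap S.g V))
    (fun U hU f h => ⟨l0_inj1 _ q1 q2 hU f h.1, l0_mid1 _ _ q2 q3 hU f h.2.1,
      l0_surj1 _ q3 hU f h.2.2⟩)
    (fun U hU s _ hs h => ⟨l0_inj2 _ q1 hU s hs fun f hf => (h f hf).1,
      l0_mid2 _ _ q1 q2 hU s hs fun f hf => (h f hf).2.1,
      l0_surj2 _ q2 q3 hU s hs fun f hf => (h f hf).2.2⟩) h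
  exact (thm_S1 X).2.2.2.2 S (fun U hU => (hall U hU).1) (fun U hU => (hall U hU).2.1)
    fun U hU => (hall U hU).2.2

/-- isomorphisms -/
theorem l0_iso (M N : X.Modules) (φ : M ⟶ N) (hM : M.IsQuasicoherent) (hN : N.IsQuasicoherent)
    (h : ∀ y : X, ∃ V : X.Opens, IsAffineOpen V ∧ y ∈ V ∧ Bijective (ap φ V)) : IsIso φ := by
  obtain ⟨Z, hZ, hv⟩ := (thm_S5 thm_S1 thm_S2 X).2.2.2.2
  have hS := l0_exact (ShortComplex.mk φ (0 : N ⟶ Z) (by simp)) hM hN hZ.1 (by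
    intro y
    obtain ⟨V, hV, hy, hb⟩ := h y
    refine ⟨V, hV, hy, hb.1, fun s _ => hb.2 s, fun s => ⟨0, ?_⟩⟩
    exact (hv V le_top hV _).trans (hv V le_top hV s).symm)
  have hm : Mono φ := hS.mono_f
  have := hS.epi_g
  have he : Epi φ := by
    refine Preadditive.epi_of_cancel_zero _ fun {P} ψ hψ => ?_
    have h1 : ∃ l : Z ⟶ P, (0 : N ⟶ Z) ≫ l = ψ := ⟨hS.exact.desc ψ hψ, hS.exact.g_desc ψ hψ⟩
    obtain ⟨l, hl⟩ := h1
    rw [← hl, Limits.zero_comp]
  exact isIso_of_mono_of_epi φ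

theorem thm_L0 : St_L0 := by
  intro Y
  refine ⟨?_, ?_, ?_, ?_⟩
  · intro S h1 h2 h3 h
    refine l0_exact S h1 h2 h3 fun y => ?_
    obtain ⟨V, hV, hy, ha, hb, hc⟩ := h y
    exact ⟨V, hV, hy, ha, fun s hs => (hb s).mp hs, hc⟩
  · exact l0_iso
  · intro M O hM h W hW _ s
    refine s5_sep M W s fun y hy => ?_
    obtain ⟨V, hV, hyV, h0⟩ := h y (hW hy)
    obtain ⟨V', hV', hyV', hle⟩ := exists_isAffineOpen_mem_and_subset (U := W ⊓ V) ⟨hy, hyV⟩
    exact ⟨V', fun z hz => (hle hz).1, hyV',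
      s5_van thm_S2 M V hM hV h0 V' (fun z hz => (hle hz).2) hV' _⟩
  · intro M hM h
    refine ⟨hM, ?_⟩
    have q := (thm_S2 Y M).1 hM
    exact l0_ind (fun V => Module.Finite Γ(Y, V) Γ(M, V)) (fun U hU f h => l0_fin1 q hU f h)
      (fun U hU s hs hs' h => l0_fin2 q hU s hs hs' h) h

end Pool.Agent.KIN
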