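import Pool.Agent.KIN.St

/-!
# KIN [P1]: the pull-back of a quasi-coherent sheaf

The pull-back `f^* M` of a quasi-coherent sheaf is quasi-coherent (presentations pull back), and
`Γ(M, U) → Γ(f^* M, V)` is a base change for affine `U` and `V ≤ f⁻¹ U` (universal property with values
in the sheaves `j_* (tilde Q)`, `j : Spec Γ(Y, V) → Y`).
-/

set_option autoImplicit false

noncomputable section

namespace Pool.Agent.KIN

open CategoryTheory AlgebraicGeometry TopologicalSpace Function Pool.Agent.KSS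
open Opposite

/-- recognition of base changes by the universal property -/
theorem p1_bch {A B M N : Type} [CommRing A] [CommRing B] [AddCommGroup M] [Module A M]
    [AddCommGroup N] [Module B N] (φ : A →+* B) (h : M →+ N)
    (hs : ∀ (a : A) (m : M), h (a • m) = φ a • h m)
    (ex : ∀ (Q : Type) [AddCommGroup Q] [Module B Q] (g : M →+ Q),
      (∀ (a : A) (m : M), g (a • m) = φ a • g m) → ∃ l : N →ₗ[B] Q, ∀ m, l (h m) = g m)
    (un : ∀ l l' : N →ₗ[B] N, (∀ m, l (h m) = l' (h m)) → l = l') : BCh φ h := by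
  unfold BCh
  let _ := φ.toAlgebra
  let _ : Module A N := Module.compHom N φ
  have : IsScalarTower A B N := ⟨fun a b n => by
    show (φ a * b) • n = φ a • (b • n)
    rw [mul_smul]⟩
  let h' : M →ₗ[A] N :=
    { toFun := h
      map_add' := map_add h
      map_smul' := fun a m => hs a m }
  let e0 : TensorProduct A B M →ₗ[B] N := h'.liftBaseChange B
  have he0 : ∀ m, e0 (1 ⊗ₜ[A] m) = h m := by
    intro m
    show h'.liftBaseChange B (1 ⊗ₜ[A] m) = _
    rw [LinearMap.liftBaseChange_tmul, one_smul]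
    rfl
  let g : M →+ TensorProduct A B M :=
    { toFun := fun m => 1 ⊗ₜ[A] m
      map_zero' := TensorProduct.tmul_zero _ _
      map_add' := fun x y => TensorProduct.tmul_add _ _ _ }
  obtain ⟨l, hl⟩ := ex (TensorProduct A B M) g (fun a m => by
    show (1 : B) ⊗ₜ[A] (a • m) = φ a • ((1 : B) ⊗ₜ[A] m)
    rw [TensorProduct.smul_tmul', ← TensorProduct.smul_tmul]
    rfl)
  have h1 : e0.comp l = LinearMap.id := by
    refine un _ _ fun m => ?_
    show e0 (l (h m)) = h m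
    rw [hl]
    exact he0 m
  have h2 : l.comp e0 = LinearMap.id := by
    refine TensorProduct.AlgebraTensorModule.ext fun b m => ?_
    have h3 : b ⊗ₜ[A] m = b • ((1 : B) ⊗ₜ[A] m) := by
      rw [TensorProduct.smul_tmul', smul_eq_mul, mul_one]
    show l (e0 (b ⊗ₜ[A] m)) = b ⊗ₜ[A] m
    rw [h3, map_smul, map_smul, he0, hl]
    rfl
  exact ⟨LinearEquiv.ofLinearMap e0 l h1 h2, he0⟩

/-! ### the pull-back of a quasi-coherent sheaf is quasi-coherent -/

section qc

variable {X Y : Scheme.{0}} (f : Y ⟶ X)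

theorem p1_final : (Opens.map f.base).Final where
  out V := by
    let T : StructuredArrow V (Opens.map f.base) :=
      StructuredArrow.mk (Y := (⊤ : Opens X)) (homOfLE (fun _ _ => trivial))
    have hT : Limits.IsTerminal T := Limits.IsTerminal.ofUniqueHom
      (fun A => StructuredArrow.homMk (homOfLE le_top) (Subsingleton.elim _ _))
      (fun A m => by
        apply StructuredArrow.hom_ext
        exact Subsingleton.elim _ _)
    exact isConnected_of_isTerminal _ hT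

set_option backward.isDefEq.respectTransparency false in
/-- the pull-back of the structure sheaf -/
def p1_unit : SheafOfModules.unit Y.ringCatSheaf ≅
    (Scheme.Modules.pullback f).obj (SheafOfModules.unit X.ringCatSheaf) :=
  let _ := p1_final f
  (asIso (SheafOfModules.pullbackObjUnitToUnit f.toRingCatSheafHom)).symm

set_option backward.isDefEq.respectTransparency false in
/-- the pull-back of a sheaf with a presentation -/
def p1_pres {M : X.Modules} (pres : SheafOfModules.Presentation M) :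
    SheafOfModules.Presentation (pb f M) :=
  have : Limits.PreservesColimitsOfSize.{0, 0} (Scheme.Modules.pullback f) :=
    inferInstance
  pres.map (Scheme.Modules.pullback f) (p1_unit f)

/-- the restriction of the pull-back -/
def p1_res (M : X.Modules) {U : X.Opens} {V : Y.Opens} (h : V ≤ f ⁻¹ᵁ U) (hU : IsAffineOpen U)
    (hV : IsAffineOpen V) : pb (Spec.map (f.appLE U V h)) (M.restrict hU.fromSpec) ≅
      (pb f M).restrict hV.fromSpec :=
  (Scheme.Modules.pullback (Spec.map (f.appLE U V h))).mapIso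
      ((Scheme.Modules.restrictFunctorIsoPullback hU.fromSpec).app M) ≪≫
    (Scheme.Modules.pullbackComp (Spec.map (f.appLE U V h)) hU.fromSpec).app M ≪≫
    (Scheme.Modules.pullbackCongr (IsAffineOpen.SpecMap_appLE_fromSpec f hU hV h)).app M ≪≫
    ((Scheme.Modules.pullbackComp hV.fromSpec f).app M).symm ≪≫
    ((Scheme.Modules.restrictFunctorIsoPullback hV.fromSpec).app (pb f M)).symm

set_option backward.isDefEq.respectTransparency false in
theorem p1_tilde (M : X.Modules) (hM : M.IsQuasicoherent) {U : X.Opens} {V : Y.Opens}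
    (h : V ≤ f ⁻¹ᵁ U) (hU : IsAffineOpen U) (hV : IsAffineOpen V) :
    IsIso ((pb f M).restrict hV.fromSpec).fromTildeΓ := by
  have h1 : (M.restrict hU.fromSpec).IsQuasicoherent :=
    Scheme.Modules.isQuasicoherent_restrictFunctor hU.fromSpec M
  have h2 : IsIso (M.restrict hU.fromSpec).fromTildeΓ :=
    Scheme.Modules.isIso_fromTildeΓ_of_isQuasicoherent _
  exact isIso_fromTildeΓ_of_presentation _
    (SheafOfModules.Presentation.ofIsIso.{0, 0, 0} (p1_res f M h hU hV).hom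
      (p1_pres (Spec.map (f.appLE U V h)) (S2_presSpec (M.restrict hU.fromSpec))))

theorem p1_qc (M : X.Modules) (hM : M.IsQuasicoherent) : (pb f M).IsQuasicoherent := by
  have h1 : ∀ V : {V : Y.Opens // IsAffineOpen V ∧ ∃ U : X.Opens, IsAffineOpen U ∧ V ≤ f ⁻¹ᵁ U},
      Nonempty (SheafOfModules.Presentation (SheafOfModules.over (pb f M) V.1)) := by
    rintro ⟨V, hV, U, hU, h⟩
    have h2 := p1_tilde f M hM h hU hV
    exact ⟨S2_presOver (pb f M) V (S2_presU (pb f M) hV)⟩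
  let D : SheafOfModules.QuasicoherentData (pb f M) :=
    { I := {V : Y.Opens // IsAffineOpen V ∧ ∃ U : X.Opens, IsAffineOpen U ∧ V ≤ f ⁻¹ᵁ U}
      X := fun U => U.1
      coversTop := by
        rw [Opens.coversTop_iff]
        refine eq_top_iff.2 fun y _ => ?_
        obtain ⟨U, hU, hyU, -⟩ := exists_isAffineOpen_mem_and_subset (x := f y) (U := ⊤) trivial
        obtain ⟨V, hV, hyV, hVU⟩ := exists_isAffineOpen_mem_and_subset (x := y) (U := f ⁻¹ᵁ U) hyU
        exact Opens.mem_iSup.2 ⟨⟨V, hV, U, hU, hVU⟩, hyV⟩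
      presentation := fun U => (h1 U).some }
  exact D.isQuasicoherent

end qc

section spec

variable {R : CommRingCat.{0}} (N : ModuleCat.{0} R)

/-- the map `N → Γ(tilde N, V)` -/
def tau (V : (Spec R).Opens) : N →+ Γ(tilde N, V) :=
  (tilde.toOpen N V).hom.toAddMonoidHom

theorem tau_smul (V : (Spec R).Opens) (r : R) (n : N) :
    tau N V (r • n) = r • tau N V n := (tilde.toOpen N V).hom.map_smul r n

theorem tau_res {V V' : (Spec R).Opens} (h : V' ≤ V) (n : N) :
    rM (tilde N) h (tau N V n) = tau N V' n := rfl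

theorem tau_top : Bijective (tau N ⊤) :=
  ConcreteCategory.bijective_of_isIso (tilde.toOpen N ⊤)

theorem bij_rM {X : Scheme.{0}} (M : X.Modules) {V V' : X.Opens} (h : V' ≤ V)
    (e : V' = V) : Bijective (rM M h) := by
  subst e
  have : ∀ s, rM M h s = s := fun s => rM_self h s
  exact ⟨fun a b hab => by rwa [this, this] at hab, fun s => ⟨s, this s⟩⟩

theorem tau_bij {V : (Spec R).Opens} (h : V = ⊤) : Bijective (tau N V) := by
  subst h
  exact tau_top N

theorem fromT (M : (Spec R).Modules) (V : (Spec R).Opens) (x : Γ(M, ⊤)) :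
    ap M.fromTildeΓ V (tau ((modulesSpecToSheaf.obj M).presheaf.obj (.op ⊤)) V x) =
      rM M (le_top : V ≤ ⊤) x :=
  congr($(Scheme.Modules.toOpen_fromTildeΓ_app M V) x)

theorem mapT {N' : ModuleCat.{0} R} (f : N' ⟶ N) (V : (Spec R).Opens) (x : N') :
    ap (tilde.map f) V (tau N' V x) = tau N V (f x) :=
  congr($(tilde.toOpen_map_app f V) x)

/-- morphisms from a localizing sheaf on the spectrum -/
theorem p1_homSpec (G P : (Spec R).Modules) (hG : IsIso G.fromTildeΓ) (g : Γ(G, ⊤) →ₗ[R] Γ(P, ⊤)) :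
    ∃ v : G ⟶ P, ∀ (V : (Spec R).Opens) (x : Γ(G, ⊤)),
      ap v V (rM G (le_top : V ≤ ⊤) x) = rM P (le_top : V ≤ ⊤) (g x) := by
  let h₁ : ModuleCat.of R Γ(G, ⊤) ⟶ ModuleCat.of R Γ(P, ⊤) := ModuleCat.ofHom g
  let h' : (modulesSpecToSheaf.obj G).presheaf.obj (.op ⊤) ⟶
    (modulesSpecToSheaf.obj P).presheaf.obj (.op ⊤) := h₁
  refine ⟨inv G.fromTildeΓ ≫ tilde.map h' ≫ P.fromTildeΓ, fun V x => ?_⟩
  rw [← fromT G, ← ap_comp, IsIso.hom_inv_id_assoc, ap_comp]
  exact (congrArg (ap P.fromTildeΓ V) (mapT _ h' V x)).trans (fromT P V (g x))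

end spec

section main

variable {X : Scheme.{0}} {U : X.Opens} (hU : IsAffineOpen U)

/-- morphisms to a push-forward from the spectrum of an affine open -/
theorem p1_hom (F : X.Modules) (hF : IsIso (F.restrict hU.fromSpec).fromTildeΓ)
    (P : (Spec Γ(X, U)).Modules) (g : Γ(F, U) →+ Γ(P, ⊤))
    (hg : ∀ (r : Γ(X, U)) (s : Γ(F, U)), g (r • s) = r • g s) :
    ∃ u : F ⟶ pf hU.fromSpec P, ∀ s : Γ(F, U), (show Γ(P, hU.fromSpec ⁻¹ᵁ U) from ap u U s) =
      rM P (le_top : hU.fromSpec ⁻¹ᵁ U ≤ ⊤) (g s) := by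
  let G : (Spec Γ(X, U)).Modules := F.restrict hU.fromSpec
  let hl : Γ(G, ⊤) →ₗ[Γ(X, U)] Γ(P, ⊤) :=
    { toFun := fun x => g (S2_e F hU (S2_top hU) x)
      map_add' := fun x y => by
        have := map_add (S2_e F hU (S2_top hU)) x y
        exact (congrArg g this).trans (map_add g _ _)
      map_smul' := fun r x => by
        have h1 := S2_e_smul F hU (S2_top hU) le_rfl r x
        rw [rO_self] at h1
        exact (congrArg g h1).trans (hg r _) }
  obtain ⟨v, hv⟩ := p1_homSpec G P hF hl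
  refine ⟨(Scheme.Modules.restrictAdjunction hU.fromSpec).unit.app F ≫
    (Scheme.Modules.pushforward hU.fromSpec).map v, fun s => ?_⟩
  let x : Γ(G, ⊤) := S2_f F hU (S2_top hU) s
  have h1 : ap ((Scheme.Modules.restrictAdjunction hU.fromSpec).unit.app F ≫
      (Scheme.Modules.pushforward hU.fromSpec).map v) U s =
      ap v (hU.fromSpec ⁻¹ᵁ U) (rM G (le_top : hU.fromSpec ⁻¹ᵁ U ≤ ⊤) x) := by
    have h2 : rM G (le_top : hU.fromSpec ⁻¹ᵁ U ≤ ⊤) x =
        rM F (hU.fromSpec.image_preimage_le U) s :=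
      rM_rM (M := F) (S2_top hU).le (Scheme.Hom.image_mono hU.fromSpec le_top) s
    rw [h2]
    rfl
  refine h1.trans ((hv (hU.fromSpec ⁻¹ᵁ U) x).trans ?_)
  have h3 : hl x = g s := by
    show g (S2_e F hU (S2_top hU) (S2_f F hU (S2_top hU) s)) = _
    rw [S2_ef]
  rw [h3]


/-- the sheaf `j_* (tilde N)` -/
def EE (N : ModuleCat.{0} Γ(X, U)) : X.Modules := pf hU.fromSpec (tilde N)

/-- the map `N → Γ(E, U)` -/
def etaE (N : ModuleCat.{0} Γ(X, U)) : N →ₗ[Γ(X, U)] Γ(EE hU N, U) where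
  toFun n := tau N (hU.fromSpec ⁻¹ᵁ U) n
  map_add' x y := map_add _ x y
  map_smul' r x := by
    rw [tau_smul, RingHom.id_apply]
    have h1 : (Spec Γ(X, U)).presheaf.map (homOfLE (le_top : hU.fromSpec ⁻¹ᵁ U ≤ ⊤)).op
        ((Scheme.ΓSpecIso Γ(X, U)).inv r) = hU.fromSpec.app U r := by
      rw [hU.fromSpec_app_self]
      rfl
    rw [Scheme.Modules.smul_Spec_def]
    change _ = (hU.fromSpec.app U r) • (tau N (hU.fromSpec ⁻¹ᵁ U) x)
    rw [← h1]
    rfl

theorem etaE_bij (N : ModuleCat.{0} Γ(X, U)) : Bijective (etaE hU N) :=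
  tau_bij N hU.fromSpec_preimage_self

end main

section ex

variable {X Y : Scheme.{0}} (f : Y ⟶ X) (M : X.Modules) {U : X.Opens} {V : Y.Opens}
  (h : V ≤ f ⁻¹ᵁ U) (hU : IsAffineOpen U) (hV : IsAffineOpen V)

/-- the composite push-forwards agree -/
def p1_th (P : (Spec Γ(Y, V)).Modules) : pf hU.fromSpec (pf (Spec.map (f.appLE U V h)) P) ⟶
    pf f (pf hV.fromSpec P) :=
  (Scheme.Modules.pushforwardComp (Spec.map (f.appLE U V h)) hU.fromSpec).hom.app P ≫
    (Scheme.Modules.pushforwardCongr (IsAffineOpen.SpecMap_appLE_fromSpec f hU hV h)).hom.app P ≫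
    (Scheme.Modules.pushforwardComp hV.fromSpec f).inv.app P

theorem p1_th_app (P : (Spec Γ(Y, V)).Modules) (W : X.Opens)
    (hW : hV.fromSpec ⁻¹ᵁ f ⁻¹ᵁ W ≤ Spec.map (f.appLE U V h) ⁻¹ᵁ hU.fromSpec ⁻¹ᵁ W)
    (x : Γ(P, Spec.map (f.appLE U V h) ⁻¹ᵁ hU.fromSpec ⁻¹ᵁ W)) :
    (show Γ(P, hV.fromSpec ⁻¹ᵁ f ⁻¹ᵁ W) from ap (p1_th f h hU hV P) W x) = rM P hW x := rfl

theorem p1_smul (Q : ModuleCat.{0} Γ(Y, V)) (r : Γ(X, U)) (q : Q) :
    (show Γ(pf (Spec.map (f.appLE U V h)) (tilde Q), ⊤) from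
      tau Q (Spec.map (f.appLE U V h) ⁻¹ᵁ ⊤) ((f.appLE U V h).hom r • q)) =
    r • (show Γ(pf (Spec.map (f.appLE U V h)) (tilde Q), ⊤) from
      tau Q (Spec.map (f.appLE U V h) ⁻¹ᵁ ⊤) q) := by
  have h1 : (Spec.map (f.appLE U V h)).app ⊤ ((Scheme.ΓSpecIso Γ(X, U)).inv r) =
      (Scheme.ΓSpecIso Γ(Y, V)).inv ((f.appLE U V h).hom r) :=
    congr($(Scheme.ΓSpecIso_inv_naturality (f.appLE U V h)).hom r).symm
  have h2 : (Spec Γ(X, U)).presheaf.map (⊤ : (Spec Γ(X, U)).Opens).leTop.op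
      ((Scheme.ΓSpecIso Γ(X, U)).inv r) = (Scheme.ΓSpecIso Γ(X, U)).inv r := by
    exact rO_self (X := Spec Γ(X, U)) le_rfl _
  have h3 : (Spec Γ(Y, V)).presheaf.map (Spec.map (f.appLE U V h) ⁻¹ᵁ ⊤).leTop.op
      ((Scheme.ΓSpecIso Γ(Y, V)).inv ((f.appLE U V h).hom r)) =
      (Scheme.ΓSpecIso Γ(Y, V)).inv ((f.appLE U V h).hom r) := by
    exact rO_self (X := Spec Γ(Y, V)) le_rfl _
  rw [tau_smul, Scheme.Modules.smul_Spec_def, Scheme.Modules.smul_Spec_def, h2, h3, ← h1]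
  rfl

include hV in
/-- the universal property, existence -/
theorem p1_ex (hM : IsIso (M.restrict hU.fromSpec).fromTildeΓ) (Q : ModuleCat.{0} Γ(Y, V))
    (g : Γ(M, U) →+ Q)
    (hg : ∀ (a : Γ(X, U)) (m : Γ(M, U)), g (a • m) = (f.appLE U V h).hom a • g m) :
    ∃ l : Γ(pb f M, V) →ₗ[Γ(Y, V)] Q, ∀ m, l (es f M U V h m) = g m := by
  let P : (Spec Γ(X, U)).Modules := pf (Spec.map (f.appLE U V h)) (tilde Q)
  let g' : Γ(M, U) →+ Γ(P, ⊤) := (tau Q (Spec.map (f.appLE U V h) ⁻¹ᵁ ⊤)).comp g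
  obtain ⟨u, hu⟩ := p1_hom hU M hM P g' (fun r s => by
    have h1 := hg r s
    exact (congrArg (tau Q (Spec.map (f.appLE U V h) ⁻¹ᵁ ⊤)) h1).trans
      (p1_smul f h Q r (g s)))
  let u' : M ⟶ pf f (EE hV Q) := u ≫ p1_th f h hU hV (tilde Q)
  let a : pb f M ⟶ EE hV Q :=
    ((Scheme.Modules.pullbackPushforwardAdjunction f).homEquiv M (EE hV Q)).symm u'
  have ha : eta f M ≫ (Scheme.Modules.pushforward f).map a = u' := by
    have h2 := (Scheme.Modules.pullbackPushforwardAdjunction f).homEquiv_unit (X := M)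
      (Y := EE hV Q) (f := a)
    rw [Equiv.apply_symm_apply] at h2
    exact h2.symm
  refine ⟨(LinearEquiv.ofBijective (etaE hV Q) (etaE_bij hV Q)).symm.toLinearMap.comp (ap a V),
    fun m => ?_⟩
  show (LinearEquiv.ofBijective (etaE hV Q) (etaE_bij hV Q)).symm (ap a V (es f M U V h m)) = _
  rw [LinearEquiv.symm_apply_eq]
  show ap a V (es f M U V h m) = etaE hV Q (g m)
  have h3 : ap a V (es f M U V h m) = rM (EE hV Q) h
      (show Γ(EE hV Q, f ⁻¹ᵁ U) from ap u' U m) := by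
    show ap a V (rM (pb f M) h (show Γ(pb f M, f ⁻¹ᵁ U) from ap (eta f M) U m)) = _
    rw [← rM_ap, ← ha]
    rfl
  rw [h3]
  have h4 : (show Γ(EE hV Q, f ⁻¹ᵁ U) from ap u' U m) =
      (show Γ(EE hV Q, f ⁻¹ᵁ U) from ap (p1_th f h hU hV (tilde Q)) U (ap u U m)) := rfl
  have h5 : ap u U m = (show Γ(pf hU.fromSpec P, U) from
    rM P (le_top : hU.fromSpec ⁻¹ᵁ U ≤ ⊤) (g' m)) := hu m
  rw [h4, h5]
  rfl

end ex

section un

/-- morphisms to a sheaf concentrated on an affine open -/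
theorem p1_ext {X : Scheme.{0}} {U : X.Opens} (hU : IsAffineOpen U) (M E : X.Modules)
    (hM : QLoc M) (hE : ∀ W : X.Opens, Injective (rM E (inf_le_left : W ⊓ U ≤ W)))
    (b b' : M ⟶ E) (h : ∀ m : Γ(M, U), ap b U m = ap b' U m) : b = b' := by
  have h1 : ∀ (g : Γ(X, U)) (s : Γ(M, X.basicOpen g)),
      ap b (X.basicOpen g) s = ap b' (X.basicOpen g) s := by
    intro g s
    obtain ⟨n, t, ht⟩ := (hM U hU g).1 s
    have hu : IsUnit (rO (X.basicOpen_le g) g) := by
      exact RingedSpace.isUnit_res_basicOpen X.toRingedSpace g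
    have h2 : rO (X.basicOpen_le g) g ^ n • ap b (X.basicOpen g) s =
        rO (X.basicOpen_le g) g ^ n • ap b' (X.basicOpen g) s := by
      rw [← map_smul, ← map_smul, ← ht, ← rM_ap, ← rM_ap, h]
    exact (hu.pow n).smul_left_cancel.1 h2
  have h2 : ∀ W : X.Opens, W ≤ U → ∀ s : Γ(M, W), ap b W s = ap b' W s := by
    intro W hW s
    refine TopCat.Presheaf.IsSheaf.section_ext E.isSheaf fun x hx => ?_
    obtain ⟨g, hg, hxg⟩ := hU.exists_basicOpen_le ⟨x, hx⟩ (hW hx)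
    refine ⟨X.basicOpen g, hg, hxg, ?_⟩
    have h3 : rM E hg (ap b W s) = rM E hg (ap b' W s) := by
      rw [rM_ap, rM_ap, h1]
    exact h3
  refine hom_ext_ap fun W s => hE W ?_
  rw [rM_ap, rM_ap]
  exact h2 _ inf_le_right _

variable {X Y : Scheme.{0}} (f : Y ⟶ X) (M : X.Modules) {U : X.Opens} {V : Y.Opens}
  (h : V ≤ f ⁻¹ᵁ U) (hU : IsAffineOpen U) (hV : IsAffineOpen V)

theorem p1_pre (h : V ≤ f ⁻¹ᵁ U) : hV.fromSpec ⁻¹ᵁ f ⁻¹ᵁ U = ⊤ := by
  rw [eq_top_iff, ← hV.fromSpec_preimage_self]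
  exact Scheme.Hom.preimage_mono _ h

include hU hV in
/-- the universal property, uniqueness -/
theorem p1_un (hM : QLoc M) (hf : IsIso ((pb f M).restrict hV.fromSpec).fromTildeΓ)
    (Q : ModuleCat.{0} Γ(Y, V)) (l l' : Γ(pb f M, V) →ₗ[Γ(Y, V)] Q)
    (hl : ∀ m, l (es f M U V h m) = l' (es f M U V h m)) : l = l' := by
  have key : ∀ l : Γ(pb f M, V) →ₗ[Γ(Y, V)] Q, ∃ a : pb f M ⟶ EE hV Q, ∀ s,
      ap a V s = etaE hV Q (l s) := by
    intro l
    obtain ⟨a, ha⟩ := p1_hom hV (pb f M) hf (tilde Q) ((tau Q ⊤).comp l.toAddMonoidHom)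
      (fun r s => by
        show tau Q ⊤ (l (r • s)) = r • tau Q ⊤ (l s)
        rw [map_smul, tau_smul])
    refine ⟨a, fun s => ?_⟩
    exact ha s
  obtain ⟨a, ha⟩ := key l
  obtain ⟨a', ha'⟩ := key l'
  have h1 : a = a' := by
    refine ((Scheme.Modules.pullbackPushforwardAdjunction f).homEquiv M (EE hV Q)).injective ?_
    rw [Adjunction.homEquiv_unit, Adjunction.homEquiv_unit]
    refine p1_ext hU M (pf f (EE hV Q)) hM ?_ _ _ ?_
    · intro W
      have h2 : hV.fromSpec ⁻¹ᵁ f ⁻¹ᵁ (W ⊓ U) = hV.fromSpec ⁻¹ᵁ f ⁻¹ᵁ W := by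
        have h3 : hV.fromSpec ⁻¹ᵁ f ⁻¹ᵁ (W ⊓ U) =
          (hV.fromSpec ⁻¹ᵁ f ⁻¹ᵁ W) ⊓ (hV.fromSpec ⁻¹ᵁ f ⁻¹ᵁ U) := rfl
        rw [h3, p1_pre f hV h, inf_top_eq]
      exact (bij_rM (tilde Q) h2.le h2).1
    · intro m
      have h2 : hV.fromSpec ⁻¹ᵁ V = hV.fromSpec ⁻¹ᵁ f ⁻¹ᵁ U := by
        rw [p1_pre f hV h, hV.fromSpec_preimage_self]
      refine (bij_rM (tilde Q) h2.le h2).1 ?_
      have h3 : ∀ a : pb f M ⟶ EE hV Q, rM (EE hV Q) h (show Γ(EE hV Q, f ⁻¹ᵁ U) from
          ap (eta f M ≫ (Scheme.Modules.pushforward f).map a) U m) =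
          ap a V (es f M U V h m) := by
        intro a
        show _ = ap a V (rM (pb f M) h (show Γ(pb f M, f ⁻¹ᵁ U) from ap (eta f M) U m))
        rw [← rM_ap]
        rfl
      have h4 := (h3 a).trans ((ha _).trans ((congrArg (etaE hV Q) (hl m)).trans
        ((ha' _).symm.trans (h3 a').symm)))
      exact h4
  ext s
  refine (etaE_bij hV Q).1 ?_
  rw [← ha, ← ha', h1]

end un

/-- **P1**: the pull-back of a quasi-coherent sheaf is quasi-coherent, with sections the base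
changes. -/
theorem thm_P1 : St_P1 := by
  intro X Y f M hM
  refine ⟨p1_qc f M hM, fun U V h hU hV => ?_⟩
  have h1 : (M.restrict hU.fromSpec).IsQuasicoherent :=
    Scheme.Modules.isQuasicoherent_restrictFunctor hU.fromSpec M
  have h2 : IsIso (M.restrict hU.fromSpec).fromTildeΓ :=
    Scheme.Modules.isIso_fromTildeΓ_of_isQuasicoherent _
  refine p1_bch _ _ (fun a m => es_smul f M U V h a m) ?_ ?_
  · intro Q _ _ g hg
    exact p1_ex f M h hU hV h2 (ModuleCat.of Γ(Y, V) Q) g hg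
  · intro l l' hl
    exact p1_un f M h hU hV ((thm_S2 X M).1 hM) (p1_tilde f M hM h hU hV)
      (ModuleCat.of Γ(Y, V) Γ(pb f M, V)) l l' hl

end Pool.Agent.KIN
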