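import Pool.Agent.KIN.St
import Pool.Agent.KSS.All

/-!
# KIN, P2: flat pull-back of coherent sheaves is exact; open immersions
-/

set_option autoImplicit false

noncomputable section

namespace Pool.Agent.KIN

open CategoryTheory AlgebraicGeometry TopologicalSpace Function Pool.Agent.KSS
open Pool.Agent.Helper11

/-- Every point of `Y` lies in an affine open `V ≤ f⁻¹ U` with `U` affine. -/
theorem p2_cover {X Y : Scheme.{0}} (f : Y ⟶ X) (y : Y) : ∃ (U : X.Opens) (V : Y.Opens),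
    IsAffineOpen U ∧ IsAffineOpen V ∧ y ∈ V ∧ V ≤ f ⁻¹ᵁ U := by
  obtain ⟨U, hU, hyU, -⟩ := exists_isAffineOpen_mem_and_subset (X := X) (x := f y) (U := ⊤) trivial
  obtain ⟨V, hV, hyV, hVU⟩ := exists_isAffineOpen_mem_and_subset (X := Y) (x := y)
    (U := f ⁻¹ᵁ U) hyU
  exact ⟨U, V, hU, hV, hyV, hVU⟩

/-- exactness -/
theorem p2_exact (hA : St_A0) (hL : St_L0) (hP : St_P1) (X Y : Scheme.{0}) (f : Y ⟶ X) [Flat f]
    (S : ShortComplex X.Modules) (h₁ : S.X₁.IsQuasicoherent) (h₂ : S.X₂.IsQuasicoherent)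
    (h₃ : S.X₃.IsQuasicoherent) (hS : S.ShortExact) :
    (S.map (Scheme.Modules.pullback f)).ShortExact := by
  refine (hL Y).1 _ (hP X Y f _ h₁).1 (hP X Y f _ h₂).1 (hP X Y f _ h₃).1 fun y => ?_
  obtain ⟨U, V, hU, hV, hyV, hVU⟩ := p2_cover f y
  have hm : Mono S.f := hS.mono_f
  have e := hA.2.2.2.1 Γ(X, U) Γ(Y, V) Γ(S.X₁, U) Γ(S.X₂, U) Γ(S.X₃, U) Γ(pb f S.X₁, V)
    Γ(pb f S.X₂, V) Γ(pb f S.X₃, V) (f.appLE U V hVU).hom (es f S.X₁ U V hVU)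
    (es f S.X₂ U V hVU) (es f S.X₃ U V hVU) (ap S.f U) (ap S.g U)
    (ap ((Scheme.Modules.pullback f).map S.f) V) (ap ((Scheme.Modules.pullback f).map S.g) V)
    ((hP X Y f _ h₁).2 U V hVU hU hV) ((hP X Y f _ h₂).2 U V hVU hU hV)
    ((hP X Y f _ h₃).2 U V hVU hU hV) (fun m => es_nat f S.f U V hVU m)
    (fun m => es_nat f S.g U V hVU m)
  have hs : Surjective (ap S.g U) := (all_S3 X S hS h₁ h₂).2 U hU
  have hi : Injective (ap S.f U) := (thm_S1 X).1 _ _ S.f hm U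
  have hx : ∀ m, ap S.g U m = 0 ↔ ∃ m₁, ap S.f U m₁ = m := fun m =>
    ⟨(thm_S1 X).2.1 S hS.exact hm U m, by
      rintro ⟨m₁, rfl⟩
      rw [← ap_comp, S.zero]
      rfl⟩
  have hfl : (f.appLE U V hVU).hom.Flat := f.flat_appLE hU hV hVU
  exact ⟨V, hV, hyV, e.2.2 hfl hi, e.2.1 hs hx, e.1 hs⟩

/-- coherence -/
theorem p2_coh (hA : St_A0) (hL : St_L0) (hP : St_P1) (X Y : Scheme.{0}) (f : Y ⟶ X)
    (M : X.Modules) (hM : IsCoh M) : IsCoh (pb f M) := by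
  refine (hL Y).2.2.2 _ (hP X Y f _ hM.1).1 fun y => ?_
  obtain ⟨U, V, hU, hV, hyV, hVU⟩ := p2_cover f y
  exact ⟨V, hV, hyV, hA.2.2.1 _ _ _ _ _ _ ((hP X Y f _ hM.1).2 U V hVU hU hV) (hM.2 U hU)⟩

/-- **P2** -/
theorem thm_P2 (hA : St_A0) (hL : St_L0) (hP : St_P1) : St_P2 := by
  refine ⟨fun X Y f _ S h₁ h₂ h₃ hS => p2_exact hA hL hP X Y f S h₁ h₂ h₃ hS,
    fun X Y _ _ f M hM => p2_coh hA hL hP X Y f M hM, ?_, ?_⟩
  · intro X Y _ _ f _ M hM hM'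
    have hok : PullOK f := ⟨fun M hM => p2_coh hA hL hP X Y f M hM,
      fun S h₁ h₂ h₃ hS => cl_add (S.map (Scheme.Modules.pullback f))
        (p2_exact hA hL hP X Y f S h₁.1 h₂.1 h₃.1 hS) _ _ _⟩
    unfold pullK
    rw [dif_pos hok]
    exact K0lift_cl _ _ M hM
  · intro X U j _ M hM W hW hWj
    have hV : IsAffineOpen (j ⁻¹ᵁ W) := hW.preimage_of_isOpenImmersion j hWj
    have hb : Bijective (j.appLE W (j ⁻¹ᵁ W) le_rfl).hom := by
      have h1 : IsIso (j.app W) := j.isIso_app W hWj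
      have h2 : j.appLE W (j ⁻¹ᵁ W) le_rfl = j.app W := by
        rw [Scheme.Hom.app_eq_appLE]
      rw [h2]
      exact ConcreteCategory.bijective_of_isIso (j.app W)
    exact (hA.2.2.2.2.2.2.2.2.2.2.2 _ _ _ _ _ (es j M W (j ⁻¹ᵁ W) le_rfl) hb
      (fun a m => es_smul j M W (j ⁻¹ᵁ W) le_rfl a m)).1
      ((hP X U j M hM).2 W (j ⁻¹ᵁ W) le_rfl hW hV)

end Pool.Agent.KIN
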