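import Pool.Agent.KIN.St

/-!
# KIN, P4: base change for an affine morphism
-/

set_option autoImplicit false

noncomputable section

namespace Pool.Agent.KIN

open CategoryTheory AlgebraicGeometry TopologicalSpace Function Pool.Agent.KSS
open Pool.Agent.Helper11

/-- push-forwards of quasi-coherent sheaves along affine morphisms -/
theorem p4_qc {X Y : Scheme.{0}} (f : X ⟶ Y) [IsAffineHom f] (M : X.Modules)
    (hM : M.IsQuasicoherent) : (pf f M).IsQuasicoherent :=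
  (thm_S6 thm_S1 thm_S2 (thm_S3 thm_S1 thm_S2) Y X f).1 M hM

/-- the algebra of cocartesian squares -/
theorem p4_alg (hA0 : St_A0) (A B C D : Type) [CommRing A] [CommRing B] [CommRing C] [CommRing D]
    (φ : A →+* B) (α : A →+* C) (β : B →+* D) (ψ : C →+* D)
    (H : IsPushout (CommRingCat.ofHom α) (CommRingCat.ofHom φ) (CommRingCat.ofHom ψ)
      (CommRingCat.ofHom β)) (M N : Type) [AddCommGroup M] [Module C M] [Module A M]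
    (hM : ∀ (a : A) (m : M), a • m = α a • m) [AddCommGroup N] [Module D N] [Module B N]
    (hN : ∀ (b : B) (n : N), b • n = β b • n) (h : M →+ N) (hh : BCh ψ h) : BCh φ h := by
  let iAB : Algebra A B := φ.toAlgebra
  let iAC : Algebra A C := α.toAlgebra
  let iBD : Algebra B D := β.toAlgebra
  let iCD : Algebra C D := ψ.toAlgebra
  let iAD : Algebra A D := (β.comp φ).toAlgebra
  have s1 : IsScalarTower A B D := IsScalarTower.of_algebraMap_eq' rfl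
  have s2 : IsScalarTower A C D := by
    refine IsScalarTower.of_algebraMap_eq' ?_
    have h1 := congrArg CommRingCat.Hom.hom H.w
    exact h1.symm
  have s3 : IsScalarTower A C M := ⟨fun a c m => by
    rw [hM, Algebra.smul_def, mul_smul]
    rfl⟩
  have s4 : IsScalarTower B D N := ⟨fun b d n => by
    rw [hN, Algebra.smul_def, mul_smul]
    rfl⟩
  have s5 : Algebra.IsPushout A B C D := CommRingCat.isPushout_iff_isPushout.1 H.flip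
  exact hA0.2.2.2.2.2.2.2.2.1 A B C D M N h hh

section square

variable {X' X Y' Y : Scheme.{0}} (g' : X' ⟶ X) (f' : X' ⟶ Y') (f : X ⟶ Y) (g : Y' ⟶ Y)

/-- the morphism `f_* M → g_* f'_* g'^* M` -/
def p4_theta (w : g' ≫ f = f' ≫ g) (M : X.Modules) : pf f M ⟶ pf g (pf f' (pb g' M)) :=
  (Scheme.Modules.pushforward f).map (eta g' M) ≫
    (Scheme.Modules.pushforwardComp g' f).hom.app (pb g' M) ≫
    (Scheme.Modules.pushforwardCongr w).hom.app (pb g' M) ≫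
    (Scheme.Modules.pushforwardComp f' g).inv.app (pb g' M)

/-- the base change morphism -/
def p4_c (w : g' ≫ f = f' ≫ g) (M : X.Modules) : pb g (pf f M) ⟶ pf f' (pb g' M) :=
  ((Scheme.Modules.pullbackPushforwardAdjunction g).homEquiv _ _).symm (p4_theta g' f' f g w M)

theorem p4_eta (w : g' ≫ f = f' ≫ g) (M : X.Modules) :
    eta g (pf f M) ≫ (Scheme.Modules.pushforward g).map (p4_c g' f' f g w M) =
      p4_theta g' f' f g w M := by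
  have h := ((Scheme.Modules.pullbackPushforwardAdjunction g).homEquiv
    (pf f M) (pf f' (pb g' M))).apply_symm_apply (p4_theta g' f' f g w M)
  rw [Adjunction.homEquiv_unit] at h
  exact h

theorem p4_le (w : g' ≫ f = f' ≫ g) {U : Y.Opens} {V : Y'.Opens} (h : V ≤ g ⁻¹ᵁ U) :
    f' ⁻¹ᵁ V ≤ g' ⁻¹ᵁ (f ⁻¹ᵁ U) := by
  intro x hx
  have h1 : g (f' x) ∈ U := h hx
  have h2 : f (g' x) = g (f' x) := by
    rw [← Scheme.Hom.comp_apply, ← Scheme.Hom.comp_apply, w]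
  show f (g' x) ∈ U
  rw [h2]
  exact h1

theorem p4_theta_ap (w : g' ≫ f = f' ≫ g) (M : X.Modules) (U : Y.Opens)
    (h : f' ⁻¹ᵁ (g ⁻¹ᵁ U) ≤ g' ⁻¹ᵁ (f ⁻¹ᵁ U))
    (m : Γ(M, f ⁻¹ᵁ U)) :
    (show Γ(pb g' M, f' ⁻¹ᵁ (g ⁻¹ᵁ U)) from ap (p4_theta g' f' f g w M) U m) =
      es g' M (f ⁻¹ᵁ U) (f' ⁻¹ᵁ (g ⁻¹ᵁ U)) h m := rfl

theorem p4_c_es (w : g' ≫ f = f' ≫ g) (M : X.Modules) (U : Y.Opens) (V : Y'.Opens)
    (h : V ≤ g ⁻¹ᵁ U) (h' : f' ⁻¹ᵁ V ≤ g' ⁻¹ᵁ (f ⁻¹ᵁ U)) (m : Γ(M, f ⁻¹ᵁ U)) :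
    (show Γ(pb g' M, f' ⁻¹ᵁ V) from
      ap (p4_c g' f' f g w M) V (es g (pf f M) U V h m)) =
      es g' M (f ⁻¹ᵁ U) (f' ⁻¹ᵁ V) h' m := by
  have h0 : f' ⁻¹ᵁ (g ⁻¹ᵁ U) ≤ g' ⁻¹ᵁ (f ⁻¹ᵁ U) := p4_le g' f' f g w le_rfl
  have h1 : (show Γ(pb g' M, f' ⁻¹ᵁ (g ⁻¹ᵁ U)) from
      ap (p4_c g' f' f g w M) (g ⁻¹ᵁ U) (ap (eta g (pf f M)) U m)) =
      es g' M (f ⁻¹ᵁ U) (f' ⁻¹ᵁ (g ⁻¹ᵁ U)) h0 m := by
    have h2 := congrArg (fun t => ap t U m) (p4_eta g' f' f g w M)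
    exact h2.trans (p4_theta_ap g' f' f g w M U h0 m)
  have h3 : f' ⁻¹ᵁ V ≤ f' ⁻¹ᵁ (g ⁻¹ᵁ U) := fun x hx => h hx
  have h4 : (ap (p4_c g' f' f g w M) V (es g (pf f M) U V h m)) =
      rM (pf f' (pb g' M)) h (ap (p4_c g' f' f g w M) (g ⁻¹ᵁ U) (ap (eta g (pf f M)) U m)) :=
    (rM_ap (p4_c g' f' f g w M) h _).symm
  have h5 : (show Γ(pb g' M, f' ⁻¹ᵁ V) from
      rM (pf f' (pb g' M)) h (ap (p4_c g' f' f g w M) (g ⁻¹ᵁ U) (ap (eta g (pf f M)) U m))) =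
      rM (pb g' M) h3 (show Γ(pb g' M, f' ⁻¹ᵁ (g ⁻¹ᵁ U)) from
        ap (p4_c g' f' f g w M) (g ⁻¹ᵁ U) (ap (eta g (pf f M)) U m)) := rfl
  rw [h4]
  refine h5.trans ?_
  rw [h1]
  exact es_res g' M (f ⁻¹ᵁ U) _ _ h0 h3 m

/-- the rings of sections -/
theorem p4_ring (H : IsPullback g' f' f g) (U : Y.Opens) (V : Y'.Opens) (hU : IsAffineOpen U)
    (hV : IsAffineOpen V) [IsAffineHom f] (h : V ≤ g ⁻¹ᵁ U)
    (h' : f' ⁻¹ᵁ V ≤ g' ⁻¹ᵁ (f ⁻¹ᵁ U)) (h'' : f' ⁻¹ᵁ V ≤ f' ⁻¹ᵁ V) :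
    IsPushout (f.appLE U (f ⁻¹ᵁ U) le_rfl) (g.appLE U V h)
      (g'.appLE (f ⁻¹ᵁ U) (f' ⁻¹ᵁ V) h') (f'.appLE V (f' ⁻¹ᵁ V) h'') := by
  have hUY : f' ⁻¹ᵁ V = g' ⁻¹ᵁ (f ⁻¹ᵁ U) ⊓ f' ⁻¹ᵁ V := by
    rw [inf_eq_right.2 h']
  have h1 := isIso_pushoutSection_of_isAffineOpen H h (UX := f ⁻¹ᵁ U) le_rfl hUY hU hV
    (hU.preimage f)
  exact (isIso_pushoutSection_iff H h le_rfl hUY).1 h1

/-- the base change morphism is bijective over affine opens -/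
theorem p4_bij (hA0 : St_A0) (hP1 : St_P1) (H : IsPullback g' f' f g) [IsAffineHom f]
    [IsAffineHom f'] (M : X.Modules) (hM : M.IsQuasicoherent) (U : Y.Opens) (V : Y'.Opens)
    (hU : IsAffineOpen U) (hV : IsAffineOpen V) (h : V ≤ g ⁻¹ᵁ U) :
    Bijective (ap (p4_c g' f' f g H.w M) V) := by
  have h' : f' ⁻¹ᵁ V ≤ g' ⁻¹ᵁ (f ⁻¹ᵁ U) := p4_le g' f' f g H.w h
  have hb1 : BCh (g.appLE U V h).hom (es g (pf f M) U V h) :=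
    (hP1 Y Y' g (pf f M) (p4_qc f M hM)).2 U V h hU hV
  have hb2 : BCh (g'.appLE (f ⁻¹ᵁ U) (f' ⁻¹ᵁ V) h').hom (es g' M (f ⁻¹ᵁ U) (f' ⁻¹ᵁ V) h') :=
    (hP1 X X' g' M hM).2 (f ⁻¹ᵁ U) (f' ⁻¹ᵁ V) h' (hU.preimage f) (hV.preimage f')
  have hb3 : @BCh Γ(Y, U) Γ(Y', V) _ _ (g.appLE U V h).hom Γ(pf f M, U)
      Γ(pf f' (pb g' M), V) _ _ _ _ (es g' M (f ⁻¹ᵁ U) (f' ⁻¹ᵁ V) h') := by
    let i1 : Module Γ(X, f ⁻¹ᵁ U) Γ(pf f M, U) :=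
      inferInstanceAs (Module Γ(X, f ⁻¹ᵁ U) Γ(M, f ⁻¹ᵁ U))
    let i2 : Module Γ(X', f' ⁻¹ᵁ V) Γ(pf f' (pb g' M), V) :=
      inferInstanceAs (Module Γ(X', f' ⁻¹ᵁ V) Γ(pb g' M, f' ⁻¹ᵁ V))
    refine p4_alg hA0 Γ(Y, U) Γ(Y', V) Γ(X, f ⁻¹ᵁ U) Γ(X', f' ⁻¹ᵁ V) (g.appLE U V h).hom
      (f.appLE U (f ⁻¹ᵁ U) le_rfl).hom (f'.appLE V (f' ⁻¹ᵁ V) le_rfl).hom
      (g'.appLE (f ⁻¹ᵁ U) (f' ⁻¹ᵁ V) h').hom
      (p4_ring g' f' f g H U V hU hV h h' le_rfl) Γ(pf f M, U) Γ(pf f' (pb g' M), V) ?_ ?_ _ hb2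
    · intro a m
      rw [Scheme.Hom.appLE_eq_app]
      rfl
    · intro a m
      rw [Scheme.Hom.appLE_eq_app]
      rfl
  exact hA0.2.2.2.2.1 _ _ _ _ _ (g.appLE U V h).hom (es g (pf f M) U V h) _
    (ap (p4_c g' f' f g H.w M) V) hb1 hb3 fun m => p4_c_es g' f' f g H.w M U V h h' m

end square

theorem thm_P4 (hA0 : St_A0) (hL0 : St_L0) (hP1 : St_P1) : St_P4 := by
  intro X' X Y' Y g' f' f g _ _ H M hM
  have hq1 : (pb g (pf f M)).IsQuasicoherent := (hP1 Y Y' g (pf f M) (p4_qc f M hM)).1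
  have hq2 : (pf f' (pb g' M)).IsQuasicoherent := p4_qc f' _ (hP1 X X' g' M hM).1
  have hiso : IsIso (p4_c g' f' f g H.w M) := by
    refine (hL0 Y').2.1 _ _ _ hq1 hq2 fun y => ?_
    obtain ⟨_, ⟨U, hU, rfl⟩, hyU, -⟩ := Y.isBasis_affineOpens.exists_subset_of_mem_open
      (Set.mem_univ (g y)) isOpen_univ
    obtain ⟨_, ⟨V, hV, rfl⟩, hyV, hVU⟩ := Y'.isBasis_affineOpens.exists_subset_of_mem_open
      (show y ∈ ((g ⁻¹ᵁ U : Y'.Opens) : Set Y') from hyU) (g ⁻¹ᵁ U).isOpen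
    exact ⟨V, hV, hyV, p4_bij g' f' f g hA0 hP1 H M hM U V hU hV hVU⟩
  exact ⟨asIso (p4_c g' f' f g H.w M)⟩

end Pool.Agent.KIN
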