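import Pool.Agent.KIN.St
import Pool.Agent.KSS.S4

/-!
# KIN, module P5: free algebras, `push (pull x) = d x`
-/

set_option autoImplicit false

noncomputable section

namespace Pool.Agent.KIN

open CategoryTheory CategoryTheory.Limits AlgebraicGeometry TopologicalSpace Function
  Pool.Agent.KSS

/-! ### morphisms given on sections -/

section gen

variable {X : Scheme.{0}}

theorem p5_ap_sum {M N : X.Modules} {ι : Type} (s : Finset ι) (φ : ι → (M ⟶ N)) (U : X.Opens)
    (x : Γ(M, U)) : ap (∑ i ∈ s, φ i) U x = ∑ i ∈ s, ap (φ i) U x := by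
  classical
  induction s using Finset.induction with
  | empty =>
    rw [Finset.sum_empty, Finset.sum_empty]
    exact ap_zero U x
  | insert a s ha ih => rw [Finset.sum_insert ha, Finset.sum_insert ha, ap_add, ih]

/-- the power `M ^ d` -/
theorem p5_pow (M : X.Modules) (hM : IsCoh M) (d : ℕ) : ∃ (P : X.Modules) (hP : IsCoh P)
    (π : Fin d → (P ⟶ M)), (∀ U : X.Opens, Bijective fun (s : Γ(P, U)) (i : Fin d) =>
      ap (π i) U s) ∧ cl P hP = d • cl M hM := by
  induction d with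
  | zero =>
    obtain ⟨-, -, -, h0, Z, hZ, hv⟩ := thm_S5 thm_S1 thm_S2 X
    refine ⟨Z, hZ, fun i => i.elim0, fun U => ⟨fun s t _ => ?_, fun y => ⟨0, ?_⟩⟩, ?_⟩
    · have h1 := (thm_S1 X).2.2.2.1 Z ⊤ hv U le_top
      rw [h1 s, h1 t]
    · funext i
      exact i.elim0
    · rw [h0 Z hZ hv, zero_smul]
  | succ d ih =>
    obtain ⟨P, hP, π, hb, hc⟩ := ih
    have hco : IsCoh (M ⊞ P) := S4.coh_biprod thm_S2 hM hP
    refine ⟨M ⊞ P, hco, Fin.cons biprod.fst fun i => biprod.snd ≫ π i, fun U => ⟨?_, ?_⟩, ?_⟩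
    · intro s t hst
      have e0 : ap (biprod.fst : M ⊞ P ⟶ M) U s = ap biprod.fst U t := congrFun hst 0
      have e1 : ap (biprod.snd : M ⊞ P ⟶ P) U s = ap biprod.snd U t :=
        (hb U).1 (funext fun i => congrFun hst i.succ)
      rw [← S4.sum_eq U s, ← S4.sum_eq U t, e0, e1]
    · intro y
      obtain ⟨p, hp⟩ := (hb U).2 fun i => y i.succ
      refine ⟨ap biprod.inl U (y 0) + ap biprod.inr U p, ?_⟩
      funext i
      refine Fin.cases ?_ (fun i => ?_) i
      · show ap (biprod.fst : M ⊞ P ⟶ M) U _ = _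
        rw [map_add, S4.fst_inl, S4.fst_inr, add_zero]
      · show ap (π i) U (ap (biprod.snd : M ⊞ P ⟶ P) U _) = _
        rw [map_add, S4.snd_inl, S4.snd_inr, zero_add]
        exact congrFun hp i
    · have h1 := cl_add (ShortComplex.mk (biprod.inl : M ⟶ M ⊞ P) (biprod.snd : M ⊞ P ⟶ P)
        biprod.inl_snd) ?_ hM hco hP
      · rw [h1, hc, succ_nsmul']
      · refine (thm_S1 X).2.2.2.2 _ ?_ ?_ ?_
        · intro U _ s t hst
          have h2 := congrArg (ap (biprod.fst : M ⊞ P ⟶ M) U) hst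
          have h3 := S4.fst_inl (F' := P) U s
          have h4 := S4.fst_inl (F' := P) U t
          exact h3.symm.trans (h2.trans h4)
        · intro U _ s hs
          refine ⟨ap (biprod.fst : M ⊞ P ⟶ M) U s, ?_⟩
          have h2 := S4.sum_eq (F := M) (F' := P) U s
          have h3 : ap (biprod.snd : M ⊞ P ⟶ P) U s = 0 := hs
          rw [h3, map_zero, add_zero] at h2
          exact h2
        · intro U _ s
          exact ⟨ap (biprod.inr : P ⟶ M ⊞ P) U s, S4.snd_inr U s⟩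

/-- recognition of `E ≅ M ^ d` -/
theorem p5_rec (hL0 : St_L0) (M E : X.Modules) (hM : IsCoh M) (hE : IsCoh E) (d : ℕ)
    (φ : Fin d → (M ⟶ E)) (hφ : ∀ U : X.Opens, IsAffineOpen U →
      Bijective fun m : Fin d → Γ(M, U) => ∑ i, ap (φ i) U (m i)) : cl E hE = d • cl M hM := by
  obtain ⟨P, hP, π, hb, hc⟩ := p5_pow M hM d
  let Φ : P ⟶ E := ∑ i, π i ≫ φ i
  have hΦ : ∀ U : X.Opens, IsAffineOpen U → Bijective (ap Φ U) := by
    intro U hU
    have e : (ap Φ U : Γ(P, U) → Γ(E, U)) = (fun m : Fin d → Γ(M, U) => ∑ i, ap (φ i) U (m i)) ∘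
        (fun (s : Γ(P, U)) (i : Fin d) => ap (π i) U s) := by
      funext s
      exact p5_ap_sum Finset.univ (fun i => π i ≫ φ i) U s
    rw [e]
    exact (hφ U hU).comp (hb U)
  have hi : IsIso Φ := by
    refine (hL0 X).2.1 P E Φ hP.1 hE.1 fun y => ?_
    obtain ⟨V, hV, hy, -⟩ := exists_isAffineOpen_mem_and_subset (x := y) (U := ⊤) trivial
    exact ⟨V, hV, hy, hΦ V hV⟩
  rw [← hc]
  exact (cl_iso (asIso Φ) hP hE).symm

/-- multiplication by a global function -/
def p5_mul (N : X.Modules) (c : Γ(X, ⊤)) : N ⟶ N :=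
  ⟨PresheafOfModules.homMk
    { app := fun U => N.smul (rO (le_top : U.unop ≤ ⊤) c)
      naturality := by
        intro U V i
        ext s
        have h1 := Scheme.Modules.map_smul N i.unop (rO (le_top : U.unop ≤ ⊤) c) s
        have h2 : X.presheaf.map i.unop.op (rO (le_top : U.unop ≤ ⊤) c) =
            rO (le_top : V.unop ≤ ⊤) c := rO_rO (le_top : U.unop ≤ ⊤) i.unop.le c
        rw [h2] at h1
        exact h1.symm } (by
      intro U r m
      exact smul_comm (rO (le_top : U.unop ≤ ⊤) c) (show Γ(X, U.unop) from r)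
        (show Γ(N, U.unop) from m))⟩

theorem p5_mul_ap (N : X.Modules) (c : Γ(X, ⊤)) (U : X.Opens) (s : Γ(N, U)) :
    ap (p5_mul N c) U s = rO (le_top : U ≤ ⊤) c • s := rfl

end gen

/-! ### algebra -/

theorem p5_basis {A B R R' : Type} [CommRing A] [CommRing B] [CommRing R] [CommRing R']
    [Algebra R R'] [Algebra A B] (a : R →+* A) (g : R' →+* B) (d : ℕ)
    (b : Module.Basis (Fin d) R R')
    (h : IsPushout (CommRingCat.ofHom a) (CommRingCat.ofHom (algebraMap R R'))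
      (CommRingCat.ofHom (algebraMap A B)) (CommRingCat.ofHom g)) :
    ∃ b' : Module.Basis (Fin d) A B, ∀ i, b' i = g (b i) := by
  let _ := a.toAlgebra
  let _ := g.toAlgebra
  let _ : Algebra R B := (g.comp (algebraMap R R')).toAlgebra
  have : IsScalarTower R R' B := .of_algebraMap_eq' rfl
  have : IsScalarTower R A B := .of_algebraMap_eq' (by
    exact (congrArg CommRingCat.Hom.hom h.w).symm)
  have hp : Algebra.IsPushout R A R' B := CommRingCat.isPushout_iff_isPushout.mp h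
  refine ⟨(Algebra.TensorProduct.basis A b).map hp.out.equiv, fun i => ?_⟩
  rw [Module.Basis.map_apply, Algebra.TensorProduct.basis_apply, IsBaseChange.equiv_tmul, one_smul]
  rfl

/-! ### the cartesian square on sections -/

theorem p5_sq {X Y : Scheme.{0}} (R R' : Type) [CommRing R] [CommRing R']
    [Algebra R R'] (f : Y ⟶ X) [IsAffineHom f]
    (g : Y ⟶ Spec (CommRingCat.of R')) (h : X ⟶ Spec (CommRingCat.of R))
    (hs : IsPullback f g h (Spec.map (CommRingCat.ofHom (algebraMap R R')))) (U : X.Opens)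
    (hU : IsAffineOpen U) :
    IsPushout ((Scheme.ΓSpecIso (CommRingCat.of R)).inv ≫ h.appLE ⊤ U le_top)
      (CommRingCat.ofHom (algebraMap R R')) (f.appLE U (f ⁻¹ᵁ U) le_rfl)
      ((Scheme.ΓSpecIso (CommRingCat.of R')).inv ≫ g.appLE ⊤ (f ⁻¹ᵁ U) le_top) := by
  have h1 := (isIso_pushoutSection_iff hs (US := ⊤) (UT := ⊤) (UX := U) (UY := f ⁻¹ᵁ U)
    le_top le_top (by simp)).mp (isIso_pushoutSection_of_isAffineOpen hs le_top le_top (by simp)
      (isAffineOpen_top _) (isAffineOpen_top _) hU)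
  refine h1.of_iso (Scheme.ΓSpecIso (CommRingCat.of R)) (Iso.refl _)
    (Scheme.ΓSpecIso (CommRingCat.of R')) (Iso.refl _) ?_ ?_ ?_ ?_
  · simp
  · have h2 : (Spec.map (CommRingCat.ofHom (algebraMap R R'))).appLE ⊤ ⊤ le_top =
        (Spec.map (CommRingCat.ofHom (algebraMap R R'))).appTop :=
      Scheme.Hom.appLE_eq_app (Spec.map (CommRingCat.ofHom (algebraMap R R')))
    rw [h2]
    exact Scheme.ΓSpecIso_naturality _
  · simp
  · simp

/-! ### the theorem -/

theorem p5_cl (hA0 : St_A0) (hL0 : St_L0) (hP1 : St_P1) {X Y : Scheme.{0}}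
    (R R' : Type) [CommRing R] [CommRing R'] [Algebra R R'] (d : ℕ)
    (b : Module.Basis (Fin d) R R') (f : Y ⟶ X) [IsFinite f]
    (g : Y ⟶ Spec (CommRingCat.of R')) (h : X ⟶ Spec (CommRingCat.of R))
    (hs : IsPullback f g h (Spec.map (CommRingCat.ofHom (algebraMap R R'))))
    (M : X.Modules) (hM : IsCoh M) (hE : IsCoh (pf f (pb f M))) :
    cl (pf f (pb f M)) hE = d • cl M hM := by
  let c : Fin d → Γ(Y, ⊤) := fun i =>
    g.appTop.hom ((Scheme.ΓSpecIso (CommRingCat.of R')).inv.hom (b i))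
  let φ : Fin d → (M ⟶ pf f (pb f M)) := fun i =>
    eta f M ≫ (Scheme.Modules.pushforward f).map (p5_mul (pb f M) (c i))
  refine p5_rec hL0 M _ hM hE d φ fun U hU => ?_
  let _ : Algebra Γ(X, U) Γ(Y, f ⁻¹ᵁ U) := (f.appLE U (f ⁻¹ᵁ U) le_rfl).hom.toAlgebra
  obtain ⟨b', hb'⟩ := p5_basis (A := Γ(X, U)) (B := Γ(Y, f ⁻¹ᵁ U))
    ((Scheme.ΓSpecIso (CommRingCat.of R)).inv ≫ h.appLE ⊤ U le_top).hom
    ((Scheme.ΓSpecIso (CommRingCat.of R')).inv ≫ g.appLE ⊤ (f ⁻¹ᵁ U) le_top).hom d b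
    (p5_sq R R' f g h hs U hU)
  have hB : BCh (algebraMap Γ(X, U) Γ(Y, f ⁻¹ᵁ U)) (es f M U (f ⁻¹ᵁ U) le_rfl) :=
    (hP1 X Y f M hM.1).2 U (f ⁻¹ᵁ U) le_rfl hU (hU.preimage f)
  have h1 := hA0.2.2.2.2.2.2.2.2.2.1 Γ(X, U) Γ(Y, f ⁻¹ᵁ U) Γ(M, U) Γ(pb f M, f ⁻¹ᵁ U) d b'
    (es f M U (f ⁻¹ᵁ U) le_rfl) hB
  have h2 : (fun m : Fin d → Γ(M, U) => ∑ i, ap (φ i) U (m i)) =
      fun m : Fin d → Γ(M, U) => ∑ i, b' i • es f M U (f ⁻¹ᵁ U) le_rfl (m i) := by
    funext m
    refine Finset.sum_congr rfl fun i _ => ?_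
    rw [hb' i]
    have h3 : es f M U (f ⁻¹ᵁ U) le_rfl (m i) =
        (show Γ(pb f M, f ⁻¹ᵁ U) from ap (eta f M) U (m i)) := rM_self _ _
    rw [h3]
    rfl
  rw [h2]
  exact h1

theorem thm_P5 (hA0 : St_A0) (hL0 : St_L0) (hP1 : St_P1) (hP2 : St_P2) : St_P5 := by
  intro X Y _ R R' _ _ _ d b f g h _ _ hs x
  have hN : IsLocallyNoetherian Y := LocallyOfFiniteType.isLocallyNoetherian f
  have hx : x ∈ AddSubgroup.closure {x : K0 X | ∃ (M : X.Modules) (h : IsCoh M), x = cl M h} := by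
    rw [cl_closure]
    trivial
  induction hx using AddSubgroup.closure_induction with
  | mem x hx =>
    obtain ⟨M, hM, rfl⟩ := hx
    have hM' : IsCoh (pb f M) := hP2.2.1 X Y f M hM
    rw [hP2.2.2.1 X Y f M hM hM', pushK_cl]
    exact p5_cl hA0 hL0 hP1 R R' d b f g h hs M hM _
  | zero => rw [map_zero, map_zero, smul_zero]
  | add x y _ _ hx hy => rw [map_add, map_add, hx, hy, smul_add]
  | neg x _ hx => rw [map_neg, map_neg, hx, smul_neg]

end Pool.Agent.KIN
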