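import Pool.Agent.KIN.A0
import Pool.Agent.KIN.L0
import Pool.Agent.KIN.P1
import Pool.Agent.KIN.P2
import Pool.Agent.KIN.P4
import Pool.Agent.KIN.P5
import Pool.Agent.KIN.E0
import Pool.Agent.KIN.E1
import Pool.Agent.KIN.E2
import Pool.Agent.KIN.D1
import Pool.Agent.KIN.D2
import Pool.Agent.KIN.D3
import Pool.Agent.KIN.D4
import Pool.Agent.KIN.H1
import Pool.Agent.KIN.H2
import Pool.Agent.KIN.Fin

/-!
# KIN: `K'₀` of noetherian schemes is a theory (`Pool.Agent.KTH.Thy`), assembly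
-/

set_option autoImplicit false

namespace Pool.Agent.KIN

theorem all_P2 : St_P2 := thm_P2 thm_A0 thm_L0 thm_P1

theorem all_P4 : St_P4 := thm_P4 thm_A0 thm_L0 thm_P1

theorem all_P5 : St_P5 := thm_P5 thm_A0 thm_L0 thm_P1 all_P2

theorem all_E1 : St_E1 := thm_E1 thm_L0 thm_E0

theorem all_E2 : St_E2 := thm_E2 thm_E0 all_E1 all_P2

theorem all_D1 : St_D1 := thm_D1 thm_A0 thm_L0 thm_P1

theorem all_D3 : St_D3 := thm_D3 thm_L0 all_P2 all_D1 thm_D2

theorem all_D4 : St_D4 := thm_D4 thm_L0 all_P2 all_D1 thm_D2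

theorem all_H1 : St_H1 := thm_H1 thm_L0 thm_P1 all_P2

theorem all_H2 : St_H2 := thm_H2 all_E1 all_E2 all_D3 all_P2 all_P4 all_H1

/-- **Theorem.** `K'₀` is a theory on noetherian schemes, with the flat pull-back `pullK` and the
push-forward `pushK` along finite morphisms. -/
theorem all_Fin : St_Fin := thm_Fin all_P2 all_P4 all_P5 all_E2 all_D3 all_D4 all_H2

end Pool.Agent.KIN
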