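import Pool.Agent.KIN.St

/-!
# KIN, module A0: algebra of base changes (helper40)
-/

set_option autoImplicit false

noncomputable section

namespace Pool.Agent.KIN

open Function TensorProduct

/-! ### `BCh` in terms of given algebra structures -/

theorem a0_key {A B : Type} [CommRing A] [CommRing B] {M N : Type} [AddCommGroup M]
    [Module A M] [AddCommGroup N] [Module B N] (h : M →+ N) (a₁ a₂ : Algebra A B) (e : a₁ = a₂) :
    (let _ := a₁; ∃ e : TensorProduct A B M ≃ₗ[B] N, ∀ m, e (1 ⊗ₜ[A] m) = h m) ↔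
      (let _ := a₂; ∃ e : TensorProduct A B M ≃ₗ[B] N, ∀ m, e (1 ⊗ₜ[A] m) = h m) := by
  subst e
  exact Iff.rfl

theorem a0_iff {A B : Type} [CommRing A] [CommRing B] [Algebra A B] {M N : Type} [AddCommGroup M]
    [Module A M] [AddCommGroup N] [Module B N] (h : M →+ N) :
    BCh (algebraMap A B) h ↔ ∃ e : TensorProduct A B M ≃ₗ[B] N, ∀ m, e (1 ⊗ₜ[A] m) = h m :=
  a0_key h _ _ (_root_.toAlgebra_algebraMap)

theorem a0_ibc {A B : Type} [CommRing A] [CommRing B] [Algebra A B] {M N : Type} [AddCommGroup M]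
    [Module A M] [AddCommGroup N] [Module B N] [Module A N] [IsScalarTower A B N] (f : M →ₗ[A] N) :
    BCh (algebraMap A B) f.toAddMonoidHom ↔ IsBaseChange B f := by
  rw [a0_iff]
  constructor
  · rintro ⟨e, he⟩
    exact IsBaseChange.of_equiv e he
  · intro h
    exact ⟨h.equiv, fun m => by rw [h.equiv_tmul, one_smul]; rfl⟩

theorem a0_semi {A B : Type} [CommRing A] [CommRing B] [Algebra A B] {M N : Type} [AddCommGroup M]
    [Module A M] [AddCommGroup N] [Module B N] (h : M →+ N) (hb : BCh (algebraMap A B) h) (a : A)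
    (m : M) : h (a • m) = algebraMap A B a • h m := by
  obtain ⟨e, he⟩ := (a0_iff h).1 hb
  rw [← he, ← he, ← map_smul]
  congr 1
  rw [TensorProduct.tmul_smul, algebraMap_smul]

theorem a0_1 (A B M N : Type) [CommRing A] [CommRing B] [AddCommGroup M] [Module A M]
    [AddCommGroup N] [Module B N] (φ : A →+* B) (h : M →+ N) (hb : BCh φ h) (a : A) (m : M) :
    h (a • m) = φ a • h m := by
  let := φ.toAlgebra
  exact a0_semi h hb a m

/-- the linear map -/
def a0_lin {A B : Type} [CommRing A] [CommRing B] [Algebra A B] {M N : Type} [AddCommGroup M]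
    [Module A M] [AddCommGroup N] [Module B N] [Module A N] [IsScalarTower A B N] (h : M →+ N)
    (hs : ∀ (a : A) (m : M), h (a • m) = algebraMap A B a • h m) : M →ₗ[A] N where
  toFun := h
  map_add' := h.map_add
  map_smul' := fun a m => by
    rw [hs, algebraMap_smul]
    rfl

theorem a0_ibc' {A B : Type} [CommRing A] [CommRing B] [Algebra A B] {M N : Type} [AddCommGroup M]
    [Module A M] [AddCommGroup N] [Module B N] [Module A N] [IsScalarTower A B N] (h : M →+ N)
    (hs : ∀ (a : A) (m : M), h (a • m) = algebraMap A B a • h m) :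
    BCh (algebraMap A B) h ↔ IsBaseChange B (a0_lin h hs) := by
  rw [← a0_ibc]
  exact Iff.rfl

/-- induction on the elements of a base change -/
theorem a0_ind {A B : Type} [CommRing A] [CommRing B] {M N : Type} [AddCommGroup M]
    [Module A M] [AddCommGroup N] [Module B N] (φ : A →+* B) (h : M →+ N) (hb : BCh φ h)
    (p : N → Prop) (h0 : p 0) (hadd : ∀ x y, p x → p y → p (x + y))
    (hsm : ∀ (b : B) (m : M), p (b • h m)) (n : N) : p n := by
  let := φ.toAlgebra
  obtain ⟨e, he⟩ := hb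
  rw [← e.apply_symm_apply n]
  generalize e.symm n = x
  induction x using TensorProduct.induction_on with
  | zero => rw [map_zero]; exact h0
  | tmul b m =>
    have h1 : b ⊗ₜ[A] m = b • ((1 : B) ⊗ₜ[A] m) := by
      rw [TensorProduct.smul_tmul', smul_eq_mul, mul_one]
    rw [h1, map_smul, he]
    exact hsm b m
  | add x y hx hy => rw [map_add]; exact hadd _ _ hx hy

theorem a0_2 (A B M N P : Type) [CommRing A] [CommRing B] [AddCommGroup M] [Module A M]
    [AddCommGroup N] [Module B N] [AddCommGroup P] [Module B P] (φ : A →+* B) (h : M →+ N)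
    (hb : BCh φ h) :
    (∀ g : M →+ P, (∀ (a : A) (m : M), g (a • m) = φ a • g m) →
      ∃ l : N →ₗ[B] P, ∀ m, l (h m) = g m) ∧
    (∀ l l' : N →ₗ[B] P, (∀ m, l (h m) = l' (h m)) → l = l') := by
  constructor
  · intro g hg
    let := φ.toAlgebra
    let : Module A N := Module.compHom N φ
    have : IsScalarTower A B N := ⟨fun a b n => mul_smul (φ a) b n⟩
    let : Module A P := Module.compHom P φ
    have : IsScalarTower A B P := ⟨fun a b n => mul_smul (φ a) b n⟩
    have h1 := (a0_ibc' h (fun a m => a0_semi h hb a m)).1 hb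
    refine ⟨h1.lift (a0_lin g hg), fun m => ?_⟩
    exact h1.lift_eq (a0_lin g hg) m
  · intro l l' hl
    refine LinearMap.ext fun n => ?_
    refine a0_ind φ h hb (fun n => l n = l' n) ?_ ?_ ?_ n
    · show l 0 = l' 0
      rw [map_zero, map_zero]
    · intro x y hx hy
      show l (x + y) = l' (x + y)
      rw [map_add, map_add]
      exact congrArg₂ _ hx hy
    · intro b m
      show l (b • h m) = l' (b • h m)
      rw [map_smul, map_smul, hl]

theorem a0_3 (A B M N : Type) [CommRing A] [CommRing B] [AddCommGroup M] [Module A M]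
    [AddCommGroup N] [Module B N] (φ : A →+* B) (h : M →+ N) (hb : BCh φ h)
    (hf : Module.Finite A M) : Module.Finite B N := by
  let := φ.toAlgebra
  obtain ⟨e, -⟩ := hb
  exact Module.Finite.equiv e

theorem a0_4 (A B M₁ M₂ M₃ N₁ N₂ N₃ : Type) [CommRing A] [CommRing B] [AddCommGroup M₁]
    [Module A M₁] [AddCommGroup M₂] [Module A M₂] [AddCommGroup M₃] [Module A M₃] [AddCommGroup N₁]
    [Module B N₁] [AddCommGroup N₂] [Module B N₂] [AddCommGroup N₃] [Module B N₃] (φ : A →+* B)
    (h₁ : M₁ →+ N₁) (h₂ : M₂ →+ N₂) (h₃ : M₃ →+ N₃) (a : M₁ →ₗ[A] M₂) (b : M₂ →ₗ[A] M₃)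
    (a' : N₁ →ₗ[B] N₂) (b' : N₂ →ₗ[B] N₃) (hb₁ : BCh φ h₁) (hb₂ : BCh φ h₂) (hb₃ : BCh φ h₃)
    (ha : ∀ m, a' (h₁ m) = h₂ (a m)) (hb : ∀ m, b' (h₂ m) = h₃ (b m)) :
      (Surjective b → Surjective b') ∧
      (Surjective b → (∀ m, b m = 0 ↔ ∃ m₁, a m₁ = m) → ∀ n, b' n = 0 ↔ ∃ n₁, a' n₁ = n) ∧
      (φ.Flat → Injective a → Injective a') := by
  let := φ.toAlgebra
  obtain ⟨e₁, he₁⟩ := hb₁
  obtain ⟨e₂, he₂⟩ := hb₂
  obtain ⟨e₃, he₃⟩ := hb₃
  have ka : ∀ x, a' (e₁ x) = e₂ (a.lTensor B x) := by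
    intro x
    induction x using TensorProduct.induction_on with
    | zero => simp only [map_zero]
    | tmul c m =>
      have h1 : c ⊗ₜ[A] m = c • ((1 : B) ⊗ₜ[A] m) := by
        rw [TensorProduct.smul_tmul', smul_eq_mul, mul_one]
      have h2 : c ⊗ₜ[A] (a m) = c • ((1 : B) ⊗ₜ[A] (a m)) := by
        rw [TensorProduct.smul_tmul', smul_eq_mul, mul_one]
      rw [LinearMap.lTensor_tmul, h1, h2, map_smul, map_smul, map_smul, he₁, he₂, ha]
    | add x y hx hy => simp only [map_add, hx, hy]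
  have kb : ∀ x, b' (e₂ x) = e₃ (b.lTensor B x) := by
    intro x
    induction x using TensorProduct.induction_on with
    | zero => simp only [map_zero]
    | tmul c m =>
      have h1 : c ⊗ₜ[A] m = c • ((1 : B) ⊗ₜ[A] m) := by
        rw [TensorProduct.smul_tmul', smul_eq_mul, mul_one]
      have h2 : c ⊗ₜ[A] (b m) = c • ((1 : B) ⊗ₜ[A] (b m)) := by
        rw [TensorProduct.smul_tmul', smul_eq_mul, mul_one]
      rw [LinearMap.lTensor_tmul, h1, h2, map_smul, map_smul, map_smul, he₂, he₃, hb]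
    | add x y hx hy => simp only [map_add, hx, hy]
  refine ⟨fun hs n => ?_, fun hs hex n => ?_, fun hfl hinj => ?_⟩
  · obtain ⟨x, hx⟩ := LinearMap.lTensor_surjective B hs (e₃.symm n)
    exact ⟨e₂ x, by rw [kb, hx, LinearEquiv.apply_symm_apply]⟩
  · have hE : Function.Exact (a.lTensor B) (b.lTensor B) :=
      lTensor_exact B (fun m => hex m) hs
    constructor
    · intro hn
      have h1 : b.lTensor B (e₂.symm n) = 0 := by
        refine e₃.injective ?_
        rw [← kb, LinearEquiv.apply_symm_apply, hn, map_zero]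
      obtain ⟨x, hx⟩ := (hE _).1 h1
      exact ⟨e₁ x, by rw [ka, hx, LinearEquiv.apply_symm_apply]⟩
    · rintro ⟨n₁, rfl⟩
      rw [← e₁.apply_symm_apply n₁, ka, kb, (hE _).2 ⟨_, rfl⟩, map_zero]
  · have : Module.Flat A B := hfl
    have h1 := Module.Flat.lTensor_preserves_injective_linearMap (M := B) a hinj
    intro x y hxy
    rw [← e₁.apply_symm_apply x, ← e₁.apply_symm_apply y, ka, ka] at hxy
    exact e₁.symm.injective (h1 (e₂.injective hxy))

theorem a0_5 (A B M N N' : Type) [CommRing A] [CommRing B] [AddCommGroup M] [Module A M]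
    [AddCommGroup N] [Module B N] [AddCommGroup N'] [Module B N'] (φ : A →+* B) (h : M →+ N)
    (h' : M →+ N') (l : N →ₗ[B] N') (hb : BCh φ h) (hb' : BCh φ h') (hl : ∀ m, l (h m) = h' m) :
    Bijective l := by
  let := φ.toAlgebra
  obtain ⟨e, he⟩ := hb
  obtain ⟨e', he'⟩ := hb'
  have h1 : ∀ x, l (e x) = e' x := by
    intro x
    induction x using TensorProduct.induction_on with
    | zero => simp only [map_zero]
    | tmul c m =>
      have h1 : c ⊗ₜ[A] m = c • ((1 : B) ⊗ₜ[A] m) := by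
        rw [TensorProduct.smul_tmul', smul_eq_mul, mul_one]
      rw [h1, map_smul, map_smul, map_smul, he, he', hl]
    | add x y hx hy => simp only [map_add, hx, hy]
  have h2 : (l : N → N') = e' ∘ e.symm := by
    funext n
    rw [comp_apply, ← h1, LinearEquiv.apply_symm_apply]
  rw [h2]
  exact e'.bijective.comp e.symm.bijective

theorem a0_6 (A B M N : Type) [CommRing A] [CommRing B] [AddCommGroup M] [Module A M]
    [AddCommGroup N] [Module B N] (φ : A →+* B) (h : M →+ N) (hb : BCh φ h) (hs : Surjective φ) :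
      Surjective h ∧ ∀ m, h m = 0 ↔ m ∈ RingHom.ker φ • (⊤ : Submodule A M) := by
  constructor
  · intro n
    refine a0_ind φ h hb (fun n => ∃ m, h m = n) ⟨0, map_zero h⟩ ?_ ?_ n
    · rintro x y ⟨m, rfl⟩ ⟨m', rfl⟩
      exact ⟨m + m', map_add h m m'⟩
    · intro b m
      obtain ⟨a, rfl⟩ := hs b
      exact ⟨a • m, a0_1 A B M N φ h hb a m⟩
  · intro m
    let := φ.toAlgebra
    obtain ⟨e, he⟩ := hb
    set I : Ideal A := RingHom.ker φ with hI
    let q : (A ⧸ I) ≃ₐ[A] B := Ideal.quotientKerAlgEquivOfSurjective (f := Algebra.ofId A B) hs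
    have hq : q.toLinearEquiv 1 = 1 := map_one q
    let t := TensorProduct.congr q.toLinearEquiv (LinearEquiv.refl A M)
    have ht : t (1 ⊗ₜ[A] m) = 1 ⊗ₜ[A] m := by
      show TensorProduct.congr q.toLinearEquiv (LinearEquiv.refl A M) (1 ⊗ₜ[A] m) = _
      rw [TensorProduct.congr_tmul, hq]
      rfl
    have h1 : h m = 0 ↔ (1 : B) ⊗ₜ[A] m = 0 := by
      rw [← he]
      exact e.map_eq_zero_iff
    have h2 : (1 : B) ⊗ₜ[A] m = 0 ↔ (1 : A ⧸ I) ⊗ₜ[A] m = 0 := by
      rw [← ht]
      exact t.map_eq_zero_iff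
    have h3 : (1 : A ⧸ I) ⊗ₜ[A] m = 0 ↔ m ∈ I • (⊤ : Submodule A M) := by
      rw [← Submodule.Quotient.mk_eq_zero, ← TensorProduct.quotTensorEquivQuotSMul_mk_one_tmul]
      exact (TensorProduct.quotTensorEquivQuotSMul M I).map_eq_zero_iff.symm
    exact h1.trans (h2.trans h3)

theorem a0_7 (A B C M N P : Type) [CommRing A] [CommRing B] [CommRing C] [AddCommGroup M]
    [Module A M] [AddCommGroup N] [Module B N] [AddCommGroup P] [Module C P] (φ : A →+* B)
    (ψ : B →+* C) (h : M →+ N) (h' : N →+ P) (hb : BCh φ h) (hb' : BCh ψ h') :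
    BCh (ψ.comp φ) (h'.comp h) := by
  let := φ.toAlgebra
  let a1 := ψ.toAlgebra
  let a2 := (ψ.comp φ).toAlgebra
  have : IsScalarTower A B C := IsScalarTower.of_algebraMap_eq fun _ => rfl
  let : Module A N := Module.compHom N φ
  have : IsScalarTower A B N := ⟨fun a b n => mul_smul (φ a) b n⟩
  let : Module B P := Module.compHom P ψ
  have : IsScalarTower B C P := ⟨fun a b n => mul_smul (ψ a) b n⟩
  let : Module A P := Module.compHom P (ψ.comp φ)
  have : IsScalarTower A C P := ⟨fun a b n => mul_smul (ψ (φ a)) b n⟩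
  have : IsScalarTower A B P := ⟨fun a b n => by
    show ψ (φ a * b) • n = ψ (φ a) • ψ b • n
    rw [map_mul, mul_smul]⟩
  have h1 := (a0_ibc' h (fun a m => a0_semi h hb a m)).1 hb
  have h2 := (a0_ibc' h' (fun a m => a0_semi h' hb' a m)).1 hb'
  exact (a0_ibc _).2 (h1.comp h2)

theorem a0_8 (A B C M N P : Type) [CommRing A] [CommRing B] [CommRing C] [AddCommGroup M]
    [Module A M] [AddCommGroup N] [Module B N] [AddCommGroup P] [Module C P] (φ : A →+* B)
    (ψ : B →+* C) (h : M →+ N) (h' : N →+ P) (hb : BCh φ h)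
    (hs : ∀ (b : B) (n : N), h' (b • n) = ψ b • h' n) (hb' : BCh (ψ.comp φ) (h'.comp h)) :
    BCh ψ h' := by
  let := φ.toAlgebra
  let a1 := ψ.toAlgebra
  let a2 := (ψ.comp φ).toAlgebra
  have : IsScalarTower A B C := IsScalarTower.of_algebraMap_eq fun _ => rfl
  let : Module A N := Module.compHom N φ
  have : IsScalarTower A B N := ⟨fun a b n => mul_smul (φ a) b n⟩
  let : Module B P := Module.compHom P ψ
  have : IsScalarTower B C P := ⟨fun a b n => mul_smul (ψ a) b n⟩
  let : Module A P := Module.compHom P (ψ.comp φ)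
  have : IsScalarTower A C P := ⟨fun a b n => mul_smul (ψ (φ a)) b n⟩
  have : IsScalarTower A B P := ⟨fun a b n => by
    show ψ (φ a * b) • n = ψ (φ a) • ψ b • n
    rw [map_mul, mul_smul]⟩
  have h1 := (a0_ibc' h (fun a m => a0_semi h hb a m)).1 hb
  have h2 : IsBaseChange C (((a0_lin h' hs : N →ₗ[B] P) : N →ₗ[A] P) ∘ₗ
      a0_lin h (fun a m => a0_semi h hb a m)) := (a0_ibc _).1 hb'
  exact (a0_ibc _).2 (h1.of_comp h2)

theorem a0_9 (A B C D M N : Type) [CommRing A] [CommRing B] [CommRing C] [CommRing D] [Algebra A B]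
    [Algebra A C] [Algebra B D] [Algebra C D] [Algebra A D] [IsScalarTower A B D]
    [IsScalarTower A C D] [Algebra.IsPushout A B C D] [AddCommGroup M] [Module C M] [Module A M]
    [IsScalarTower A C M] [AddCommGroup N] [Module D N] [Module B N] [IsScalarTower B D N]
    (h : M →+ N) (hb : BCh (algebraMap C D) h) : BCh (algebraMap A B) h := by
  obtain ⟨e, he⟩ := (a0_iff h).1 hb
  refine (a0_iff h).2 ⟨(Algebra.IsPushout.cancelBaseChange A B C D M).symm ≪≫ₗ
    e.restrictScalars B, fun m => ?_⟩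
  rw [LinearEquiv.trans_apply, Algebra.IsPushout.cancelBaseChange_symm_tmul, map_one]
  exact he m

theorem a0_10 (A B M N : Type) [CommRing A] [CommRing B] [AddCommGroup M] [Module A M]
    [AddCommGroup N] [Module B N] [Algebra A B] (d : ℕ) (b : Module.Basis (Fin d) A B) (h : M →+ N)
    (hb : BCh (algebraMap A B) h) : Bijective fun m : Fin d → M => ∑ i, b i • h (m i) := by
  obtain ⟨e, he⟩ := (a0_iff h).1 hb
  have h1 : (fun m : Fin d → M => ∑ i, b i • h (m i)) =
      e ∘ (TensorProduct.equivFinsuppOfBasisLeft b (N := M)).symm ∘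
        (Finsupp.equivFunOnFinite (α := Fin d) (M := M)).symm := by
    funext m
    have h2 : (TensorProduct.equivFinsuppOfBasisLeft b (N := M)).symm
        ((Finsupp.equivFunOnFinite (α := Fin d) (M := M)).symm m) = ∑ i, b i ⊗ₜ[A] m i := by
      rw [TensorProduct.equivFinsuppOfBasisLeft_symm_apply,
        Finsupp.sum_fintype _ _ (by simp)]
      rfl
    rw [comp_apply, comp_apply, h2, map_sum]
    refine Finset.sum_congr rfl fun i _ => ?_
    have h3 : b i ⊗ₜ[A] m i = b i • ((1 : B) ⊗ₜ[A] m i) := by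
      rw [TensorProduct.smul_tmul', smul_eq_mul, mul_one]
    rw [h3, map_smul, he]
  rw [h1]
  exact e.bijective.comp ((LinearEquiv.bijective _).comp (Equiv.bijective _))

theorem a0_11 (A B M N : Type) [CommRing A] [CommRing B] [AddCommGroup M] [Module A M]
    [AddCommGroup N] [Module B N] [Algebra A B] (f : A) [IsLocalization.Away f B] (h : M →+ N)
    (hs : ∀ (a : A) (m : M), h (a • m) = algebraMap A B a • h m) :
    (BCh (algebraMap A B) h ↔ (∀ n : N, ∃ (e : ℕ) (m : M), h m = algebraMap A B f ^ e • n) ∧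
      ∀ m : M, h m = 0 → ∃ e : ℕ, f ^ e • m = 0) := by
  let : Module A N := Module.compHom N (algebraMap A B)
  have : IsScalarTower A B N := IsScalarTower.of_algebraMap_smul fun _ _ => rfl
  rw [a0_ibc' h hs, ← isLocalizedModule_iff_isBaseChange (Submonoid.powers f)]
  constructor
  · intro hl
    constructor
    · intro n
      obtain ⟨⟨m, ⟨_, e, rfl⟩⟩, hx⟩ := hl.surj n
      refine ⟨e, m, ?_⟩
      have h1 : (f ^ e) • n = h m := hx
      rw [← h1, ← map_pow]
      rfl
    · intro m hm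
      have h1 : a0_lin h hs m = a0_lin h hs 0 := by
        rw [map_zero]
        exact hm
      obtain ⟨⟨_, e, rfl⟩, hc⟩ := hl.exists_of_eq h1
      refine ⟨e, ?_⟩
      have h2 : f ^ e • m = f ^ e • (0 : M) := hc
      rw [h2, smul_zero]
  · rintro ⟨h1, h2⟩
    refine ⟨?_, ?_, ?_⟩
    · rintro ⟨_, e, rfl⟩
      have hu : IsUnit (algebraMap A B (f ^ e)) :=
        IsLocalization.map_units B (⟨f ^ e, e, rfl⟩ : Submonoid.powers f)
      rw [Module.End.isUnit_iff]
      have h3 : ((algebraMap A (Module.End A N)) (f ^ e) : N → N) =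
          fun n => algebraMap A B (f ^ e) • n := by
        funext n
        rfl
      show Bijective ((algebraMap A (Module.End A N)) (f ^ e))
      rw [h3]
      obtain ⟨u, hu⟩ := hu
      rw [← hu]
      exact ⟨fun x y hxy => by
        have := congrArg (fun z => (↑u⁻¹ : B) • z) hxy
        simpa [smul_smul] using this, fun y => ⟨(↑u⁻¹ : B) • y, by simp [smul_smul]⟩⟩
    · intro n
      obtain ⟨e, m, hm⟩ := h1 n
      refine ⟨⟨m, ⟨f ^ e, e, rfl⟩⟩, ?_⟩
      show f ^ e • n = h m
      rw [hm, ← map_pow]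
      rfl
    · intro x y hxy
      have h3 : h (x - y) = 0 := by
        rw [map_sub, sub_eq_zero]
        exact hxy
      obtain ⟨e, he⟩ := h2 _ h3
      refine ⟨⟨f ^ e, e, rfl⟩, ?_⟩
      show f ^ e • x = f ^ e • y
      rw [smul_sub, sub_eq_zero] at he
      exact he

theorem a0_12 (A B M N : Type) [CommRing A] [CommRing B] [AddCommGroup M] [Module A M]
    [AddCommGroup N] [Module B N] (φ : A →+* B) (h : M →+ N) (hφ : Bijective φ)
    (hs : ∀ (a : A) (m : M), h (a • m) = φ a • h m) : (BCh φ h ↔ Bijective h) := by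
  constructor
  · intro hb
    obtain ⟨h1, h2⟩ := a0_6 A B M N φ h hb hφ.2
    refine ⟨(injective_iff_map_eq_zero h).2 fun m hm => ?_, h1⟩
    have h3 := (h2 m).1 hm
    rw [(RingHom.injective_iff_ker_eq_bot φ).1 hφ.1, Submodule.bot_smul, Submodule.mem_bot] at h3
    exact h3
  · intro hh
    let := φ.toAlgebra
    let : Module A N := Module.compHom N φ
    have : IsScalarTower A B N := ⟨fun a b n => mul_smul (φ a) b n⟩
    let f : M →ₗ[A] N := a0_lin h hs
    let t : TensorProduct A B M →ₗ[B] N := (TensorProduct.isBaseChange A M B).lift f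
    have ht : ∀ m, t (1 ⊗ₜ[A] m) = h m := fun m => (TensorProduct.isBaseChange A M B).lift_eq f m
    have hone : ∀ x : TensorProduct A B M, ∃ m, x = (1 : B) ⊗ₜ[A] m := by
      intro x
      induction x using TensorProduct.induction_on with
      | zero => exact ⟨0, by rw [TensorProduct.tmul_zero]⟩
      | tmul c m =>
        obtain ⟨a, rfl⟩ := hφ.2 c
        refine ⟨a • m, ?_⟩
        rw [TensorProduct.tmul_smul, TensorProduct.smul_tmul']
        congr 1
        show φ a = φ a * 1
        rw [mul_one]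
      | add x y hx hy =>
        obtain ⟨m, rfl⟩ := hx
        obtain ⟨m', rfl⟩ := hy
        exact ⟨m + m', by rw [TensorProduct.tmul_add]⟩
    refine ⟨LinearEquiv.ofBijective t ⟨?_, ?_⟩, fun m => ht m⟩
    · intro x y hxy
      obtain ⟨m, rfl⟩ := hone x
      obtain ⟨m', rfl⟩ := hone y
      rw [ht, ht] at hxy
      rw [hh.1 hxy]
    · intro n
      obtain ⟨m, rfl⟩ := hh.2 n
      exact ⟨1 ⊗ₜ[A] m, ht m⟩

theorem thm_A0 : St_A0 :=
  ⟨a0_1, a0_2, a0_3, a0_4, a0_5, a0_6, a0_7, a0_8, a0_9, a0_10, a0_11, a0_12⟩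

end Pool.Agent.KIN
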