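import Pool.Agent.KIN.Defs

/-!
# KIN: basic properties of the maps `es` and of classes
-/

set_option autoImplicit false

noncomputable section

namespace Pool.Agent.KIN

open CategoryTheory AlgebraicGeometry TopologicalSpace Function Pool.Agent.KSS

section es

variable {X Y : Scheme.{0}} (f : Y ⟶ X)

/-- restriction of sections of the pull-back -/
theorem es_res (M : X.Modules) (U : X.Opens) (V V' : Y.Opens) (h : V ≤ f ⁻¹ᵁ U) (h' : V' ≤ V)
    (m : Γ(M, U)) : rM (pb f M) h' (es f M U V h m) = es f M U V' (h'.trans h) m :=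
  rM_rM h h' _

/-- restriction of sections of the sheaf -/
theorem es_rM (M : X.Modules) (U U' : X.Opens) (V : Y.Opens) (hU : U' ≤ U) (h : V ≤ f ⁻¹ᵁ U')
    (h' : V ≤ f ⁻¹ᵁ U) (m : Γ(M, U)) : es f M U' V h (rM M hU m) = es f M U V h' m := by
  have h1 : rM (pf f (pb f M)) hU (ap (eta f M) U m) = ap (eta f M) U' (rM M hU m) :=
    rM_ap (eta f M) hU m
  have h2 : f ⁻¹ᵁ U' ≤ f ⁻¹ᵁ U := fun x hx => hU hx
  have h3 : (show Γ(pb f M, f ⁻¹ᵁ U') from rM (pf f (pb f M)) hU (ap (eta f M) U m)) =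
      rM (pb f M) h2 (show Γ(pb f M, f ⁻¹ᵁ U) from ap (eta f M) U m) := rfl
  show rM (pb f M) h (show Γ(pb f M, f ⁻¹ᵁ U') from ap (eta f M) U' (rM M hU m)) = _
  rw [← h1]
  show rM (pb f M) h (show Γ(pb f M, f ⁻¹ᵁ U') from
    rM (pf f (pb f M)) hU (ap (eta f M) U m)) = _
  rw [h3, rM_rM]
  rfl

/-- semilinearity -/
theorem es_smul (M : X.Modules) (U : X.Opens) (V : Y.Opens) (h : V ≤ f ⁻¹ᵁ U)
    (r : Γ(X, U)) (m : Γ(M, U)) :
    es f M U V h (r • m) = (f.appLE U V h).hom r • es f M U V h m := by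
  have h1 : (show Γ(pb f M, f ⁻¹ᵁ U) from ap (eta f M) U (r • m)) =
      (f.app U).hom r • (show Γ(pb f M, f ⁻¹ᵁ U) from ap (eta f M) U m) :=
    (ap (eta f M) U).map_smul r m
  have h2 : (f.appLE U V h).hom r = rO h ((f.app U).hom r) := by
    unfold Scheme.Hom.appLE rO
    rfl
  show rM (pb f M) h (show Γ(pb f M, f ⁻¹ᵁ U) from ap (eta f M) U (r • m)) = _
  rw [h1, rM_smul, h2]
  rfl

/-- naturality -/
theorem es_nat {M N : X.Modules} (φ : M ⟶ N) (U : X.Opens) (V : Y.Opens) (h : V ≤ f ⁻¹ᵁ U)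
    (m : Γ(M, U)) :
    ap ((Scheme.Modules.pullback f).map φ) V (es f M U V h m) = es f N U V h (ap φ U m) := by
  have h1 : φ ≫ eta f N = eta f M ≫
      (Scheme.Modules.pushforward f).map ((Scheme.Modules.pullback f).map φ) :=
    (Scheme.Modules.pullbackPushforwardAdjunction f).unit.naturality φ
  have h2 : ap (eta f N) U (ap φ U m) = ap ((Scheme.Modules.pushforward f).map
      ((Scheme.Modules.pullback f).map φ)) U (ap (eta f M) U m) := by
    rw [← ap_comp, ← ap_comp, h1]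
  show _ = rM (pb f N) h (show Γ(pb f N, f ⁻¹ᵁ U) from ap (eta f N) U (ap φ U m))
  rw [h2]
  exact (rM_ap ((Scheme.Modules.pullback f).map φ) h _).symm

end es

/-- isomorphic coherent sheaves have the same class -/
theorem cl_iso {X : Scheme.{0}} {M N : X.Modules} (e : M ≅ N) (hM : IsCoh M) (hN : IsCoh N) :
    cl M hM = cl N hN := by
  obtain ⟨Z, hZ, hv⟩ := (thm_S5 thm_S1 thm_S2 X).2.2.2.2
  have h0 : cl Z hZ = 0 := (thm_S5 thm_S1 thm_S2 X).2.2.2.1 Z hZ hv
  have h1 := cl_add (ShortComplex.mk (0 : Z ⟶ M) e.hom (by simp)) ?_ hZ hM hN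
  · rw [h0, zero_add] at h1
    exact h1
  · refine (thm_S1 X).2.2.2.2 _ ?_ ?_ ?_
    · intro U hU s t _
      exact (hv U le_top hU s).trans (hv U le_top hU t).symm
    · intro U hU s hs
      refine ⟨0, ?_⟩
      rw [map_zero]
      have h2 : ap e.inv U (ap e.hom U s) = s := by
        rw [← ap_comp, e.hom_inv_id, ap_id]
      rw [← h2, hs, map_zero]
    · intro U hU s
      refine ⟨ap e.inv U s, ?_⟩
      rw [← ap_comp, e.inv_hom_id, ap_id]

end Pool.Agent.KIN
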