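import Pool.Agent.KSS.St
import Pool.Agent.KSS.K6
import Pool.Agent.KSS.S1
import Pool.Agent.KSS.S2
import Pool.Agent.KSS.S3
import Pool.Agent.KSS.S5
import Pool.Agent.KSS.S6
import Pool.Agent.KTH.Defs

/-!
# KIN: `K'₀` is a theory in the sense of `Pool.Agent.KTH.Thy`: definitions

HUNT MP_e17fa799_al, line S, instance part (architect helper71). `K0` is
`Pool.Agent.KSS.K0`, the Grothendieck group of coherent sheaves.
-/

set_option autoImplicit false

noncomputable section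

namespace Pool.Agent.KIN

open CategoryTheory AlgebraicGeometry TopologicalSpace Function Pool.Agent.KSS

/-- the pull-back of a sheaf of modules -/
abbrev pb {X Y : Scheme.{0}} (f : Y ⟶ X) (M : X.Modules) : Y.Modules :=
  (Scheme.Modules.pullback f).obj M

/-- the push-forward of a sheaf of modules -/
abbrev pf {X Y : Scheme.{0}} (f : Y ⟶ X) (N : Y.Modules) : X.Modules :=
  (Scheme.Modules.pushforward f).obj N

/-- the unit `M ⟶ f_* f^* M` -/
abbrev eta {X Y : Scheme.{0}} (f : Y ⟶ X) (M : X.Modules) : M ⟶ pf f (pb f M) :=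
  (Scheme.Modules.pullbackPushforwardAdjunction f).unit.app M

/-- The map `Γ(M, U) → Γ(f^* M, V)` for `V ≤ f⁻¹ U`. -/
def es {X Y : Scheme.{0}} (f : Y ⟶ X) (M : X.Modules) (U : X.Opens) (V : Y.Opens)
    (h : V ≤ f ⁻¹ᵁ U) : Γ(M, U) →+ Γ(pb f M, V) :=
  (rM (pb f M) h).comp
    (show Γ(M, U) →+ Γ(pb f M, f ⁻¹ᵁ U) from (ap (eta f M) U).toAddMonoidHom)

/-- The additive map `h : M → N` from an `A`-module to a `B`-module is a base change along
`φ : A → B`: it is semilinear and induces an isomorphism `B ⊗[A] M ≅ N`. -/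
def BCh {A B : Type} [CommRing A] [CommRing B] (φ : A →+* B) {M N : Type} [AddCommGroup M]
    [Module A M] [AddCommGroup N] [Module B N] (h : M →+ N) : Prop :=
  letI := φ.toAlgebra
  ∃ e : TensorProduct A B M ≃ₗ[B] N, ∀ m, e (1 ⊗ₜ[A] m) = h m

/-- the pull-back on `K'₀` along the flat morphism `f` is defined -/
def PullOK {X Y : Scheme.{0}} (f : Y ⟶ X) : Prop :=
  ∃ hc : ∀ M : X.Modules, IsCoh M → IsCoh (pb f M),
    ∀ (S : ShortComplex X.Modules) (h₁ : IsCoh S.X₁) (h₂ : IsCoh S.X₂) (h₃ : IsCoh S.X₃),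
      S.ShortExact → cl (pb f S.X₂) (hc _ h₂) = cl (pb f S.X₁) (hc _ h₁) +
        cl (pb f S.X₃) (hc _ h₃)

open Classical in
/-- the pull-back homomorphism on `K'₀` (zero if `PullOK` does not hold) -/
def pullK {X Y : Scheme.{0}} (f : Y ⟶ X) : K0 X →+ K0 Y :=
  if h : PullOK f then K0lift (fun M hM => cl (pb f M) (h.choose M hM)) h.choose_spec else 0

theorem pushK_exists {X Y : Scheme.{0}} (f : X ⟶ Y) [IsFinite f] : ∃ (fs : K0 X →+ K0 Y)
    (hc : ∀ M : X.Modules, IsCoh M → IsCoh (pf f M)),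
    (∀ (M : X.Modules) (hM : IsCoh M), fs (cl M hM) = cl (pf f M) (hc M hM)) ∧
    ∀ O : Y.Opens, ∀ y ∈ SO (f ⁻¹ᵁ O), fs y ∈ SO O :=
  thm_K6 (thm_S3 thm_S1 thm_S2) (thm_S6 thm_S1 thm_S2 (thm_S3 thm_S1 thm_S2)) Y X f

/-- the push-forward homomorphism on `K'₀` along a finite morphism -/
def pushK {X Y : Scheme.{0}} (f : X ⟶ Y) [IsFinite f] : K0 X →+ K0 Y := (pushK_exists f).choose

theorem coh_pf {X Y : Scheme.{0}} (f : X ⟶ Y) [IsFinite f] (M : X.Modules) (hM : IsCoh M) :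
    IsCoh (pf f M) := (pushK_exists f).choose_spec.choose M hM

theorem pushK_cl {X Y : Scheme.{0}} (f : X ⟶ Y) [IsFinite f] (M : X.Modules) (hM : IsCoh M) :
    pushK f (cl M hM) = cl (pf f M) (coh_pf f M hM) :=
  (pushK_exists f).choose_spec.choose_spec.1 M hM

theorem pushK_SO {X Y : Scheme.{0}} (f : X ⟶ Y) [IsFinite f] (O : Y.Opens) :
    ∀ y ∈ SO (f ⁻¹ᵁ O), pushK f y ∈ SO O :=
  (pushK_exists f).choose_spec.choose_spec.2 O

end Pool.Agent.KIN
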