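import Pool.Agent.KIN.Basic

/-!
# KIN: statements of the modules

`K'₀` (`Pool.Agent.KSS.K0`) satisfies the axioms of `Pool.Agent.KTH.Thy`. Every `def St_X : Prop` is one
module `Pool/Agent/KIN/X.lean` with `theorem thm_X (h.. : St_..) : St_X` in the namespace
`Pool.Agent.KIN`; the hypotheses may be any of the statements listed after `needs`. The theorems
`Pool.Agent.KSS.thm_S1, thm_S2`, `Pool.Agent.KSS.all_S3, …, all_K6` (import `Pool.Agent.KSS.All`) may be
used everywhere (statements with hints in `Pool/Agent/KSS/St.lean`), and the lemmas of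
`Pool/Agent/KSS/Basic.lean` and `Pool/Agent/KIN/Basic.lean`.
`QLoc`, `ap`, `rM`, `rO`, `Van`, `cl`, `SO` are explained in `Pool/Agent/KSS/Basic.lean`.
-/

set_option autoImplicit false

noncomputable section

namespace Pool.Agent.KIN

open CategoryTheory AlgebraicGeometry TopologicalSpace Function Pool.Agent.KSS
open Pool.Agent.Helper11

/-! ## Algebra -/

/-- **A0** (2.5 h). Algebra of base changes (`BCh φ h`: `h : M → N` induces `B ⊗[A] M ≅ N`).
(1) semilinearity; (2) universal property (`TensorProduct.AlgebraTensorModule.lift` or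
`IsBaseChange`); (3) finiteness; (4) right exactness: two squares over `a : M₁ → M₂`, `b : M₂ → M₃`;
surjectivity, exactness in the middle (if `b` is surjective and `M₁ → M₂ → M₃` exact), and for flat
`φ` injectivity of `a'`; (5) a linear map compatible with two base changes of the same module is
bijective; (6) surjective `φ` (kernel `I`): `h` is surjective, its kernel is `I M`;
(7) composition; (8) cancellation; (9) cocartesian squares: `D = B ⊗[A] C`, `M` a `C`-module: a base
change along `C → D` is a base change along `A → B` (module structures by restriction); (10) free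
algebras: `M ^ d ≅ N`, `(m_i) ↦ ∑ b_i h(m_i)`; (11) localization at one element (`B` a localization of
`A` away from `f`, `h` semilinear): numerators and annihilators. (12) base changes along a bijective
ring homomorphism are the semilinear bijections. needs: nothing -/
def St_A0 : Prop :=
  (∀ (A B M N : Type) [CommRing A] [CommRing B] [AddCommGroup M] [Module A M] [AddCommGroup N]
    [Module B N] (φ : A →+* B) (h : M →+ N), BCh φ h → ∀ (a : A) (m : M), h (a • m) = φ a • h m) ∧
  (∀ (A B M N P : Type) [CommRing A] [CommRing B] [AddCommGroup M] [Module A M] [AddCommGroup N]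
    [Module B N] [AddCommGroup P] [Module B P] (φ : A →+* B) (h : M →+ N), BCh φ h →
    (∀ g : M →+ P, (∀ (a : A) (m : M), g (a • m) = φ a • g m) →
      ∃ l : N →ₗ[B] P, ∀ m, l (h m) = g m) ∧
    (∀ l l' : N →ₗ[B] P, (∀ m, l (h m) = l' (h m)) → l = l')) ∧
  (∀ (A B M N : Type) [CommRing A] [CommRing B] [AddCommGroup M] [Module A M] [AddCommGroup N]
    [Module B N] (φ : A →+* B) (h : M →+ N), BCh φ h → Module.Finite A M → Module.Finite B N) ∧
  (∀ (A B M₁ M₂ M₃ N₁ N₂ N₃ : Type) [CommRing A] [CommRing B] [AddCommGroup M₁] [Module A M₁]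
    [AddCommGroup M₂] [Module A M₂] [AddCommGroup M₃] [Module A M₃] [AddCommGroup N₁] [Module B N₁]
    [AddCommGroup N₂] [Module B N₂] [AddCommGroup N₃] [Module B N₃] (φ : A →+* B) (h₁ : M₁ →+ N₁)
    (h₂ : M₂ →+ N₂) (h₃ : M₃ →+ N₃) (a : M₁ →ₗ[A] M₂) (b : M₂ →ₗ[A] M₃) (a' : N₁ →ₗ[B] N₂)
    (b' : N₂ →ₗ[B] N₃), BCh φ h₁ → BCh φ h₂ → BCh φ h₃ → (∀ m, a' (h₁ m) = h₂ (a m)) →
    (∀ m, b' (h₂ m) = h₃ (b m)) →
      (Surjective b → Surjective b') ∧
      (Surjective b → (∀ m, b m = 0 ↔ ∃ m₁, a m₁ = m) → ∀ n, b' n = 0 ↔ ∃ n₁, a' n₁ = n) ∧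
      (φ.Flat → Injective a → Injective a')) ∧
  (∀ (A B M N N' : Type) [CommRing A] [CommRing B] [AddCommGroup M] [Module A M] [AddCommGroup N]
    [Module B N] [AddCommGroup N'] [Module B N'] (φ : A →+* B) (h : M →+ N) (h' : M →+ N')
    (l : N →ₗ[B] N'), BCh φ h → BCh φ h' → (∀ m, l (h m) = h' m) → Bijective l) ∧
  (∀ (A B M N : Type) [CommRing A] [CommRing B] [AddCommGroup M] [Module A M] [AddCommGroup N]
    [Module B N] (φ : A →+* B) (h : M →+ N), BCh φ h → Surjective φ →
      Surjective h ∧ ∀ m, h m = 0 ↔ m ∈ RingHom.ker φ • (⊤ : Submodule A M)) ∧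
  (∀ (A B C M N P : Type) [CommRing A] [CommRing B] [CommRing C] [AddCommGroup M] [Module A M]
    [AddCommGroup N] [Module B N] [AddCommGroup P] [Module C P] (φ : A →+* B) (ψ : B →+* C)
    (h : M →+ N) (h' : N →+ P), BCh φ h → BCh ψ h' → BCh (ψ.comp φ) (h'.comp h)) ∧
  (∀ (A B C M N P : Type) [CommRing A] [CommRing B] [CommRing C] [AddCommGroup M] [Module A M]
    [AddCommGroup N] [Module B N] [AddCommGroup P] [Module C P] (φ : A →+* B) (ψ : B →+* C)
    (h : M →+ N) (h' : N →+ P), BCh φ h → (∀ (b : B) (n : N), h' (b • n) = ψ b • h' n) →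
    BCh (ψ.comp φ) (h'.comp h) → BCh ψ h') ∧
  (∀ (A B C D M N : Type) [CommRing A] [CommRing B] [CommRing C] [CommRing D] [Algebra A B]
    [Algebra A C] [Algebra B D] [Algebra C D] [Algebra A D] [IsScalarTower A B D]
    [IsScalarTower A C D] [Algebra.IsPushout A B C D] [AddCommGroup M] [Module C M] [Module A M]
    [IsScalarTower A C M] [AddCommGroup N] [Module D N] [Module B N] [IsScalarTower B D N]
    (h : M →+ N), BCh (algebraMap C D) h → BCh (algebraMap A B) h) ∧
  (∀ (A B M N : Type) [CommRing A] [CommRing B] [AddCommGroup M] [Module A M] [AddCommGroup N]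
    [Module B N] [Algebra A B] (d : ℕ) (b : Module.Basis (Fin d) A B) (h : M →+ N),
    BCh (algebraMap A B) h → Bijective fun m : Fin d → M => ∑ i, b i • h (m i)) ∧
  (∀ (A B M N : Type) [CommRing A] [CommRing B] [AddCommGroup M] [Module A M] [AddCommGroup N]
    [Module B N] [Algebra A B] (f : A) [IsLocalization.Away f B] (h : M →+ N),
    (∀ (a : A) (m : M), h (a • m) = algebraMap A B a • h m) →
    (BCh (algebraMap A B) h ↔ (∀ n : N, ∃ (e : ℕ) (m : M), h m = algebraMap A B f ^ e • n) ∧
      ∀ m : M, h m = 0 → ∃ e : ℕ, f ^ e • m = 0)) ∧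
  (∀ (A B M N : Type) [CommRing A] [CommRing B] [AddCommGroup M] [Module A M] [AddCommGroup N]
    [Module B N] (φ : A →+* B) (h : M →+ N), Bijective φ →
    (∀ (a : A) (m : M), h (a • m) = φ a • h m) → (BCh φ h ↔ Bijective h))

/-! ## Local nature -/

/-- **L0** (2 h). Local recognition for quasi-coherent sheaves. For a quasi-coherent sheaf `M` and
`V` affine the sections over `D(g) ≤ V` are localizations (`thm_S2`), so injectivity, surjectivity and
exactness on sections over `V` imply the same for `D(g)`; every affine open `W` is covered by finitely many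
`D(g_a)` (basic open in `W` and in some given `V`; `exists_basicOpen_le_affine_inter`); gluing: injective
by separatedness; an element of `Γ(N, W)` which comes locally comes (`span_eq_top_of_isLocalizedModule` style
arguments, `Submodule.mem_of_span_eq_top_of_smul_pow_mem`). (1) short exactness; (2) isomorphisms;
(3) vanishing on an open set `O`; (4) coherence (`Module.Finite.of_localizationSpan_finite`).
needs: nothing -/
def St_L0 : Prop := ∀ Y : Scheme.{0},
  (∀ S : ShortComplex Y.Modules, S.X₁.IsQuasicoherent → S.X₂.IsQuasicoherent →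
    S.X₃.IsQuasicoherent → (∀ y : Y, ∃ V : Y.Opens, IsAffineOpen V ∧ y ∈ V ∧
      Injective (ap S.f V) ∧ (∀ s, ap S.g V s = 0 ↔ ∃ t, ap S.f V t = s) ∧
      Surjective (ap S.g V)) → S.ShortExact) ∧
  (∀ (M N : Y.Modules) (φ : M ⟶ N), M.IsQuasicoherent → N.IsQuasicoherent →
    (∀ y : Y, ∃ V : Y.Opens, IsAffineOpen V ∧ y ∈ V ∧ Bijective (ap φ V)) → IsIso φ) ∧
  (∀ (M : Y.Modules) (O : Y.Opens), M.IsQuasicoherent →
    (∀ y ∈ O, ∃ V : Y.Opens, IsAffineOpen V ∧ y ∈ V ∧ ∀ s : Γ(M, V), s = 0) → Van O M) ∧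
  (∀ M : Y.Modules, M.IsQuasicoherent →
    (∀ y : Y, ∃ V : Y.Opens, IsAffineOpen V ∧ y ∈ V ∧ Module.Finite Γ(Y, V) Γ(M, V)) → IsCoh M)

/-! ## Pull-backs -/

/-- **P1** (helper71). The pull-back of a quasi-coherent sheaf is quasi-coherent, and its sections over
affine opens are base changes. needs: nothing -/
def St_P1 : Prop := ∀ (X Y : Scheme.{0}) (f : Y ⟶ X) (M : X.Modules), M.IsQuasicoherent →
  (pb f M).IsQuasicoherent ∧
  ∀ (U : X.Opens) (V : Y.Opens) (h : V ≤ f ⁻¹ᵁ U), IsAffineOpen U → IsAffineOpen V →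
    BCh (f.appLE U V h).hom (es f M U V h)

/-- **P2** (2 h). Flat pull-back is exact, pull-back preserves coherence, so `pullK` is what it should
be. (Every point of `Y` lies in an affine `V ≤ f⁻¹ U`, `U` affine; `St_P1`, `St_A0` (1), (3), (4), `es_nat`,
`St_L0`; sections of short exact sequences over affine opens: `thm_S1`, `all_S3`; flatness of
`f.appLE U V h`: `Flat` of Mathlib (`Scheme.Hom.flat_appLE` or similar).)
(3) open immersions: sections of `pb j M`: `es j M W (j⁻¹ W)` is bijective for `W ≤ j.opensRange`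
(`Scheme.Modules.restrictFunctorIsoPullback`, `restrictAdjunction_unit_app_app`, or `St_P1` and
`St_A0` (12)).
needs: A0, L0, P1 -/
def St_P2 : Prop :=
  (∀ (X Y : Scheme.{0}) (f : Y ⟶ X) [Flat f] (S : ShortComplex X.Modules),
    S.X₁.IsQuasicoherent → S.X₂.IsQuasicoherent → S.X₃.IsQuasicoherent → S.ShortExact →
      (S.map (Scheme.Modules.pullback f)).ShortExact) ∧
  (∀ (X Y : Scheme.{0}) [IsLocallyNoetherian X] [IsLocallyNoetherian Y] (f : Y ⟶ X)
    (M : X.Modules), IsCoh M → IsCoh (pb f M)) ∧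
  (∀ (X Y : Scheme.{0}) [IsLocallyNoetherian X] [IsLocallyNoetherian Y] (f : Y ⟶ X) [Flat f]
    (M : X.Modules) (hM : IsCoh M) (hM' : IsCoh (pb f M)), pullK f (cl M hM) = cl (pb f M) hM') ∧
  (∀ (X U : Scheme.{0}) (j : U ⟶ X) [IsOpenImmersion j] (M : X.Modules), M.IsQuasicoherent →
    ∀ (W : X.Opens), IsAffineOpen W → W ≤ j.opensRange →
      Bijective (es j M W (j ⁻¹ᵁ W) le_rfl))

/-- **P4** (3 h). Base change for an affine morphism `f` and any `g`. The morphism is
the transpose of `f_* M → f_* g'_* g'^* M = g_* f'_* g'^* M`. On sections over affine `V ≤ g⁻¹ U`: the left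
side is the base change of `Γ(M, f⁻¹ U)` along `Γ(Y, U) → Γ(Y', V)` (`St_P1` for `pf f M`, quasi-coherent by
`all_S6`), the right side `Γ(pb g' M, f'⁻¹ V)` is the base change along `Γ(X, f⁻¹ U) → Γ(X', f'⁻¹ V)`
(`St_P1`), and `Γ(X', f'⁻¹ V) = Γ(Y', V) ⊗ Γ(X, f⁻¹ U)` (the square is cartesian, restricted to the
affine opens: `isPullback` of affine schemes, `Algebra.IsPushout`); `St_A0` (9), (5); `St_L0` (2).
needs: A0, L0, P1 -/
def St_P4 : Prop := ∀ (X' X Y' Y : Scheme.{0}) (g' : X' ⟶ X) (f' : X' ⟶ Y') (f : X ⟶ Y)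
  (g : Y' ⟶ Y) [IsAffineHom f] [IsAffineHom f'], IsPullback g' f' f g →
    ∀ M : X.Modules, M.IsQuasicoherent → Nonempty (pb g (pf f M) ≅ pf f' (pb g' M))

/-- **P5** (2.5 h). Free algebras: `push (pull x) = d x`. For `M` coherent `f_* f^* M ≅ M ^ d`: the basis
`b_i` of `R'` gives global functions on `Y`, hence `M ^ d → f_* f^* M`, `(m_i) ↦ ∑ b_i η(m_i)`
(`Limits.biproduct` of `d` copies, or induction on `d` with short exact sequences: the
images of `M ^ i`); on sections over affine `U`: `Γ(Y, f⁻¹ U) = R' ⊗[R] Γ(X, U)` is free with the basis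
`b_i` (the square is cartesian), `St_P1`, `St_A0` (10).
needs: A0, L0, P1, P2 -/
def St_P5 : Prop := ∀ (X Y : Scheme.{0}) [IsNoetherian X] (R R' : Type) [CommRing R] [CommRing R']
  [Algebra R R'] (d : ℕ) (_ : Module.Basis (Fin d) R R') (f : Y ⟶ X)
  (g : Y ⟶ Spec (CommRingCat.of R')) (h : X ⟶ Spec (CommRingCat.of R)) [Flat f] [IsFinite f],
  IsPullback f g h (Spec.map (CommRingCat.ofHom (algebraMap R R'))) →
    ∀ x : K0 X, pushK f (pullK f x) = d • x

/-! ## Open subschemes -/

/-- **E0** (3 h). The push-forward of a quasi-coherent sheaf along an open immersion into a locally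
noetherian scheme is quasi-coherent. `thm_S2`: for `W` affine, `f ∈ Γ(X, W)`: the sections over
`D(f) ∩ U` are the localization of those over `W ∩ U`; `W ∩ U` is quasi-compact (noetherian), cover it by
finitely many affines `V_a`, and cover the `V_a ∩ V_b` by finitely many affines; `QLoc` for the `V_a` and
the sheaf property (the argument of the qcqs lemma `exists_eq_pow_mul_of_is_compact_of_quasi_separated_space`
of Mathlib for functions). needs: nothing -/
def St_E0 : Prop := ∀ (X U : Scheme.{0}) [IsLocallyNoetherian X] (j : U ⟶ X) [IsOpenImmersion j]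
  (M : U.Modules), M.IsQuasicoherent → (pf j M).IsQuasicoherent

/-- **E1** (4 h). Coherent sheaves extend. Let `E = pf j M`, quasi-coherent by `St_E0`. Claim for all open
`O ≥ j.opensRange`: there are `F` quasi-coherent on `X`, `u : F ⟶ E` injective on all sections, bijective
over the affines contained in `j.opensRange`, with finitely generated sections over the affines contained in
`O`. Induction (adding the members `V` of a finite affine cover of `X`): given `(F, u)` for `O`, put
`N = Γ(F, V)`; `V ∩ O` is covered by finitely many `D(g_a)`, `g_a ∈ Γ(X, V)`, `Γ(F, D(g_a)) = N_(g_a)` is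
finitely generated: so there is a finitely generated submodule `N₀ ≤ N` with `(N₀)_(g_a) = N_(g_a)` for all `a`.
Let `F' ≤ F` be the subsheaf of the sections whose restriction to `V` lies in `N₀^~`: the fibre product
(`all_S4` (3), or `Limits.pullback` with `thm_S1`: the argument of `all_S4` works for quasi-coherent sheaves) of
`F → κ_* κ^* F` and `κ_*(N₀^~) → κ_* κ^* F`, `κ : Spec Γ(X, V) → X` (`IsAffineOpen.fromSpec`; `St_E0`).
Sections of `F'` over an affine `W ≤ V` are those of `N₀^~`, over an affine `W ≤ O` those of `F` (since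
`N₀^~ = N^~` on `V ∩ O`). For `O = ⊤`: `St_L0` (4). needs: L0, E0 -/
def St_E1 : Prop := ∀ (X U : Scheme.{0}) [IsNoetherian X] (j : U ⟶ X) [IsOpenImmersion j]
  (M : U.Modules), IsCoh M → ∃ (F : X.Modules) (u : F ⟶ pf j M), IsCoh F ∧
    (∀ W : X.Opens, Injective (ap u W)) ∧
    ∀ W : X.Opens, IsAffineOpen W → W ≤ j.opensRange → Bijective (ap u W)

/-- **E2** (3.5 h). The kernel of the restriction to an open subscheme. Let `O = j.opensRange`. For `M`
coherent on `U` call `F` coherent on `X` with `u : F ⟶ pf j M`, bijective over all affine `W ≤ O`, an extension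
of `M` (`St_E1`: exists). (a) The class of `F` modulo `SO O` depends only on `M`: the fibre product `P` of two
extensions over `pf j M` (`all_S4` (3); `pf j M` is quasi-coherent) is an extension, and for a morphism
`P ⟶ F` bijective over all affine `W ≤ O` kernel and cokernel are in `SO O` (`all_S4` (1), (2), as in `K1`).
(b) Additivity for `0 → M' → M → M'' → 0` on `U`: `F` an extension of `M`; the composition
`F ⟶ pf j M ⟶ pf j M''` has an image which is an extension of `M''` and a kernel which is an extension of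
`M'` (`all_S4` (1); `pf j` is left exact on sections, and right exact on affine `W ≤ O`: `j⁻¹ W` is affine).
(c) So there is `ψ : K0 U →+ K0 X ⧸ SO O` (`K0lift`), `ψ (cl M) = [F]`; for `G` coherent on `X` the sheaf `G` with
`eta j G` is an extension of `pb j G` (`St_P2` (4)), so `ψ ∘ pullK j` is the quotient map.
needs: E0, E1, P2 -/
def St_E2 : Prop := ∀ (X U : Scheme.{0}) [IsNoetherian X] (j : U ⟶ X) [IsOpenImmersion j]
  (x : K0 X), pullK j x = 0 → x ∈ SO j.opensRange

/-! ## Closed subschemes -/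

/-- **D1** (2.5 h). Closed immersions `i : Z → X`, `I_U` the kernel of `Γ(X, U) → Γ(Z, i⁻¹ U)` (surjective for
affine `U`). (1) `F ⟶ i_* i^* F` is surjective over affine opens with kernel `I_U Γ(F, U)`; (2) if
`I_U` kills `Γ(F, U)` for all affine `U` then it is an isomorphism; (3) `i^* i_* N ≅ N` (the counit;
`(i_* N)(U) = N(i⁻¹ U)` is killed by `I_U`); `i⁻¹ U`, `U` affine, are enough to recognise
isomorphisms on `Z` by `St_L0`. (4) kernel sequence: there is a short exact sequence `K ⟶ F ⟶ i_* i^* F`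
of coherent sheaves, the sections of `K` over an affine `U` are `I_U Γ(F, U)`. needs: A0, L0, P1, P2 -/
def St_D1 : Prop := ∀ (Z X : Scheme.{0}) [IsLocallyNoetherian X] (i : Z ⟶ X) [IsClosedImmersion i],
  (∀ F : X.Modules, IsCoh F → ∀ U : X.Opens, IsAffineOpen U → Surjective (ap (eta i F) U) ∧
    ∀ s, ap (eta i F) U s = 0 ↔ s ∈ RingHom.ker (i.app U).hom • (⊤ : Submodule Γ(X, U) Γ(F, U))) ∧
  (∀ F : X.Modules, IsCoh F → (∀ U : X.Opens, IsAffineOpen U → ∀ r ∈ RingHom.ker (i.app U).hom,
    ∀ s : Γ(F, U), r • s = 0) → IsIso (eta i F)) ∧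
  (∀ N : Z.Modules, IsCoh N → Nonempty (pb i (pf i N) ≅ N)) ∧
  (∀ F : X.Modules, IsCoh F → ∃ (K : X.Modules) (ι : K ⟶ F) (w : ι ≫ eta i F = 0), IsCoh K ∧
    (ShortComplex.mk ι (eta i F) w).ShortExact ∧
    (∀ U : X.Opens, Injective (ap ι U)) ∧
    ∀ U : X.Opens, IsAffineOpen U → ∀ s : Γ(F, U),
      (∃ t, ap ι U t = s) ↔ s ∈ RingHom.ker (i.app U).hom • (⊤ : Submodule Γ(X, U) Γ(F, U)))

/-- **D2** (2.5 h). A coherent sheaf which vanishes outside the closed subscheme `Z` is killed by
a power of its ideal: for each `U` of a finite affine cover an element `r ∈ I_U` has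
`D(r) ≤ Zᶜ`, so `Γ(F, D(r)) = 0` and `r` acts nilpotently (`thm_S2`) on the finitely generated `Γ(F, U)`;
`I_U` is finitely generated. For the other affine opens: `I` and `F` localize (cover by `D(g)`; the
kernel of `i.app` localizes: `i.app` is the restriction of functions; or use
`IdealSheafData`). (1) this; (2) for surjective `i` the ideal itself is nilpotent (apply (1) to the
structure sheaf or argue in the same way). needs: nothing -/
def St_D2 : Prop := ∀ (Z X : Scheme.{0}) [IsNoetherian X] (i : Z ⟶ X) [IsClosedImmersion i],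
  (∀ (O : X.Opens), Set.range i = (O : Set X)ᶜ → ∀ F : X.Modules, IsCoh F → Van O F →
    ∃ n : ℕ, ∀ U : X.Opens, IsAffineOpen U → ∀ r ∈ RingHom.ker (i.app U).hom ^ n,
      ∀ s : Γ(F, U), r • s = 0) ∧
  (Function.Surjective i → ∃ n : ℕ, ∀ U : X.Opens, IsAffineOpen U →
    RingHom.ker (i.app U).hom ^ n = ⊥)

/-- **D3** (2 h). `SO O` is the image of `K'₀(Z)`, `Z = Oᶜ`, and restricts to zero.
(1) `i_* N` vanishes on `O` (`(i_* N)(W) = N(i⁻¹ W)`, `i⁻¹ W = ∅`; or `pushK_SO` for `i⁻¹ O = ⊥` and
`SO_bot`). (2) Induction on `n` of `St_D2` (1): the sequence `St_D1` (4): `[F] = [K] + push [i^* F]`, and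
`I ^ (n-1) K = 0` (sections over affines); `n = 0`: `F` vanishes, `[F] = 0`.
(3) `pullK j (cl F) = cl (pb j F)`, and `pb j F` vanishes if `F` vanishes on `O` (`St_P2` (4), `St_L0` (3)).
needs: L0, P2, D1, D2 -/
def St_D3 : Prop := ∀ (Z X : Scheme.{0}) [IsNoetherian X] (i : Z ⟶ X) [IsClosedImmersion i]
  (O : X.Opens), Set.range i = (O : Set X)ᶜ →
  (∀ z : K0 Z, pushK i z ∈ SO O) ∧ (∀ x ∈ SO O, ∃ z : K0 Z, pushK i z = x) ∧
  (∀ (U : Scheme.{0}) (j : U ⟶ X) [IsOpenImmersion j], j.opensRange = O →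
    ∀ x ∈ SO O, pullK j x = 0)

/-- **D4** (4 h). Devissage: injectivity of the push-forward along a surjective closed immersion. Write
`IF` for the kernel of `eta i F` (`St_D1` (4)), `F/I = i^* F`. `I ^ n = 0` (`St_D2` (2)). For coherent `F`
define `ρ_0 F = 0`, `ρ_(m+1) F = cl (i^* F) + ρ_m (IF) ∈ K0 Z` (well defined on isomorphism classes).
Let `𝒞_m` be the coherent sheaves killed by `I ^ m`. Claim: for `0 → F' → F → F'' → 0` in `𝒞_m`:
`ρ_m F = ρ_m F' + ρ_m F''`. Induction on `m`. (a) `i^*` is exact on sheaves killed by `I` (there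
`F = i_* i^* F`, `St_D1` (2)). (b) `0 → IF ∩ F' → IF → IF'' → 0` is exact in `𝒞_(m-1)`, so
`ρ(IF) = ρ(IF ∩ F') + ρ(IF'')`; `0 → F'/(IF ∩ F') → F/IF → F''/IF'' → 0` is killed by `I`, so
`[F/I] = [F'/(IF ∩ F')] + [F''/I]`. (c) for `IF' ≤ G ≤ F'` with `G ∈ 𝒞_(m-1)`: `ρ_(m-1) G + [F'/G] = ρ_m F'`:
`0 → IF' → G → G/IF' → 0` in `𝒞_(m-1)` (induction; `ρ_(m-1)(G/IF') = [G/IF']` as it is killed by `I`) and
`0 → G/IF' → F'/IF' → F'/G → 0` killed by `I`. Apply (c) to `G = IF ∩ F'`. So `ρ_n` defines
`K0 X → K0 Z`, and `ρ_n (i_* N) = [i^* i_* N] = [N]` (`St_D1` (3); `I(i_* N) = 0`; `n ≥ 1`; if `n = 0` then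
`X` is empty).
All constructions (intersections, quotients) with `all_S4`. needs: A0, L0, P1, P2, D1, D2 -/
def St_D4 : Prop := ∀ (Z X : Scheme.{0}) [IsNoetherian X] (i : Z ⟶ X) [IsClosedImmersion i],
  Function.Surjective i → Injective (pushK i)

/-! ## Homotopy invariance -/

/-- **H1** (2.5 h). The affine case. Let `κ_A : G0 A → K0 (Spec A)`, `[N] ↦ [N^~]` (`tilde` is exact:
`tilde.functor`; coherent: sections over affine opens of `Spec A`, `St_L0` (4) or localizations), for a
noetherian ring `A`. It is surjective (`isIso_fromTildeΓ_of_isQuasicoherent`). For flat `φ : A → B`: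
`pullK (Spec φ) (κ_A x) = κ_B (B ⊗ x)` (`pb (Spec φ) (N^~) ≅ (B ⊗ N)^~` by `St_P1` on global sections and
`isIso_fromTildeΓ_of_isQuasicoherent`). `G0 A → G0 A[t]`, `N ↦ N[t]`, is surjective: `Pool/Agent/Helper11`,
`Pool/Agent/HPow/Cl.lean` (`GoodP.polynomial` and the lemmas used there). needs: A0, L0, P1, P2 -/
def St_H1 : Prop := ∀ (A : Type) [CommRing A] [IsNoetherianRing A],
  Surjective (pullK (Spec.map (CommRingCat.ofHom (Polynomial.C : A →+* Polynomial A))))

/-- **H2** (3 h). Homotopy invariance in general. Noetherian induction over the closed subschemes `Z` of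
`X` (base changes `f_Z : Y_Z → Z`; `WellFoundedLT (Closeds X)`, reduced structures; or induction over the
ranges): let `Z` be nonempty, `W ≤ Z` a nonempty affine open subscheme, `Z' → Z` a closed subscheme with
range `Z ∖ W`. `y ∈ K0 Y_Z`: over `W` (`Y_W ≅ Spec A[t]`, `Γ(Z, W) = A`) it is the pull-back of
`w ∈ K0 W` (`St_H1`), and `w` is the restriction of `z ∈ K0 Z` (`St_E1`: coherent sheaves extend), so
`y - pull z` restricts to `0` on `Y_W`, hence comes from `K0 Y_(Z')` (`St_E2`, `St_D3`) where it is a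
pull-back by induction; base change (`St_P4`) for the push-forward. needs: E1, E2, D3, P2, P4, H1 -/
def St_H2 : Prop := ∀ (X Y : Scheme.{0}) [IsNoetherian X] (R : Type) [CommRing R] (f : Y ⟶ X)
  (g : Y ⟶ Spec (CommRingCat.of (Polynomial R))) (h : X ⟶ Spec (CommRingCat.of R)) [Flat f],
  IsPullback f g h (Spec.map (CommRingCat.ofHom (Polynomial.C : R →+* Polynomial R))) →
    Surjective (pullK f)

/-! ## The theory -/

/-- **Fin** (2 h). `K'₀` is a theory: `T = K0`, `pull = pullK`, `push = pushK`. `pull_id`, `pull_comp`,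
`push_id`, `push_comp`: `Scheme.Modules.pullbackId`, `pullbackComp`, `pushforwardId`, `pushforwardComp`,
`cl_iso`, `cl_closure`. `bc`: `St_P4`; `ex`: `St_E2`, `St_D3`; `ex0`: `St_D3`; `dev`: `St_D4`; `hom`: `St_H2`; `free`:
`St_P5`. needs: P2, P4, P5, E2, D3, D4, H2 -/
def St_Fin : Prop := ∃ T : Pool.Agent.KTH.Thy.{1}, ∃ ε : ∀ X, T.T X ≃+ K0 X,
  (∀ (X Y : Scheme.{0}) (f : Y ⟶ X) [Flat f] (x : T.T X), ε Y (T.pull f x) = pullK f (ε X x)) ∧
  (∀ (X Y : Scheme.{0}) (f : Y ⟶ X) [IsFinite f] (x : T.T Y), ε X (T.push f x) = pushK f (ε Y x))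

end Pool.Agent.KIN
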